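import Pool.Agent.MP_c69980_ag.E2.SpecB
import Pool.Agent.MP_c69980_ag.E1.Loc

/-!
Open surfaces fibred over an elliptic curve: common facts.
-/

set_option autoImplicit false

noncomputable section

namespace Pool.Agent.MP_c69980_ag.E2

open MvPolynomial Metric Filter Topology Set Real
open H60 H4 E1

variable {n : ℕ} {X : Set (Pt n)} {W U : Set (PS n)} {a j : Fin n} {O : Set (ℂ × ℂ)}
  {Y : ℂ × ℂ → V n} {p : ℂ × ℂ} {y y' w w' v : V n} {t z z' l : ℂ} {A A' : Set ℂ}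
  {s s' g g' F : ℂ → V n} {D : Fib n} {Q : PR 3} {d : ℕ}

/-! ### Cones over open sets -/

lemma cone_pp (hy : y ∈ Cone U) (h : Pp w y) : w ∈ Cone U := by
  obtain ⟨y0, hy⟩ := hy
  refine ⟨h.ne y0, ?_⟩
  obtain ⟨c, c0, rfl⟩ := h
  rwa [(Projectivization.mk_eq_mk_iff' ℂ _ _ _ y0).2 ⟨c, rfl⟩]

lemma cone_iff (h : Pp w y) : w ∈ Cone U ↔ y ∈ Cone U :=
  ⟨fun q => cone_pp q h.symm, fun q => cone_pp q h⟩

lemma cone_mono (h : U ⊆ W) (hy : y ∈ Cone U) : y ∈ Cone W := ⟨hy.1, h hy.2⟩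

lemma nm_op {h : ℂ → ℂ} : Nm (Op X U) A F h ↔ Nm X A F h ∧ ∀ z ∈ A, F z ∈ Cone U :=
  ⟨fun H => ⟨⟨H.1, H.2.1, fun z hz => (H.2.2 z hz).1⟩, fun z hz => (H.2.2 z hz).2⟩,
    fun H => ⟨H.1.1, H.1.2.1, fun z hz => ⟨H.1.2.2 z hz, H.2 z hz⟩⟩⟩

lemma sc_op : Sc (Op X U) A s ↔ Sc X A s ∧ ∀ t ∈ A, s t ∈ Cone U :=
  ⟨fun H => ⟨⟨H.1, fun z hz => (H.2 z hz).1⟩, fun z hz => (H.2 z hz).2⟩,
    fun H => ⟨H.1.1, fun z hz => ⟨H.1.2 z hz, H.2 z hz⟩⟩⟩

lemma op_pp (hX : Cn X) (h : (t, y) ∈ Op X U) (H : Pp w y) : (t, w) ∈ Op X U :=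
  ⟨hX.pp h.1 H, cone_pp h.2 H⟩

lemma sc_nm (H : Sc (Op X U) A s) (hX : Cn X) (hg : Crv A g) (h : ∀ w ∈ A, Pp (s w) (g w)) :
    Nm (Op X U) A g id :=
  ⟨hg, differentiableOn_id, fun z hz => op_pp hX (H.2 z hz) (h z hz).symm⟩

lemma EqP.ev (h : EqP W U) (hy : y ∈ Cone U) : ∀ᶠ w in 𝓝 y, w ∈ Cone W → w ∈ Cone U := by
  obtain ⟨β, b1, b2⟩ := h.2 y (cone_mono h.1 hy)
  filter_upwards [b2, b1.continuousAt.eventually_ne
    ((b2.self_of_nhds (cone_mono h.1 hy)).1 hy)] with w w1 w2 hw using (w1 hw).2 w2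

lemma Fib.cn (D : Fib n) : Cn D.X := D.cov.cn

lemma Fib.cone (D : Fib n) (h : (t, y) ∈ D.X) : y ∈ Cone D.W := (D.cov.cone y).2 ⟨t, h⟩

/-- The open part is open. -/
lemma Fib.ev (D : Fib n) (hy : y ∈ Cone D.U) :
    ∀ᶠ x in 𝓝 ((t, y) : Pt n), x ∈ D.X → x.2 ∈ Cone D.U :=
  (continuous_snd.continuousAt.eventually (D.eqp.ev hy)).mono fun _ q hx => q (D.cone hx)

lemma Fib.ev_chart (D : Fib n) (h : Chart D.X a j O Y) (hp : p ∈ O) (hy : Y p ∈ Cone D.U) :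
    ∀ᶠ q in 𝓝 p, q ∈ O ∧ Y q ∈ Cone D.U := by
  filter_upwards [h.nhds hp, (h.an hp).continuousAt.eventually (D.eqp.ev hy)] with q q1 q2
  exact ⟨q1, q2 (D.cone (h.mem q1))⟩

/-- The boundary is closed. -/
lemma Fib.bd_lim (D : Fib n) {β : Type*} {f : Filter β} [f.NeBot] {x : β → Pt n}
    (hx : Tendsto (fun k => (x k).2) f (𝓝 y))
    (H : ∀ᶠ k in f, x k ∈ D.X ∧ (x k).2 ∉ Cone D.U) : y ∉ Cone D.U := fun hy => by
  obtain ⟨k, k1, k2⟩ := (H.and (hx.eventually (D.eqp.ev hy))).exists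
  exact k1.2 (k2 (D.cone k1.1))

lemma Fib.sc_ev (D : Fib n) (hs : Sc D.X A s) (o : IsOpen A) (ht : t ∈ A) (hU : s t ∈ Cone D.U) :
    ∀ᶠ w in 𝓝 t, s w ∈ Cone D.U := by
  obtain ⟨g, g1, -, g3⟩ := lh_iff.1 hs.1 t ht
  filter_upwards [g3, o.mem_nhds ht, g1.continuousAt.eventually
    (D.eqp.ev (cone_pp hU g3.self_of_nhds.symm))] with w w1 w2 w3
  exact cone_pp (w3 (cone_pp (D.cone (hs.2 w w2)) w1.symm)) w1

lemma Fib.shift (D : Fib n) (H : Sc D.Xo A s) (hl : l ∈ D.L.lattice)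
    (hm : ∀ t ∈ A', t + l ∈ A) : Sc D.Xo A' fun t => s (t + l) :=
  sc_op.2 ⟨(sc_op.1 H).1.shift D.cov hl hm, fun t ht => (sc_op.1 H).2 _ (hm t ht)⟩

lemma Fib.per (D : Fib n) (hl : l ∈ D.L.lattice) : (t + l, y) ∈ D.X ↔ (t, y) ∈ D.X :=
  ⟨fun h => by simpa using D.cov.per _ h (-l) (neg_mem hl), fun h => D.cov.per _ h l hl⟩

lemma Fib.chart_shift (D : Fib n) (h : Chart D.X a j O Y) (hl : l ∈ D.L.lattice) :
    Chart D.X a j {p | (p.1 - l, p.2) ∈ O} fun p => Y (p.1 - l, p.2) :=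
  h.shift (fun x hx => D.cov.per x hx l hl) fun x hx => by
    simpa [sub_eq_add_neg] using D.cov.per x hx _ (neg_mem hl)

/-! ### The forms -/

section

variable {m : ℕ} {L : PeriodPair} {Φ : Fin 3 → Pt n → V n → ℂ}

/-- The values of the forms on a vertical vector. -/
lemma Frm.vt (F : Frm L X U m Φ) (hX : Cn X) (h : Chart X a j O Y) (hp : p ∈ O)
    (hU : Y p ∈ Cone U) (hy : Pp y (Y p)) (hv : Vt X (p.1, y) v) :
    ∃ κ : ℂ, κ ≠ 0 ∧ wg y v = (y j ^ 2 * κ) • wg (Y p) (dz Y p) ∧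
      lamv y v = ‖κ‖ ^ 2 * lamv (Y p) (dz Y p) ∧ ∀ i, Φ i (p.1, y) v = κ ^ m * fc Φ Y i p := by
  obtain ⟨α, β, α0, rfl⟩ := (h.vt_iff hX hp hy).1 hv
  obtain ⟨c, c0, rfl⟩ := hy
  refine ⟨α / c, div_ne_zero α0 c0, ?_, lamv_comb (h.ne hp) c0 _ _ _, fun i => by
    simpa using F.hom a j O Y h p hp hU 0 (zero_mem _) c α β i c0⟩
  rw [wg_smul_left, wg_comb, smul_smul, Pi.smul_apply, h.yj hp]
  congr 1
  simp only [smul_eq_mul]
  field_simp

/-- The same with an explicit factor. -/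
lemma Frm.vt' (F : Frm L X U m Φ) (hX : Cn X) (h : Chart X a j O Y) (hp : p ∈ O)
    (hU : Y p ∈ Cone U) (hy : Pp y (Y p)) (hv : Vt X (p.1, y) v) : wg y v (j, a) / y j ^ 2 ≠ 0 ∧
      ∀ i, Φ i (p.1, y) v = (wg y v (j, a) / y j ^ 2) ^ m * fc Φ Y i p := by
  obtain ⟨κ, k0, k1, -, k2⟩ := F.vt hX h hp hU hy hv
  have e : wg y v (j, a) / y j ^ 2 = κ := by
    rw [k1, Pi.smul_apply, h.wg_dz hp, smul_eq_mul, mul_one,
      mul_div_cancel_left₀ _ (pow_ne_zero 2 (h.eq hp hy).1)]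
  rw [e]
  exact ⟨k0, k2⟩

lemma Frm.shift (F : Frm L X U m Φ) (h : Chart X a j O Y) (hl : l ∈ L.lattice)
    (hp : (p.1 - l, p.2) ∈ O) (hU : Y (p.1 - l, p.2) ∈ Cone U) (i : Fin 3) :
    fc Φ (fun p => Y (p.1 - l, p.2)) i p = fc Φ Y i (p.1 - l, p.2) := by
  simpa [fc, dz_shift] using F.hom a j O Y h _ hp hU l hl 1 1 0 i one_ne_zero

lemma Frm.qq_an (F : Frm L X U m Φ) (h : Chart X a j O Y) (hp : p ∈ O) (hU : Y p ∈ Cone U)
    (Q : PR 3) : AnalyticAt ℂ (qq Φ Q Y) p := by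
  have := AnalyticAt.aeval_mvPolynomial (fun l => F.an a j O Y h p hp hU l) Q
  simp only [aeval_eq_eval] at this
  exact this

end

/-- The values `ph` in a translated chart. -/
lemma ph_chart (h : Chart D.X a j O Y) (hl : l ∈ D.L.lattice) (hz : (t - l, z) ∈ O)
    (hU : Y (t - l, z) ∈ Cone D.U) (hy : Pp y (Y (t - l, z))) : ∃ κ : ℂ, κ ≠ 0 ∧
      lamv y (tv D.X (t, y)) = ‖κ‖ ^ 2 * lamv (Y (t - l, z)) (dz Y (t - l, z)) ∧
      (∀ i, ph D i t y = κ ^ D.m * fc D.Φ Y i (t - l, z)) ∧ ∀ (Q : PR 3) (d : ℕ),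
        Q.IsHomogeneous d → Uq D Q t y = κ ^ (D.m * d) * qq D.Φ Q Y (t - l, z) := by
  have c := D.chart_shift h hl
  obtain ⟨κ, κ0, -, k2, k3⟩ := D.frm.vt (p := (t, z)) D.cn c hz hU hy
    (Rx.vt D.cn (c.rx (p := (t, z)) hz hy))
  rw [dz_shift] at k2
  have k4 : ∀ i, ph D i t y = κ ^ D.m * fc D.Φ Y i (t - l, z) := fun i =>
    (k3 i).trans (congrArg _ (D.frm.shift (p := (t, z)) h hl hz hU i))
  refine ⟨κ, κ0, k2, k4, fun Q d hQ => ?_⟩
  rw [pow_mul, qq, ← eval_smul_hom hQ, Uq]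
  exact congrArg (fun f => eval f Q) (funext k4)

lemma ph_chart0 (h : Chart D.X a j O Y) (hz : (t, z) ∈ O) (hU : Y (t, z) ∈ Cone D.U)
    (hy : Pp y (Y (t, z))) : ∃ κ : ℂ, κ ≠ 0 ∧
      lamv y (tv D.X (t, y)) = ‖κ‖ ^ 2 * lamv (Y (t, z)) (dz Y (t, z)) ∧
      (∀ i, ph D i t y = κ ^ D.m * fc D.Φ Y i (t, z)) ∧ ∀ (Q : PR 3) (d : ℕ),
        Q.IsHomogeneous d → Uq D Q t y = κ ^ (D.m * d) * qq D.Φ Q Y (t, z) := by
  simpa using ph_chart (t := t) (z := z) (y := y) h (zero_mem _) (by simpa using hz)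
    (by simpa using hU) (by simpa using hy)

open LocX in
/-- The function `uu` in a chart. -/
lemma point (h : Chart D.X a j O Y) (hd : 0 < d) (hQ : Q.IsHomogeneous d) (hl : l ∈ D.L.lattice)
    (hz : (t - l, z) ∈ O) (hz' : (t - l, z') ∈ O) (hU : Y (t - l, z) ∈ Cone D.U)
    (hy : Pp y (Y (t - l, z))) (hy' : Pp y' (Y (t - l, z'))) {G : ℂ → ℂ}
    (hG : G t = (z' - z) ^ (D.m * d) * qq D.Φ Q Y (t - l, z)) :
    (Zp D Q t y y' ↔ t ∉ D.L.lattice ∧ G t ≠ 0) ∧ (Zp D Q t y y' →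
      uu D Q d t y y' = bt D.L G t + 3 * (D.m * d) * EE Y (t - l, z, z')) := by
  obtain ⟨κ, κ0, k2, -, e2⟩ := ph_chart h hl hz hU hy
  replace e2 := e2 Q d hQ
  have m0 : D.m * d ≠ 0 := (Nat.mul_pos D.frm.m0 hd).ne'
  have e3 : Pp y y' ↔ z' = z := by
    rw [← h.pp_iff hz hz']
    exact ⟨fun q => hy'.symm.trans (q.symm.trans hy), fun q => hy.trans (q.symm.trans hy'.symm)⟩
  have e4 : Zp D Q t y y' ↔ t ∉ D.L.lattice ∧ z' - z ≠ 0 ∧ qq D.Φ Q Y (t - l, z) ≠ 0 := by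
    simp [Zp, e2, e3, κ0, sub_eq_zero, cone_pp hU hy]
  refine ⟨by simp [e4, hG, m0], fun ht => ?_⟩
  obtain ⟨-, n1, n2⟩ := e4.1 ht
  have y0 := h.ne hz
  have y1 := h.ne hz'
  have p1 := div_pos (mul_pos (lamv_pos (h.wg_dd_ne hz hz')) (H84.sq_pos' y0)) (H84.sq_pos' y1)
  have p2 := lamv_pos (h.wg_ne hz)
  have e5 : lamv (Y (t - l, z)) (Y (t - l, z')) =
      ‖z' - z‖ ^ 2 * lamv (Y (t - l, z)) (dd Y (t - l) z z') := by
    simpa [← dd_eq] using lamv_comb y0 one_ne_zero (z' - z) 1 (dd Y (t - l) z z')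
  have e6 : d2 y y' = ‖z' - z‖ ^ 2 * (lamv (Y (t - l, z)) (dd Y (t - l) z z') *
      H4.sq (Y (t - l, z)) / H4.sq (Y (t - l, z'))) := by
    rw [hy.d2 hy', d2_lamv y0 y1, e5]
    ring
  have a1 := norm_ne_zero_iff.2 n1
  have a2 := norm_ne_zero_iff.2 n2
  have a3 := norm_ne_zero_iff.2 κ0
  rw [uu, bt, bt, e2, e6, k2, hG, EE, norm_mul, norm_mul, norm_pow, norm_pow,
    log_mul (pow_ne_zero _ a1) p1.ne', log_mul (pow_ne_zero _ a3) p2.ne',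
    log_mul (pow_ne_zero _ a3) a2, log_mul (pow_ne_zero _ a1) a2, log_pow, log_pow, log_pow,
    log_pow]
  push_cast
  ring

lemma bt_shift (L : PeriodPair) (G : ℂ → ℂ) (hl : l ∈ L.lattice) (t : ℂ) :
    bt L G (t + l) = bt L (fun t => G (t + l)) t := by
  rw [bt, bt, L.weierstrassP_add_coe t ⟨l, hl⟩, L.derivWeierstrassP_add_coe t ⟨l, hl⟩]

/-- `Zp` and `uu` do not change under scaling and under the periods. -/
lemma zp_inv (hQ : Q.IsHomogeneous d) (hl : l ∈ D.L.lattice) (hx : (t, y) ∈ Rx D.X)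
    (h : Pp w y) (h' : Pp w' y') : (Zp D Q (t + l) w w' ↔ Zp D Q t y y') ∧
      (Zp D Q t y y' → uu D Q d (t + l) w w' = uu D Q d t y y') := by
  have e0 : t + l ∈ D.L.lattice ↔ t ∈ D.L.lattice := add_mem_cancel_right hl
  have e1 : Pp w w' ↔ Pp y y' :=
    ⟨fun q => h.symm.trans (q.trans h'), fun q => h.trans (q.trans h'.symm)⟩
  by_cases hU : y ∈ Cone D.U
  swap
  · exact ⟨⟨fun q => absurd ((cone_iff h).1 q.2.1) hU, fun q => absurd q.2.1 hU⟩,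
      fun q => absurd q.2.1 hU⟩
  obtain ⟨a, j, O, Y, c, z, z1, z2⟩ := hx
  have hU' := cone_pp hU z2.symm
  obtain ⟨κ, k0, k1, -, k2⟩ := ph_chart0 c z1 hU' z2
  obtain ⟨κ', k0', k1', -, k2'⟩ := ph_chart (t := t + l) (z := z) (y := w) c hl
    (by simpa using z1) (by simpa using hU') (by simpa using h.trans z2)
  simp only [add_sub_cancel_right] at k1' k2'
  refine ⟨by simp [Zp, e0, e1, cone_iff h, k2 Q d hQ, k2' Q d hQ, k0, k0'], fun q => ?_⟩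
  have n2 : qq D.Φ Q Y (t, z) ≠ 0 := fun e => q.2.2.2 (by rw [k2 Q d hQ, e, mul_zero])
  have p2 := LocX.lamv_pos (c.wg_ne z1)
  have a2 := norm_ne_zero_iff.2 n2
  have a3 := norm_ne_zero_iff.2 k0
  have a4 := norm_ne_zero_iff.2 k0'
  rw [uu, uu, bt_shift _ _ hl, bt, bt, h.d2 h', k1, k1', k2 Q d hQ, k2' Q d hQ, norm_mul, norm_mul,
    norm_pow, norm_pow, log_mul (pow_ne_zero _ a3) p2.ne', log_mul (pow_ne_zero _ a4) p2.ne',
    log_mul (pow_ne_zero _ a3) a2, log_mul (pow_ne_zero _ a4) a2, log_pow, log_pow, log_pow,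
    log_pow]
  push_cast
  ring

lemma zp_pp (hQ : Q.IsHomogeneous d) (hx : (t, y) ∈ Rx D.X) (h : Pp w y)
    (h' : Pp w' y') : (Zp D Q t w w' ↔ Zp D Q t y y') ∧
      (Zp D Q t y y' → uu D Q d t w w' = uu D Q d t y y') := by
  simpa using zp_inv hQ (zero_mem _) hx h h'

/-- Where `Q (Φ)` vanishes, so does the form `B` given by `ZeroP`. -/
lemma uq_zero (hQ : Q.IsHomogeneous d) {B : PR n} {f : ℕ} (hB : B.IsHomogeneous f)
    (h : ∀ a j O Y, Chart D.X a j O Y → ∀ p ∈ O, Y p ∈ Cone D.U → qq D.Φ Q Y p = 0 →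
      eval (Y p) B = 0) (hx : (t, y) ∈ Rx D.X) (hU : y ∈ Cone D.U) (ht : Uq D Q t y = 0) :
    eval y B = 0 := by
  obtain ⟨a, j, O, Y, c, z, z1, z2⟩ := hx
  obtain ⟨κ, k0, -, -, k⟩ := ph_chart0 c z1 (cone_pp hU z2.symm) z2
  rw [k Q d hQ] at ht
  exact (z2.eval hB).2 (h a j O Y c _ z1 (cone_pp hU z2.symm)
    ((mul_eq_zero.1 ht).resolve_left (pow_ne_zero _ k0)))

lemma Aw.pp {η : ℝ} (h : Aw D η t y) (H : Pp w y) : Aw D η t w := fun y' a b => by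
  rw [H.d2 (.refl y')]
  exact h y' a b

lemma Aw.mono {η η' : ℝ} (h : Aw D η t y) (H : η' ≤ η) : Aw D η' t y :=
  fun y' a b => H.trans (h y' a b)

lemma aw_shift {η : ℝ} (hl : l ∈ D.L.lattice) : Aw D η (t + l) y ↔ Aw D η t y := by
  simp only [Aw, D.per hl]

lemma Aw.mem {η : ℝ} (h : Aw D η t y) (hη : 0 < η) (hy : (t, y) ∈ D.X) : y ∈ Cone D.U := by
  by_contra q
  have := h y hy q
  rw [(d2_eq_zero (D.cn.nz _ hy) (D.cn.nz _ hy)).2 (.refl _)] at this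
  exact absurd this hη.not_ge

/-! ### Projective distance and convergence -/

/-- Points at a small distance are close after scaling. -/
lemma near_of_d2 (y0 : y ≠ 0) {P : V n → Prop} (h : ∀ᶠ w in 𝓝 y, P w) :
    ∃ η : ℝ, 0 < η ∧ ∀ w, w ≠ 0 → d2 w y ≤ η → ∃ w', Pp w w' ∧ P w' := by
  obtain ⟨ε, ε0, hε⟩ := Metric.eventually_nhds_iff.1 (h.and (eventually_ne_nhds y0))
  have p := H84.sq_pos' y0
  refine ⟨ε ^ 2 / 2 / H4.sq y, by positivity, fun w w0 hw => ?_⟩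
  have e := H84.d2_mul y0 w0
  rw [d2_symm, le_div_iff₀ p, e] at hw
  have k : dist ((ip y w / H4.sq w) • w) y < ε := by
    rw [dist_comm, dist_eq_norm, pi_norm_lt_iff ε0]
    intro i
    refine lt_of_pow_lt_pow_left₀ 2 ε0.le (lt_of_le_of_lt (le_trans ?_ hw) (by
      linarith [pow_pos ε0 2]))
    exact Finset.single_le_sum (f := fun i => ‖(y - (ip y w / H4.sq w) • w) i‖ ^ 2)
      (fun _ _ => sq_nonneg _) (Finset.mem_univ i)
  exact ⟨_, (Pp.smul (fun q => (hε k).2 (by rw [q, zero_smul])) w).symm, (hε k).1⟩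

/-- A sequence whose distance to `y` tends to zero converges after scaling. -/
lemma lim_of_d2 {β : Type*} {f : Filter β} {x : β → V n} (y0 : y ≠ 0) (h0 : ∀ᶠ k in f, x k ≠ 0)
    (h : Tendsto (fun k => d2 (x k) y) f (𝓝 0)) :
    ∃ x' : β → V n, Tendsto x' f (𝓝 y) ∧ ∀ᶠ k in f, Pp (x k) (x' k) := by
  have k : Tendsto (fun k => (ip y (x k) / H4.sq (x k)) • x k) f (𝓝 y) := by
    refine tendsto_iff_norm_sub_tendsto_zero.2 (Metric.tendsto_nhds.2 fun ε ε0 => ?_)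
    have p := H84.sq_pos' y0
    filter_upwards [h0, h.eventually (ge_mem_nhds (by positivity : 0 < ε ^ 2 / 2 / H4.sq y))]
      with k w0 hw
    rw [d2_symm, le_div_iff₀ p, H84.d2_mul y0 w0] at hw
    rw [dist_zero_right, norm_norm, norm_sub_rev, pi_norm_lt_iff ε0]
    intro i
    refine lt_of_pow_lt_pow_left₀ 2 ε0.le (lt_of_le_of_lt (le_trans ?_ hw) (by
      linarith [pow_pos ε0 2]))
    exact Finset.single_le_sum (f := fun i => ‖(y - (ip y (x k) / H4.sq (x k)) • x k) i‖ ^ 2)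
      (fun _ _ => sq_nonneg _) (Finset.mem_univ i)
  refine ⟨_, k, ?_⟩
  filter_upwards [k.eventually_ne y0] with k q
  exact (Pp.smul (fun e => q (by rw [e, zero_smul])) _).symm

lemma d2_self (y0 : y ≠ 0) : d2 y y = 0 := (d2_eq_zero y0 y0).2 (.refl _)

lemma lh_d2 (hs : LH A s) (hg : LH A g) (ht : t ∈ A) :
    ContinuousAt (fun t => d2 (s t) (g t)) t := by
  obtain ⟨a, a1, a2, a3⟩ := lh_iff.1 hs t ht
  obtain ⟨b, b1, b2, b3⟩ := lh_iff.1 hg t ht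
  have c : ContinuousAt (fun w => d2 (a w) (b w)) t := d2_lim a1.continuousAt b1.continuousAt a2 b2
  refine c.congr ?_
  filter_upwards [a3, b3] with w w1 w2 using (w1.d2 w2).symm

section

variable {u : Filter ℕ} {S S' : ℕ → ℂ → V n}

lemma cv_congr (h : Cv u A S g) (o : IsOpen A)
    (H : ∀ t ∈ A, ∃ r : ℝ, 0 < r ∧ ∀ᶠ k in u, ∀ w ∈ ball t r, Pp (S' k w) (S k w))
    (H' : ∀ t ∈ A, Pp (g' t) (g t)) : Cv u A S' g' := fun t ht => by
  obtain ⟨r, f, G, r0, a, b, c, e⟩ := h t ht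
  obtain ⟨r', r0', c'⟩ := H t ht
  obtain ⟨r'', r0'', c''⟩ := Metric.isOpen_iff.1 o t ht
  have s1 : ball t (min r (min r' r'')) ⊆ ball t r := ball_subset_ball (min_le_left _ _)
  have s2 : ball t (min r (min r' r'')) ⊆ ball t r' :=
    ball_subset_ball ((min_le_right _ _).trans (min_le_left _ _))
  have s3 : ball t (min r (min r' r'')) ⊆ ball t r'' :=
    ball_subset_ball ((min_le_right _ _).trans (min_le_right _ _))
  refine ⟨_, f, G, lt_min r0 (lt_min r0' r0''), crv_mono a s1,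
    fun w hw => (H' w (c'' (s3 hw))).trans (b w (s1 hw)), ?_, e.mono s1⟩
  filter_upwards [c, c'] with k k1 k2
  exact ⟨crv_mono k1.1 s1, fun w hw => (k2 w (s2 hw)).trans (k1.2 w (s1 hw))⟩

lemma cv_const (h : LH A g) : Cv u A (fun _ => g) g := fun t ht => by
  obtain ⟨G, r, r0, a, b⟩ := h t ht
  exact ⟨r, fun _ => G, G, r0, a, b, .of_forall fun _ => ⟨a, b⟩,
    Metric.tendstoUniformlyOn_iff.2 fun ε ε0 => .of_forall fun _ _ _ => by simpa using ε0⟩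

lemma cv_shift (h : Cv u A S g) (hm : ∀ t ∈ A', t + l ∈ A) :
    Cv u A' (fun k t => S k (t + l)) fun t => g (t + l) := fun t ht => by
  obtain ⟨r, f, G, r0, a, b, c, e⟩ := h _ (hm t ht)
  have m : ∀ w ∈ ball t r, w + l ∈ ball (t + l) r := fun w hw => by simpa using hw
  have k : ∀ {G : ℂ → V n}, Crv (ball (t + l) r) G → Crv (ball t r) fun w => G (w + l) :=
    fun q => ⟨q.1.comp (differentiableOn_id.add_const l) m, fun w hw => q.2 _ (m w hw)⟩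
  exact ⟨r, fun k w => f k (w + l), fun w => G (w + l), r0, k a, fun w hw => b _ (m w hw),
    c.mono fun i q => ⟨k q.1, fun w hw => q.2 _ (m w hw)⟩, (e.comp fun w => w + l).mono m⟩

/-- Limits are unique. -/
lemma cv_uniq [u.NeBot] (h : Cv u A S g) (h' : Cv u A S g') (ht : t ∈ A) : Pp (g t) (g' t) := by
  obtain ⟨y, y1, y2⟩ := h.pt ht tendsto_const_nhds
  obtain ⟨y', y1', y2'⟩ := h'.pt ht tendsto_const_nhds
  exact pp_lim y1 y1' (h.lh.ne ht) (h'.lh.ne ht)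
    ((y2.and y2').mono fun _ q => q.1.symm.trans q.2)

end

lemma Fn.mono {P P' : (ℂ → V n) → Prop} (h : Fn P) (H : ∀ g, P' g → P g) : Fn P' := by
  classical
  obtain ⟨T, t1, -, t3⟩ := h
  have : ∀ g : ℂ → V n, ∃ g', (∃ f, P' f ∧ ∀ t, Pp (f t) (g t)) →
      P' g' ∧ ∀ t, Pp (g' t) (g t) := fun g => by
    by_cases q : ∃ f, P' f ∧ ∀ t, Pp (f t) (g t)
    · exact q.imp fun f hf _ => hf
    · exact ⟨g, fun r => absurd r q⟩
  choose φ hφ using this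
  refine ⟨φ '' {g ∈ T | ∃ f, P' f ∧ ∀ t, Pp (f t) (g t)}, (t1.subset fun _ q => q.1).image _, ?_,
    fun g hg => ?_⟩
  · rintro _ ⟨g, hg, rfl⟩
    exact (hφ g hg.2).1
  · obtain ⟨g', a, b⟩ := t3 g (H g hg)
    exact ⟨φ g', ⟨g', ⟨a, g, hg, b⟩, rfl⟩, fun t => (b t).trans ((hφ g' ⟨g, hg, b⟩).2 t).symm⟩

/-! ### The bad values -/

lemma Far.mono {η η' : ℝ} (h : Far D η t) (H : η' ≤ η) : Far D η' t :=
  fun b hb => H.trans (h b hb)

lemma Far.near {η : ℝ} {t' : ℂ} (h : Far D η t) : Far D (η - ‖t' - t‖) t' := fun b hb => by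
  have h1 := h b hb
  have h2 := norm_sub_le (t' - b) (t' - t)
  rw [show t' - b - (t' - t) = t - b by ring] at h2
  linarith

lemma Far.notMem {η : ℝ} (h : Far D η t) (hη : 0 < η) : t ∉ D.B := fun q => by
  simpa [hη.not_ge] using h t q

lemma far_closed (D : Fib n) (η : ℝ) : IsClosed {t | Far D η t} := by
  simp only [Far, ofPred_forall]
  exact isClosed_iInter fun _ => isClosed_iInter fun _ =>
    isClosed_le continuous_const (by fun_prop)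

lemma lat_sub (D : Fib n) (h : t ∈ D.L.lattice) : t ∈ D.B := .inl h

lemma b_shift (hL : LatStmt) (hl : l ∈ D.L.lattice) : t + l ∈ D.B ↔ t ∈ D.B :=
  ⟨fun h => by simpa using ((hL D.L).2.2 D.S).1 _ h (-l) (neg_mem hl),
    fun h => ((hL D.L).2.2 D.S).1 _ h l hl⟩

lemma far_shift (hL : LatStmt) {η : ℝ} (hl : l ∈ D.L.lattice) : Far D η (t + l) ↔ Far D η t :=
  ⟨fun h b hb => by simpa using h (b + l) ((b_shift hL hl).2 hb),
    fun h b hb => by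
      have := h (b - l) ((b_shift hL hl).1 (by simpa using hb))
      rwa [show t - (b - l) = t + l - b by ring] at this⟩

lemma far_of_notMem (hL : LatStmt) (h : t ∉ D.B) : ∃ η : ℝ, 0 < η ∧ Far D η t := by
  obtain ⟨r, r0, hr⟩ := ((hL D.L).2.2 D.S).2.2 t
  refine ⟨r, r0, fun b hb => le_of_not_gt fun q => h ?_⟩
  rw [norm_sub_rev] at q
  exact hr b hb q.le ▸ hb

lemma b_ev (hL : LatStmt) (D : Fib n) (t : ℂ) : ∀ᶠ w in 𝓝[≠] t, w ∉ D.B := by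
  obtain ⟨r, r0, hr⟩ := ((hL D.L).2.2 D.S).2.2 t
  filter_upwards [self_mem_nhdsWithin, nhdsWithin_le_nhds (closedBall_mem_nhds t r0)] with w a b c
  exact a (hr w c (mem_closedBall_iff_norm.1 b))

lemma b_open (hL : LatStmt) (D : Fib n) : IsOpen D.Bᶜ := isOpen_iff_mem_nhds.2 fun t ht => by
  filter_upwards [eventually_nhdsWithin_iff.1 (b_ev hL D t)] with w hw
  by_cases e : w = t
  · exact e ▸ ht
  · exact hw e

lemma b_count (hL : LatStmt) (D : Fib n) : D.B.Countable :=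
  (HereditarilyLindelofSpace.isLindelof _).countable_of_isDiscrete (isDiscrete_iff_nhdsNE.2
    fun t _ => inf_principal_eq_bot.2 (b_ev hL D t))

lemma b_conn (hL : LatStmt) (D : Fib n) : IsPreconnected D.Bᶜ :=
  ((b_count hL D).isConnected_compl_of_one_lt_rank (by simp)).isPreconnected

/-- All the points over a small punctured disc are regular. -/
lemma pun (D : Fib n) {c : ℂ} {r : ℝ} (h : ∀ t ∈ D.B, ‖t - c‖ ≤ r → t = c) : Pun D.X c r :=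
  fun x hx e => D.bad x hx.1 fun q => e (h _ q hx.2)

/-- Sections that agree off the bad values agree. -/
lemma pp_of_off (hL : LatStmt) (D : Fib n) (hs : LH A s) (hg : LH A g) (o : IsOpen A)
    (h : ∀ t ∈ A, t ∉ D.B → Pp (s t) (g t)) (ht : t ∈ A) : Pp (s t) (g t) := by
  refine (d2_eq_zero (hs.ne ht) (hg.ne ht)).1 (tendsto_nhds_unique (l := 𝓝[≠] t)
    ((lh_d2 hs hg ht).tendsto.mono_left nhdsWithin_le_nhds) (tendsto_const_nhds.congr' ?_))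
  filter_upwards [b_ev hL D t, nhdsWithin_le_nhds (o.mem_nhds ht)] with w a b
  exact ((d2_eq_zero (hs.ne b) (hg.ne b)).2 (h w b a)).symm

/-- A free ultrafilter. -/
def uf : Ultrafilter ℕ := Ultrafilter.of atTop

lemma uf_le : (uf : Filter ℕ) ≤ atTop := Ultrafilter.of_le _

lemma ulim (u : Ultrafilter ℕ) {K : Set ℂ} (hK : IsCompact K) {f : ℕ → ℂ}
    (h : ∀ᶠ k in u, f k ∈ K) : ∃ x ∈ K, Tendsto f u (𝓝 x) :=
  hK.ultrafilter_le_nhds (u.map f) (le_principal_iff.2 h)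

end Pool.Agent.MP_c69980_ag.E2
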