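import Pool.Agent.MP_c69980_ag.E2.Base

/-!
Open surfaces fibred over an elliptic curve: convergence from the projective distance.
-/

set_option autoImplicit false

noncomputable section

namespace Pool.Agent.MP_c69980_ag.E2

open MvPolynomial Metric Filter Topology Set Real
open H60 H4 E1

variable {n : ℕ} {y w : V n} {A : Set ℂ} {g : ℂ → V n} {u : Filter ℕ} {S S' : ℕ → ℂ → V n}

lemma sq_le (y : V n) : H4.sq y ≤ n * ‖y‖ ^ 2 := by
  refine (Finset.sum_le_card_nsmul _ _ (‖y‖ ^ 2) fun i _ => ?_).trans_eq (by simp)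
  exact pow_le_pow_left₀ (norm_nonneg _) (norm_le_pi_norm y i) 2

/-- The affine coordinates of close points are close. -/
lemma coord_near {j : Fin n} {ε M : ℝ} (hj : y j = 1) (hM : ‖y‖ ≤ M) (w0 : w ≠ 0) (e0 : 0 < ε)
    (e1 : ε ≤ 1 / 2) (h : d2 w y ≤ ε ^ 2 / (n * M ^ 2 + 1)) :
    w j ≠ 0 ∧ ‖(w j)⁻¹ • w - y‖ ≤ 2 * (ε + ε * M) := by
  have y0 : y ≠ 0 := fun e => by simp [e] at hj
  have M0 : 0 ≤ M := (norm_nonneg _).trans hM
  obtain ⟨c, hc⟩ : ∃ c : ℂ, c = ip y w / H4.sq w := ⟨_, rfl⟩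
  have k0 : H4.sq y ≤ n * M ^ 2 + 1 := (sq_le y).trans (by
    have := pow_le_pow_left₀ (norm_nonneg _) hM 2
    nlinarith [(Nat.cast_nonneg n : (0 : ℝ) ≤ n)])
  rw [d2_symm, le_div_iff₀ (by positivity)] at h
  have k1 := (mul_le_mul_of_nonneg_left k0 (H84.d2_nonneg y0 w0)).trans h
  rw [H84.d2_mul y0 w0, ← hc] at k1
  have k2 : ‖y - c • w‖ ≤ ε := (pi_norm_le_iff_of_nonneg e0.le).2 fun i =>
    (pow_le_pow_iff_left₀ (norm_nonneg _) e0.le two_ne_zero).1 (le_trans (Finset.single_le_sum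
      (f := fun i => ‖(y - c • w) i‖ ^ 2) (fun _ _ => sq_nonneg _) (Finset.mem_univ i)) k1)
  have k3 : ‖1 - c * w j‖ ≤ ε := by simpa [hj] using (norm_le_pi_norm _ j).trans k2
  have k4 : 1 / 2 ≤ ‖c * w j‖ := by
    have := norm_sub_norm_le (1 : ℂ) (c * w j)
    rw [norm_one] at this
    linarith
  have k5 : c * w j ≠ 0 := norm_pos_iff.1 (by linarith)
  refine ⟨right_ne_zero_of_mul k5, ?_⟩
  have e : (w j)⁻¹ • w - y = (c * w j)⁻¹ • ((1 - c * w j) • y - (y - c • w)) := by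
    have := left_ne_zero_of_mul k5
    have := right_ne_zero_of_mul k5
    funext i
    simp only [Pi.sub_apply, Pi.smul_apply, smul_eq_mul]
    field_simp
    ring
  rw [e, norm_smul, norm_inv]
  refine mul_le_mul ((inv_anti₀ (by norm_num) k4).trans_eq (by norm_num))
    ((norm_sub_le _ _).trans ?_) (norm_nonneg _) (by norm_num)
  rw [norm_smul, add_comm]
  exact add_le_add k2 (mul_le_mul k3 hM (norm_nonneg _) e0.le)

/-- Locally uniform convergence of the distances implies convergence. -/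
lemma cv_of_d2 (hg : LH A g) (h : ∀ t ∈ A, ∃ r : ℝ, 0 < r ∧ (∀ᶠ k in u, LH (ball t r) (S k)) ∧
    ∀ η : ℝ, 0 < η → ∀ᶠ k in u, ∀ w ∈ ball t r, d2 (S k w) (g w) ≤ η) : Cv u A S g := by
  intro t ht
  obtain ⟨r, r0, h1, h2⟩ := h t ht
  obtain ⟨j, hj⟩ := Function.ne_iff.1 (hg.ne ht)
  have a : AnalyticAt ℂ (fun w => (g w j)⁻¹ • g w) t := analyticAt_pi_iff.2 fun i => by
    simpa [div_eq_inv_mul] using (hg.ratio ht i hj).1
  obtain ⟨ρ, ρ0, hρ⟩ := Metric.eventually_nhds_iff_ball.1 (a.eventually_analyticAt.and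
    ((hg.ratio ht j hj).2.and ((a.continuousAt.norm.eventually
      (ge_mem_nhds (lt_add_one _))).and (ball_mem_nhds t r0))))
  obtain ⟨M, hM⟩ : ∃ M, M = ‖(g t j)⁻¹ • g t‖ + 1 := ⟨_, rfl⟩
  have M0 : 0 < M := hM ▸ by positivity
  have pp : ∀ {v : V n}, v j ≠ 0 → Pp v ((v j)⁻¹ • v) := fun q => (Pp.smul (inv_ne_zero q) _).symm
  have ne : ∀ {v : V n}, v j ≠ 0 → (v j)⁻¹ • v ≠ 0 := fun {v} q e => by
    simpa [q] using congrFun e j
  have key : ∀ ε : ℝ, 0 < ε → ε ≤ 1 / 2 → ∀ᶠ k in u, ∀ w ∈ ball t ρ, S k w j ≠ 0 ∧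
      ‖(S k w j)⁻¹ • S k w - (g w j)⁻¹ • g w‖ ≤ 2 * (ε + ε * M) := fun ε e0 e1 => by
    filter_upwards [h1, h2 (ε ^ 2 / (n * M ^ 2 + 1)) (by positivity)] with k k1 k2 w hw
    obtain ⟨-, b1, b2, b3⟩ := hρ w hw
    exact coord_near (by simp [b1]) (hM ▸ b2) (k1.ne b3) e0 e1
      (((Pp.refl _).d2 (pp b1)).symm.trans_le (k2 w b3))
  refine ⟨ρ, fun k w => (S k w j)⁻¹ • S k w, fun w => (g w j)⁻¹ • g w, ρ0,
    ⟨fun w hw => (hρ w hw).1.differentiableAt.differentiableWithinAt,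
      fun w hw => ne (hρ w hw).2.1⟩, fun w hw => pp (hρ w hw).2.1, ?_,
    Metric.tendstoUniformlyOn_iff.2 fun ε ε0 => ?_⟩
  · filter_upwards [h1, key (1 / 2) (by norm_num) le_rfl] with k k1 k2
    refine ⟨⟨fun w hw => (AnalyticAt.differentiableAt (analyticAt_pi_iff.2 fun i => ?_)
      ).differentiableWithinAt, fun w hw => ne (k2 w hw).1⟩, fun w hw => pp (k2 w hw).1⟩
    simpa [div_eq_inv_mul] using (k1.ratio (hρ w hw).2.2.2 i (k2 w hw).1).1
  · have c : Tendsto (fun x : ℝ => 2 * (x + x * M)) (𝓝[>] 0) (𝓝 0) :=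
      (Continuous.tendsto' (by fun_prop) _ _ (by simp)).mono_left nhdsWithin_le_nhds
    obtain ⟨x, x1, x2, x3⟩ := ((c.eventually (gt_mem_nhds ε0)).and (Eventually.and
      (nhdsWithin_le_nhds (ge_mem_nhds (by norm_num : (0 : ℝ) < 1 / 2)))
      self_mem_nhdsWithin)).exists
    filter_upwards [key x x3 x2] with k hk w hw
    rw [dist_comm, dist_eq_norm]
    exact (hk w hw).2.trans_lt x1

/-- A sequence that is asymptotic to a convergent sequence converges. -/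
lemma cv_of_close (h : Cv u A S g) (o : IsOpen A) (h' : ∀ t ∈ A, ∃ r : ℝ, 0 < r ∧
    (∀ᶠ k in u, LH (ball t r) (S' k)) ∧
    ∀ η : ℝ, 0 < η → ∀ᶠ k in u, ∀ w ∈ ball t r, d2 (S k w) (S' k w) ≤ η) : Cv u A S' g := by
  refine cv_of_d2 h.lh fun t ht => ?_
  obtain ⟨r, r0, h1, h2⟩ := h' t ht
  obtain ⟨r', f, _, r0', -, -, h3, -⟩ := h t ht
  obtain ⟨ρ, ρ0, hρ⟩ := Metric.nhds_basis_closedBall.eventually_iff.1
    ((o.eventually_mem ht).and (Eventually.and (ball_mem_nhds t r0) (ball_mem_nhds t r0')))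
  refine ⟨ρ, ρ0, h1.mono fun k q => q.mono fun w hw => (hρ (ball_subset_closedBall hw)).2.1,
    fun η η0 => ?_⟩
  filter_upwards [h1, h2 (η / 4) (by positivity), h3, h.unif (isCompact_closedBall t ρ)
    (fun w hw => (hρ hw).1) (by positivity : 0 < η / 4)] with k k1 k2 k3 k4 w hw
  obtain ⟨b1, b2, b3⟩ := hρ (ball_subset_closedBall hw)
  have := H84.d2_tri (k1.ne b2) ((k3.2 w b3).ne (k3.1.2 w b3)) (h.lh.ne b1)
  rw [d2_symm (S' k w) (S k w)] at this
  linarith [k2 w b2, k4 w (ball_subset_closedBall hw)]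

/-- Convergence along a principal ultrafilter. -/
lemma cv_pure {k : ℕ} (h : LH A (S k)) : Cv (pure k) A S (S k) := fun t ht => by
  obtain ⟨G, r, r0, a, b⟩ := h t ht
  exact ⟨r, fun _ => G, G, r0, a, b, eventually_pure.2 ⟨a, b⟩,
    Metric.tendstoUniformlyOn_iff.2 fun ε ε0 => .of_forall fun _ _ _ => by simpa using ε0⟩

lemma uf_cases (u : Ultrafilter ℕ) : (u : Filter ℕ) ≤ atTop ∨ ∃ k, u = pure k :=
  Nat.cofinite_eq_atTop ▸ u.le_cofinite_or_eq_pure

/-- The slit part of a disc is connected. -/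
lemma sdiff_conn {D : Fib n} (hL : LatStmt) (c : ℂ) (r : ℝ) : IsPreconnected (ball c r \ D.B) := by
  rcases le_or_gt r 0 with h | h
  · rw [ball_eq_empty.2 h, empty_sdiff]
    exact isPreconnected_empty
  have e : ball c r \ D.B = (OpenPartialHomeomorph.univBall c r) ''
      ((OpenPartialHomeomorph.univBall c r) ⁻¹' D.B)ᶜ := by
    ext t
    constructor
    · rintro ⟨h1, h2⟩
      have m : t ∈ (OpenPartialHomeomorph.univBall c r).target := by
        rwa [OpenPartialHomeomorph.univBall_target c h]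
      exact ⟨_, fun q => h2 ((OpenPartialHomeomorph.univBall c r).right_inv m ▸ q),
        (OpenPartialHomeomorph.univBall c r).right_inv m⟩
    · rintro ⟨x, hx, rfl⟩
      refine ⟨?_, hx⟩
      rw [← OpenPartialHomeomorph.univBall_target c h]
      exact (OpenPartialHomeomorph.univBall c r).map_source (by simp)
  rw [e]
  refine (((b_count hL D).preimage_of_injOn fun x _ y _ q =>
    (OpenPartialHomeomorph.univBall c r).injOn (by simp) (by simp) q
      ).isConnected_compl_of_one_lt_rank (by simp)).isPreconnected.image _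
    (OpenPartialHomeomorph.continuous_univBall c r).continuousOn

end Pool.Agent.MP_c69980_ag.E2
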