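import Pool.Agent.MP_c69980_ag.E2.BaseB

/-!
Open surfaces fibred over an elliptic curve: admissible sections stay away from the boundary, and
there are finitely many of them.
-/

set_option autoImplicit false

noncomputable section

namespace Pool.Agent.MP_c69980_ag.E2

open MvPolynomial Metric Filter Topology Set
open H60 H4 E1

namespace BdX

variable {n : ℕ} {D : Fib n}

/-- In an expansive situation a convergent sequence is eventually constant. -/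
lemma key (h3 : LMStmt) {P P' : (ℂ → V n) → Prop} (i : Inv D P) (i' : Inv D P') (c : Cp D P)
    (c' : Cp D P') {δ : ℝ} (δ0 : 0 < δ)
    (hE : ∀ G G', P G → P' G' → Hc D G G' δ → ∀ t, Pp (G t) (G' t)) {u : Ultrafilter ℕ}
    {g : ℕ → ℂ → V n} {G₀ : ℂ → V n} (hg : ∀ k, P (g k)) (h0 : P' G₀) (hc : Cv u D.Bᶜ g G₀) :
    ∀ᶠ k in u, ∀ t, Pp (g k t) (G₀ t) := by
  have q : ¬∀ᶠ k in u, ∃ t, Far D δ t ∧ δ ≤ d2 (g k t) (G₀ t) := fun q => by
    obtain ⟨G, G', a, b, e, t, ht⟩ := h3 n D P P' δ u g (fun _ => G₀) G₀ i i' c c' δ0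
      (fun k => ⟨hg k, h0⟩) hc (cv_const hc.lh) q
    exact ht (hE G G' a b e t)
  filter_upwards [Ultrafilter.eventually_not.2 q] with k hk
  exact hE _ _ (hg k) h0 ⟨1, 0, norm_one, fun t _ ht => le_of_not_ge fun e => hk ⟨t, ht, e⟩⟩

lemma inv_inC (D : Fib n) (B : PR n) : Inv D (InC D B) :=
  ⟨fun _ h => h.1, fun _ h _ hl => ⟨h.1.shift D.cov hl fun _ _ => mem_univ _, fun _ => h.2 _⟩⟩

lemma not_inB {g : ℂ → V n} (h : ¬InB D g) (l : ℂ) : ¬InB D fun t => g (t + l) := fun q =>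
  h fun t => by simpa using q (t - l)

lemma hc_symm {g g' : ℂ → V n} {δ : ℝ} (h : Hc D g g' δ) : Hc D g' g δ := by
  obtain ⟨e, y, a, b⟩ := h
  exact ⟨e, y, a, fun t p q => (d2_symm _ _).trans_le (b t p q)⟩

end BdX

open BdX

theorem bd (h1 : AdmStmt) (h2 : ExpBStmt) (h3 : LMStmt) (h4 : SepStmt) (h5 : SecFinStmt)
    (h6 : LatStmt) : BdStmt := by
  intro n D r r0
  obtain ⟨a1, a2, -, a4⟩ := h1 n D
  obtain ⟨R, -, hR⟩ := (h6 D.L).1
  by_contra hn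
  have e : ∀ k : ℕ, ∃ (g : ℂ → V n) (t : ℂ) (y : V n), Adm D g ∧ ¬InB D g ∧ ‖t‖ ≤ R ∧ Far D r t ∧
      (t, y) ∈ D.X ∧ y ∉ Cone D.U ∧ d2 (g t) y < 1 / ((k : ℝ) + 1) := fun k => by
    by_contra q
    refine hn ⟨1 / ((k : ℝ) + 1), by positivity, fun g b1 b2 t b3 y b4 b5 =>
      le_of_not_gt fun b6 => q ?_⟩
    obtain ⟨l, l1, l2⟩ := hR t
    exact ⟨fun w => g (w + l), t - l, y, a1.2 g b1 l l1, not_inB b2 l, l2,
      (far_shift h6 l1).1 (by simpa using b3), (D.per l1).1 (by simpa using b4), b5,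
      by simpa using b6⟩
  choose g t y b1 b2 b3 b4 b5 b6 b7 using e
  obtain ⟨t₀, -, ht⟩ := ulim uf (isCompact_closedBall (0 : ℂ) R) (f := t)
    (.of_forall fun k => mem_closedBall_zero_iff.2 (b3 k))
  have f0 : Far D r t₀ := (far_closed D r).mem_of_tendsto ht (.of_forall b4)
  have n0 : t₀ ∈ D.Bᶜ := f0.notMem r0
  obtain ⟨G₀, c1, c2⟩ := a2 uf g b1
  have G0 : G₀ t₀ ≠ 0 := c2.lh.ne n0
  have y0 : ∀ k, y k ≠ 0 := fun k => D.cn.nz _ (b5 k)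
  have g0 : ∀ k w, g k w ≠ 0 := fun k w => (b1 k).1.1.ne (mem_univ w)
  have m : G₀ t₀ ∉ Cone D.U := by
    obtain ⟨z, z1, z2⟩ := c2.pt n0 ht
    have k1 : Tendsto (fun k => d2 (g k (t k)) (G₀ t₀)) uf (𝓝 0) := by
      have := d2_lim z1 tendsto_const_nhds G0 G0
      rw [d2_self G0] at this
      exact this.congr' (z2.mono fun k q => (q.d2 (.refl _)).symm)
    have k2 : Tendsto (fun k : ℕ => 2 * (1 / ((k : ℝ) + 1)) + 2 * d2 (g k (t k)) (G₀ t₀)) uf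
        (𝓝 0) := by
      simpa using ((tendsto_one_div_add_atTop_nhds_zero_nat.mono_left uf_le).const_mul 2).add
        (k1.const_mul 2)
    have k3 : Tendsto (fun k => d2 (y k) (G₀ t₀)) uf (𝓝 0) := by
      refine squeeze_zero (fun k => H84.d2_nonneg (y0 k) G0) (fun k => ?_) k2
      have := H84.d2_tri (y0 k) (g0 k (t k)) G0
      rw [d2_symm (y k) (g k (t k))] at this
      linarith [b7 k]
    obtain ⟨x, x1, x2⟩ := lim_of_d2 G0 (.of_forall y0) k3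
    exact D.bd_lim (x := fun k => (t k, x k)) x1 (x2.mono fun k q =>
      ⟨D.cn.pp (b5 k) q.symm, fun p => b6 k ((cone_iff q).2 p)⟩)
  have m1 : InB D G₀ := (a4 G₀ c1).resolve_right fun q => m (q t₀ n0)
  obtain ⟨δ₀, B, δ0, hB, hB', hE⟩ := h2 n D
  obtain ⟨-, δ₁, δ1, hS⟩ := h4 n D _ (inv_inC D B) (h5 n D B hB)
  have sub : ∀ γ, Sc D.X univ γ ∧ InB D γ → InC D B γ := fun γ q =>
    ⟨q.1, fun w => hB' (w, γ w) (q.1.2 w (mem_univ w)) (q.2 w)⟩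
  have i' : Inv D fun γ => Sc D.X univ γ ∧ InB D γ :=
    ⟨fun _ h => h.1, fun _ h _ hl => ⟨h.1.shift D.cov hl fun _ _ => mem_univ _, fun _ => h.2 _⟩⟩
  obtain ⟨k, hk⟩ := (key h3 a1 i' a2 (h4 n D _ i' ((h5 n D B hB).mono sub)).1 (lt_min δ0 δ1)
    (fun G G' p p' q => hS _ (min_le_right _ _) G G'
      ⟨p.1, hE _ (min_le_left _ _) G G' p p'.1 p'.2 q⟩ (sub _ p') q) b1 ⟨c1.1, m1⟩ c2).exists
  exact b2 k fun w q => m1 w ((cone_iff (hk w)).1 q)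

theorem fin (h1 : AdmStmt) (h2 : BdStmt) (h3 : Exp0Stmt) (h4 : LMStmt) (h5 : SepStmt)
    (h6 : SecFinStmt) (h7 : LatStmt) : FinStmt := by
  intro n D
  obtain ⟨a1, a2, -, -⟩ := h1 n D
  have i : Inv D fun g => Adm D g ∧ ¬InB D g :=
    ⟨fun _ h => h.1.1, fun g h l hl => ⟨a1.2 g h.1 l hl, not_inB h.2 l⟩⟩
  have c : Cp D fun g => Adm D g ∧ ¬InB D g := fun u g hg => by
    obtain ⟨G, c1, c2⟩ := a2 u g fun k => (hg k).1
    refine ⟨G, ⟨c1, fun q => ?_⟩, c2⟩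
    obtain ⟨t, ht⟩ := (b_ev h7 D 0).exists
    obtain ⟨r, r0, hr⟩ := far_of_notMem h7 ht
    obtain ⟨η, η0, hη⟩ := h2 n D r r0
    have k1 := c2.d2 (cv_const c2.lh) ht tendsto_const_nhds
    rw [d2_self (c2.lh.ne ht)] at k1
    exact η0.not_ge (ge_of_tendsto' k1 fun k =>
      hη _ (hg k).1 (hg k).2 t hr _ (c1.1.2 t (mem_univ t)) (q t))
  obtain ⟨δ₀, B, δ0, hB, hE⟩ := h3 n D
  obtain ⟨-, δ₁, δ1, hS⟩ := h5 n D _ (inv_inC D B) (h6 n D B hB)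
  have ex : ∀ G G', Adm D G ∧ ¬InB D G → Adm D G' ∧ ¬InB D G' → Hc D G G' (min δ₀ δ₁) →
      ∀ t, Pp (G t) (G' t) := fun G G' p p' q => by
    rcases hE _ (min_le_left _ _) G G' p.1 p'.1 p.2 p'.2 q with a | a
    · exact a
    rcases hE _ (min_le_left _ _) G' G p'.1 p.1 p'.2 p.2 (hc_symm q) with b | b
    · exact fun t => (b t).symm
    exact hS _ (min_le_right _ _) G G' ⟨p.1.1, a⟩ ⟨p'.1.1, b⟩ q
  by_contra hn
  obtain ⟨s, hs, hne⟩ := exists_seq_of_forall_finset_exists (fun g => Adm D g ∧ ¬InB D g)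
    (fun x y => ¬∀ t, Pp (y t) (x t)) fun T hT => by
      by_contra q
      exact hn ⟨T, T.finite_toSet, hT, fun g hg => by_contra fun p =>
        q ⟨g, hg, fun x hx e => p ⟨x, hx, e⟩⟩⟩
  obtain ⟨G₀, c1, c2⟩ := c uf s hs
  have k1 := key h4 i i c c (lt_min δ0 δ1) ex hs c1 c2
  obtain ⟨k, hk⟩ := k1.exists
  obtain ⟨k', hk', e⟩ := (k1.and (uf_le (eventually_gt_atTop k))).exists
  exact hne k k' e fun t => (hk' t).trans (hk t).symm

end Pool.Agent.MP_c69980_ag.E2
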