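import Pool.Agent.MP_c69980_ag.E2.SpecB

/-!
The cover of a surface fibred over an elliptic curve, and the functions that come from the base.
-/

set_option autoImplicit false

noncomputable section

namespace Pool.Agent.MP_c69980_ag.E2

open MvPolynomial Metric Filter Topology Set
open H60 H4 E1

namespace Cov

variable {n m : ℕ}

lemma pp_symm {y w : V m} (h : Pp y w) : Pp w y := by
  obtain ⟨c, c0, rfl⟩ := h
  exact ⟨c⁻¹, inv_ne_zero c0, by rw [smul_smul, inv_mul_cancel₀ c0, one_smul]⟩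

lemma pp_trans {x y w : V m} (h : Pp x y) (h' : Pp y w) : Pp x w := by
  obtain ⟨c, c0, rfl⟩ := h
  obtain ⟨c', c0', rfl⟩ := h'
  exact ⟨c * c', mul_ne_zero c0 c0', smul_smul _ _ _⟩

lemma pp_minor {y w : V m} (h : Pp y w) (i j : Fin m) : y i * w j - y j * w i = 0 := by
  obtain ⟨c, -, rfl⟩ := h
  simp only [Pi.smul_apply, smul_eq_mul]
  ring

lemma pp_ne {y w : V m} (h : Pp y w) (hw : w ≠ 0) : y ≠ 0 := by
  obtain ⟨c, c0, rfl⟩ := h
  exact smul_ne_zero c0 hw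

lemma pp_of_minor {y w : V m} (hy : y ≠ 0) (hw : w ≠ 0)
    (h : ∀ i j, y i * w j - y j * w i = 0) : Pp y w := by
  obtain ⟨j, hj⟩ := Function.ne_iff.1 hw
  have hj' : w j ≠ 0 := hj
  have e : y = (y j / w j) • w := by
    funext i
    rw [Pi.smul_apply, smul_eq_mul, div_mul_eq_mul_div, eq_div_iff hj']
    exact sub_eq_zero.1 (h i j)
  refine ⟨y j / w j, fun h0 => hy ?_, e⟩
  rw [e, h0, zero_smul]

lemma pp_rep {y : V m} (h : y ≠ 0) : Pp (Projectivization.mk ℂ y h).rep y := rep_mk h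

lemma th_ne (L : PeriodPair) (t : ℂ) : th L t ≠ 0 := by
  intro h
  by_cases ht : t ∈ L.lattice
  · have := congrFun h 1
    simp [E1.th, ht] at this
  · have := congrFun h 2
    simp [E1.th, ht] at this

lemma th_add (L : PeriodPair) (t : ℂ) {l : ℂ} (hl : l ∈ L.lattice) : th L (t + l) = th L t := by
  by_cases ht : t ∈ L.lattice
  · simp only [E1.th, if_pos ht, if_pos (L.lattice.add_mem ht hl)]
  · have h2 : t + l ∉ L.lattice := fun h => ht (by simpa using L.lattice.sub_mem h hl)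
    simp only [E1.th, if_neg ht, if_neg h2]
    rw [show L.weierstrassP (t + l) = L.weierstrassP t from L.weierstrassP_add_coe t ⟨l, hl⟩,
      show L.derivWeierstrassP (t + l) = L.derivWeierstrassP t from
        L.derivWeierstrassP_add_coe t ⟨l, hl⟩]

/-- The values of a family of forms. -/
def Fv (F : Fin m → PR n) (y : V n) : V m := fun j => eval y (F j)

lemma Fv_an (F : Fin m → PR n) (y : V n) : AnalyticAt ℂ (Fv F) y :=
  analyticAt_pi_iff.2 fun j => AnalyticAt.aeval_mvPolynomial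
    (fun i => (ContinuousLinearMap.proj (R := ℂ) (φ := fun _ : Fin n => ℂ) i).analyticAt y) (F j)

variable {K : Type} [Field K] [Algebra ℂ K]

lemma cone_of {d : Dat K n} {x : Pt n} (h : x ∈ d.X) : x.2 ∈ Cone d.W := by
  obtain ⟨h0, hw, -⟩ := h
  exact ⟨h0, hw⟩

lemma ex_t {d : Dat K n} {y : V n} (h : y ∈ Cone d.W) : ∃ t, (t, y) ∈ d.X := by
  obtain ⟨h0, hw⟩ := h
  obtain ⟨t, ht, e⟩ := d.ell ⟨_, hw⟩
  exact ⟨t, h0, hw, by rw [e]; exact pp_rep ht⟩

/-- The forms `F` give the morphism where `g` does not vanish. -/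
structure Mo (d : Dat K n) (g : PR n) (F : Fin 3 → PR n) (e f : ℕ) : Prop where
  hg : g.IsHomogeneous e
  hF : ∀ j, (F j).IsHomogeneous f
  iff : ∀ y ∈ Cone d.W, eval y g ≠ 0 → ∀ t, (t, y) ∈ d.X ↔ Pp (Fv F y) (th d.L t)

lemma chart {d : Dat K n} {y : V n} (h : y ∈ Cone d.W) :
    ∃ g F e f, Mo d g F e f ∧ eval y g ≠ 0 := by
  obtain ⟨f, e, g, F, hg, hF, h1, h2⟩ := d.mor ⟨_, h.2⟩
  refine ⟨g, F, e, f, ⟨hg, hF, fun w hw g0 t => ?_⟩, (eval_mk hg h.1).not.1 h1⟩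
  obtain ⟨h3, h4⟩ := h2 ⟨_, hw.2⟩ ((eval_mk hg hw.1).not.2 g0)
  have h5 : Pp (d.u ⟨_, hw.2⟩).rep (Fv F w) := by
    rw [h4]
    refine pp_trans (pp_rep h3) ?_
    obtain ⟨c, c0, hc⟩ := rep_mk hw.1
    refine ⟨c ^ f, pow_ne_zero _ c0, funext fun j => ?_⟩
    show eval (Projectivization.mk ℂ w _).rep (F j) = c ^ f * eval w (F j)
    rw [hc, eval_smul_hom (hF j)]
  exact ⟨fun ⟨_, _, h6⟩ => pp_trans (pp_symm h5) h6, fun h6 => ⟨hw.1, hw.2, pp_trans h5 h6⟩⟩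

lemma closed (h2 : EllStmt) (d : Dat K n) (x : Pt n) (hx : x ∈ closure d.X) (x0 : x.2 ≠ 0) :
    x ∈ d.X := by
  have fr := mem_closure_iff_frequently.1 hx
  have key : ∀ φ : Pt n → ℂ, ContinuousAt φ x → (∀ᶠ x' in 𝓝 x, x' ∈ d.X → φ x' = 0) → φ x = 0 :=
    fun φ c1 c2 => by
      by_contra h0
      obtain ⟨x', a1, a2, a3⟩ := (fr.and_eventually ((c1.eventually_ne h0).and c2)).exists
      exact a2 (a3 a1)
  have ce : ∀ P : PR n, ContinuousAt (fun x' : Pt n => eval x'.2 P) x := fun P =>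
    ((MvPolynomial.continuous_eval P).comp continuous_snd).continuousAt
  have hc : x.2 ∈ Cone d.W := by
    obtain ⟨S, hS, hW⟩ := d.cl
    refine ⟨x0, ?_⟩
    rw [hW]
    intro P hP
    obtain ⟨e, he⟩ := hS P hP
    refine (eval_mk he x0).2 (key _ (ce P) (.of_forall fun x' hx' => ?_))
    obtain ⟨h0, hw⟩ := cone_of hx'
    rw [hW] at hw
    exact (eval_mk he h0).1 (hw P hP)
  obtain ⟨g, F, e, f, mo, g0⟩ := chart hc
  obtain ⟨G, r, r0, hG, hP⟩ := (h2 d.L).1 x.1 trivial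
  have m0 : x.1 ∈ ball x.1 r := mem_ball_self r0
  have cG : ∀ j, ContinuousAt (fun x' : Pt n => G x'.1 j) x := fun j =>
    (continuous_apply j).continuousAt.comp
      ((hG.1.differentiableAt (isOpen_ball.mem_nhds m0)).continuousAt.comp continuousAt_fst)
  obtain ⟨t, ht⟩ := ex_t hc
  refine (mo.iff _ hc g0 x.1).2 (pp_trans (pp_of_minor
    (pp_ne ((mo.iff _ hc g0 t).1 ht) (th_ne _ _)) (hG.2 _ m0) fun i j => ?_) (pp_symm (hP _ m0)))
  refine key (fun x' => eval x'.2 (F i) * G x'.1 j - eval x'.2 (F j) * G x'.1 i)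
    (((ce _).mul (cG j)).sub ((ce _).mul (cG i))) ?_
  filter_upwards [(ce g).eventually_ne g0,
    continuousAt_fst.eventually (isOpen_ball.mem_nhds m0)] with x' a1 a2 a3
  exact pp_minor (pp_trans ((mo.iff _ (cone_of a3) a1 x'.1).1 a3) (hP _ a2)) i j

lemma van (d : Dat K n) {H : PR n} {e : ℕ} (hH : H.IsHomogeneous e)
    (h : ∀ y ∈ Cone d.W, eval y H = 0) : aeval d.z H = 0 :=
  (d.gen.1 H e hH).2 fun P hP => h _ ⟨P.rep_nonzero, by rwa [Projectivization.mk_rep]⟩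

lemma ne_of {d : Dat K n} {H : PR n} {e : ℕ} (hH : H.IsHomogeneous e) {y : V n}
    (hy : y ∈ Cone d.W) (h : eval y H ≠ 0) : aeval d.z H ≠ 0 :=
  fun q => h (Cone.on d.gen hy H e hH q)

lemma val {d : Dat K n} {g : PR n} {F : Fin 3 → PR n} {e f : ℕ} (mo : Mo d g F e f) {y₀ : V n}
    (hy : y₀ ∈ Cone d.W) (g0 : eval y₀ g ≠ 0) {x : Pt n} (hx : x ∈ d.X) (a j : Fin 3)
    (hj : th d.L x.1 j ≠ 0) : aeval d.z (F j) ≠ 0 ∧
      Reg d.z x.2 (aeval d.z (F a) / aeval d.z (F j)) ∧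
      vl d.z (aeval d.z (F a) / aeval d.z (F j)) x.2 = th d.L x.1 a / th d.L x.1 j := by
  have hc := cone_of hx
  obtain ⟨g', F', e', f', mo', g0'⟩ := chart hc
  have mn : ∀ b c, aeval d.z (F' b) * aeval d.z (F c) = aeval d.z (F' c) * aeval d.z (F b) := by
    intro b c
    have h1 := van d ((mo.hg.mul mo'.hg).mul
      (((mo'.hF b).mul (mo.hF c)).sub ((mo'.hF c).mul (mo.hF b)))) fun y hy' => by
        rw [map_mul, map_mul, map_sub, map_mul, map_mul]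
        by_cases a1 : eval y g = 0
        · rw [a1, zero_mul, zero_mul]
        by_cases a2 : eval y g' = 0
        · rw [a2, mul_zero, zero_mul]
        obtain ⟨t, ht⟩ := ex_t hy'
        exact mul_eq_zero_of_right _ (pp_minor (pp_trans ((mo'.iff y hy' a2 t).1 ht)
          (pp_symm ((mo.iff y hy' a1 t).1 ht))) b c)
    rw [map_mul, map_mul, map_sub, map_mul, map_mul] at h1
    exact sub_eq_zero.1 ((mul_eq_zero.1 h1).resolve_left
      (mul_ne_zero (ne_of mo.hg hy g0) (ne_of mo'.hg hc g0')))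
  obtain ⟨c, c0, h3⟩ := (mo'.iff _ hc g0' x.1).1 hx
  have h4 : ∀ b, eval x.2 (F' b) = c * th d.L x.1 b := fun b => congrFun h3 b
  have h5 : eval x.2 (F' j) ≠ 0 := by rw [h4]; exact mul_ne_zero c0 hj
  have h6 := ne_of (mo'.hF j) hc h5
  obtain ⟨t, ht⟩ := ex_t hy
  obtain ⟨b, hb⟩ := Function.ne_iff.1 (pp_ne ((mo.iff _ hy g0 t).1 ht) (th_ne _ _))
  have h7 : aeval d.z (F j) ≠ 0 := fun q => by
    have := mn j b
    rw [q, mul_zero] at this
    exact mul_ne_zero h6 (ne_of (mo.hF b) hy hb) this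
  have h8 : aeval d.z (F a) / aeval d.z (F j) = aeval d.z (F' a) / aeval d.z (F' j) := by
    rw [div_eq_div_iff h7 h6, mn a j, mul_comm]
  refine ⟨h7, ⟨F' a, F' j, f', mo'.hF a, mo'.hF j, h5, h8⟩, ?_⟩
  rw [h8, vl_eq (Cone.on d.gen hc) (mo'.hF a) (mo'.hF j) h5, h4, h4, mul_div_mul_left _ _ c0]

lemma nconst (d : Dat K n) (w : V 3) (h : ∀ x ∈ d.X, th d.L x.1 = w) : False := by
  obtain ⟨P, Q, hne⟩ := d.nc
  have key : ∀ P : d.W, Pp (d.u P).rep w := fun P => by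
    obtain ⟨t, ht⟩ := ex_t (d := d) (y := P.1.rep)
      ⟨P.1.rep_nonzero, by rw [Projectivization.mk_rep]; exact P.2⟩
    obtain ⟨h0, hw, h1⟩ := id ht
    rw [h _ ht] at h1
    have e : (⟨_, hw⟩ : d.W) = P := Subtype.ext (Projectivization.mk_rep _)
    rwa [e] at h1
  obtain ⟨c, -, hc⟩ := pp_trans (key P) (pp_symm (key Q))
  refine hne ?_
  rw [← Projectivization.mk_rep (d.u P), ← Projectivization.mk_rep (d.u Q),
    Projectivization.mk_eq_mk_iff']
  exact ⟨c, hc.symm⟩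

lemma th_in {L : PeriodPair} {t : ℂ} (h : t ∈ L.lattice) : th L t = ![0, 1, 0] := if_pos h

lemma th_out {L : PeriodPair} {t : ℂ} (h : t ∉ L.lattice) :
    th L t = ![L.weierstrassP t, L.derivWeierstrassP t, 1] := if_neg h

lemma gp {d : Dat K n} {g : PR n} {F : Fin 3 → PR n} {e f : ℕ} (mo : Mo d g F e f) {y₀ : V n}
    (hy : y₀ ∈ Cone d.W) (g0 : eval y₀ g ≠ 0) : ∃ G A, GP d G A := by
  have v := fun {x : Pt n} (hx : x ∈ d.X) => val mo hy g0 hx
  have v2 : ∀ x ∈ d.X, x.1 ∉ d.L.lattice → ∀ a, aeval d.z (F 2) ≠ 0 ∧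
      Reg d.z x.2 (aeval d.z (F a) / aeval d.z (F 2)) ∧
      vl d.z (aeval d.z (F a) / aeval d.z (F 2)) x.2 = th d.L x.1 a := fun x hx hl a => by
    have h1 : th d.L x.1 2 = 1 := by rw [th_out hl]; rfl
    have := v hx a 2 (by rw [h1]; exact one_ne_zero)
    rwa [h1, div_one] at this
  have v1 : ∀ x ∈ d.X, x.1 ∈ d.L.lattice → aeval d.z (F 1) ≠ 0 ∧
      Reg d.z x.2 (aeval d.z (F 2) / aeval d.z (F 1)) ∧
      vl d.z (aeval d.z (F 2) / aeval d.z (F 1)) x.2 = 0 := fun x hx hl => by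
    have h1 : th d.L x.1 1 = 1 := by rw [th_in hl]; rfl
    have h2 : th d.L x.1 2 = 0 := by rw [th_in hl]; rfl
    have := v hx 2 1 (by rw [h1]; exact one_ne_zero)
    rwa [h2, zero_div] at this
  have u2 : aeval d.z (F 2) ≠ 0 := by
    by_contra h0
    refine nconst d ![0, 1, 0] fun x hx => th_in ?_
    by_contra hl
    exact (v2 x hx hl 0).1 h0
  have hG : ∀ s : ℂ, aeval d.z (F 0) / aeval d.z (F 2) ≠ algebraMap ℂ K s := by
    intro s hs
    have p0 : ∀ x ∈ d.X, x.1 ∉ d.L.lattice → d.L.weierstrassP x.1 = s := fun x hx hl => by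
      have := (v2 x hx hl 0).2.2
      rw [hs, (vl_const (Cone.on d.gen (cone_of hx)) s).2, th_out hl] at this
      exact this.symm
    obtain ⟨r, hr⟩ := IsAlgClosed.exists_pow_nat_eq (4 * s ^ 3 - d.L.g₂ * s - d.L.g₃) two_pos
    have h1 := van d ((mo.hg.mul (mo.hF 2)).mul (((mo.hF 1).mul (mo.hF 1)).sub
      (((mo.hF 2).mul (mo.hF 2)).C_mul (r ^ 2)))) fun y hy' => by
        rw [map_mul, map_mul, map_sub, map_mul, map_mul, map_mul, eval_C]
        by_cases a1 : eval y g = 0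
        · rw [a1, zero_mul, zero_mul]
        obtain ⟨t, ht⟩ := ex_t hy'
        obtain ⟨c, -, h3⟩ := (mo.iff y hy' a1 t).1 ht
        have h4 : ∀ b, eval y (F b) = c * th d.L t b := fun b => congrFun h3 b
        by_cases hl : t ∈ d.L.lattice
        · have h5 : th d.L t 2 = 0 := by rw [th_in hl]; rfl
          rw [h4 2, h5, mul_zero, mul_zero, zero_mul]
        · have h5 : th d.L t 2 = 1 := by rw [th_out hl]; rfl
          have h6 : th d.L t 1 = d.L.derivWeierstrassP t := by rw [th_out hl]; rfl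
          have h7 := d.L.derivWeierstrassP_sq t hl
          rw [show d.L.weierstrassP t = s from p0 (t, y) ht hl, ← hr] at h7
          rw [h4 1, h4 2, h5, h6, ← h7]
          ring
    rw [map_mul, map_mul, map_sub, map_mul, map_mul, map_mul, aeval_C, map_pow] at h1
    have h2 := (mul_eq_zero.1 h1).resolve_left (mul_ne_zero (ne_of mo.hg hy g0) u2)
    have h3 : (aeval d.z (F 1) / aeval d.z (F 2)) ^ 2 = algebraMap ℂ K r ^ 2 := by
      rw [div_pow, div_eq_iff (pow_ne_zero _ u2)]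
      linear_combination h2
    obtain ⟨r', h4⟩ : ∃ r' : ℂ, aeval d.z (F 1) / aeval d.z (F 2) = algebraMap ℂ K r' := by
      rcases sq_eq_sq_iff_eq_or_eq_neg.1 h3 with h | h
      · exact ⟨r, h⟩
      · exact ⟨-r, by rw [h, map_neg]⟩
    refine nconst d ![s, r', 1] fun x hx => ?_
    have on := Cone.on d.gen (cone_of hx)
    by_cases hl : x.1 ∈ d.L.lattice
    · exfalso
      obtain ⟨b1, b2, b3⟩ := v1 x hx hl
      have b4 := (vl_mul on b2 (vl_const on r').1).2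
      rw [b3, zero_mul, ← h4, div_mul_div_cancel₀ b1, div_self u2, ← map_one (algebraMap ℂ K),
        (vl_const on 1).2] at b4
      exact one_ne_zero b4
    · have b1 := (v2 x hx hl 1).2.2
      rw [h4, (vl_const on r').2, th_out hl] at b1
      rw [th_out hl, p0 x hx hl, show d.L.derivWeierstrassP x.1 = r' from b1.symm]
  have hv : ∀ x ∈ d.X, x.1 ∉ d.L.lattice → Reg d.z x.2 (aeval d.z (F 0) / aeval d.z (F 2)) ∧
      vl d.z (aeval d.z (F 0) / aeval d.z (F 2)) x.2 = d.L.weierstrassP x.1 := fun x hx hl =>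
    ⟨(v2 x hx hl 0).2.1, (v2 x hx hl 0).2.2.trans (by rw [th_out hl]; rfl)⟩
  by_cases hl : ∃ x ∈ d.X, x.1 ∈ d.L.lattice
  · obtain ⟨x₀, hx₀, hl⟩ := hl
    exact ⟨_, _, hG, div_ne_zero u2 (v1 x₀ hx₀ hl).1, fun x hx => ⟨hv x hx, fun h => (v1 x hx h).2⟩⟩
  · exact ⟨_, 1, hG, one_ne_zero, fun x hx => ⟨hv x hx, fun h => (hl ⟨x, hx, h⟩).elim⟩⟩

end Cov

open Cov

theorem cov (_h1 : LatStmt) (h2 : EllStmt) : CovStmt := by
  intro K _ _ n d
  refine ⟨⟨fun x hx => (cone_of hx).1, fun x hx c c0 => ?_, closed h2 d⟩,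
    fun y => ⟨ex_t, fun ⟨_, h⟩ => cone_of h⟩, fun x hx l hl => ?_, fun t t' y h h' => ?_,
    fun x hx => ?_⟩
  · obtain ⟨h0, hw, h1⟩ := hx
    have e : Projectivization.mk ℂ (c • x.2) (smul_ne_zero c0 h0) = Projectivization.mk ℂ x.2 h0 :=
      (Projectivization.mk_eq_mk_iff' ℂ _ _ _ _).2 ⟨c, rfl⟩
    refine ⟨smul_ne_zero c0 h0, e ▸ hw, ?_⟩
    have e' : (⟨_, e ▸ hw⟩ : d.W) = ⟨_, hw⟩ := Subtype.ext e
    exact e' ▸ h1
  · obtain ⟨h0, hw, h1⟩ := hx
    exact ⟨h0, hw, by rwa [th_add _ _ hl]⟩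
  · obtain ⟨_, _, h1⟩ := h
    obtain ⟨_, _, h1'⟩ := h'
    exact (h2 d.L).2.1 t t' (pp_trans (pp_symm h1) h1')
  · have hc := cone_of hx
    obtain ⟨g, F, e, f, mo, g0⟩ := chart hc
    obtain ⟨τ, a1, a2, a3, a4⟩ := (h2 d.L).2.2.2 x.1 (Fv F x.2) ((mo.iff _ hc g0 x.1).1 hx)
    have cF := (Fv_an F x.2).continuousAt
    have cg := (MvPolynomial.continuous_eval g).continuousAt.eventually_ne g0
    refine ⟨fun y => τ (Fv F y), a1.comp (Fv_an F x.2), a2, ?_, ?_⟩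
    · filter_upwards [cF.eventually a3, cg] with y b1 b2 b3
      obtain ⟨t, ht⟩ := ex_t b3
      exact (mo.iff y b3 b2 _).2 (b1 ⟨t, (mo.iff y b3 b2 t).1 ht⟩)
    · have c2 : ContinuousAt (fun x' : Pt n => ((x'.1, Fv F x'.2) : Pt 3)) x :=
        continuousAt_fst.prodMk (cF.comp continuousAt_snd)
      filter_upwards [c2.eventually a4, continuousAt_snd.eventually cg] with x' b1 b2 b3
      exact b1 ((mo.iff _ (cone_of b3) b2 x'.1).1 b3)

theorem gS (h2 : EllStmt) (_h3 : CovStmt) : GStmt := by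
  intro K _ _ n d
  obtain ⟨P, -⟩ := d.nc
  have hy : P.1.rep ∈ Cone d.W := ⟨P.1.rep_nonzero, by rw [Projectivization.mk_rep]; exact P.2⟩
  obtain ⟨g, F, e, f, mo, g0⟩ := chart hy
  refine ⟨gp mo hy g0, fun t₀ => ?_⟩
  obtain ⟨a, j, ψ, a1, a2, a3⟩ := (h2 d.L).2.2.1 t₀
  refine ⟨aeval d.z (F a) / aeval d.z (F j) + algebraMap ℂ K (-ψ t₀), fun t => ψ t + -ψ t₀,
    a1.add analyticAt_const, add_neg_cancel _, by rwa [deriv_add_const], fun y hx => ?_⟩
  have key : ∀ x ∈ d.X, th d.L x.1 j ≠ 0 →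
      Reg d.z x.2 (aeval d.z (F a) / aeval d.z (F j) + algebraMap ℂ K (-ψ t₀)) ∧
      vl d.z (aeval d.z (F a) / aeval d.z (F j) + algebraMap ℂ K (-ψ t₀)) x.2 =
        th d.L x.1 a / th d.L x.1 j + -ψ t₀ := fun x hx hj => by
    have on := Cone.on d.gen (cone_of hx)
    obtain ⟨-, b1, b2⟩ := val mo hy g0 hx a j hj
    obtain ⟨b3, b4⟩ := vl_const on (-ψ t₀)
    obtain ⟨b5, b6⟩ := vl_add on b1 b3
    exact ⟨b5, by rw [b6, b2, b4]⟩
  refine ⟨(key _ hx a3.self_of_nhds.1).1, ?_⟩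
  have c1 : ContinuousAt (fun x : Pt n => x.1) (t₀, y) := continuousAt_fst
  filter_upwards [c1.eventually a3] with x b1 b2
  rw [(key x b2 b1.1).2, b1.2]

end Pool.Agent.MP_c69980_ag.E2
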