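import Pool.Agent.MP_c69980_ag.E2.Base
import Pool.Agent.MP_c69980_ag.E1.Exp
import Pool.Agent.MP_c69980_ag.E1.Fin

/-!
Sections in a curve, and curves through finite invariant classes of sections.
-/

set_option autoImplicit false

noncomputable section

namespace Pool.Agent.MP_c69980_ag.E2

open MvPolynomial Metric Filter Topology Set
open H60 H4 E1

namespace CurX

open ExpX

variable {n : ℕ}

lemma drop (D : Fib n) {B : PR n} (hB : NZ D.X B) : ∃ A : Polynomial (Polynomial ℂ), A ≠ 0 ∧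
    ∀ a j t y, (t, y) ∈ D.X → t ∉ D.L.lattice → y j ≠ 0 → eval y B = 0 →
      A.evalEval (D.L.weierstrassP t) (y a / y j) = 0 := by
  choose P P0 hP using fun q : Fin n × Fin n => D.drop B q.1 q.2 hB
  refine ⟨∏ q, P q, Finset.prod_ne_zero_iff.2 fun q _ => P0 q, fun a j t y h1 h2 h3 h4 => ?_⟩
  rw [Polynomial.evalEval_prod]
  exact Finset.prod_eq_zero (Finset.mem_univ (a, j)) (hP (a, j) (t, y) h1 h2 h3 h4)

lemma bound (hL : LatStmt) (D : Fib n) {B : PR n} (hB : NZ D.X B) : ∃ K : ℕ,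
    ∀ F : Finset (ℂ → V n), (∀ s ∈ F, Sc D.X univ s ∧ ∀ t, eval (s t) B = 0) →
      (∀ s ∈ F, ∀ s' ∈ F, (∀ t, Pp (s t) (s' t)) → s = s') → F.card ≤ K := by
  obtain ⟨A, A0, hA⟩ := drop D hB
  refine ⟨n * A.natDegree ^ n, fun F f1 f2 => ?_⟩
  have j1 : ∀ s : F, ∃ j, s.1 0 j ≠ 0 := fun s =>
    Function.ne_iff.1 ((f1 s.1 s.2).1.1.ne (mem_univ 0))
  choose j hj using j1
  have e1 := (hL D.L).2.1 _ 0 (Polynomial.leadingCoeff_ne_zero.2 A0)
  have e2 : ∀ᶠ t in 𝓝[≠] (0 : ℂ), ∀ s : F, s.1 t (j s) ≠ 0 := eventually_all.2 fun s =>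
    nhdsWithin_le_nhds ((f1 s.1 s.2).1.1.ratio (mem_univ 0) (j s) (hj s)).2
  have e3 : ∀ᶠ t in 𝓝[≠] (0 : ℂ), ∀ s s' : F, Pp (s.1 t) (s'.1 t) → s = s' :=
    eventually_all.2 fun s => eventually_all.2 fun s' => by
      rcases (f1 s.1 s.2).1.1.iden_pp (f1 s'.1 s'.2).1.1 isPreconnected_univ with q | q
      · exact .of_forall fun _ _ => Subtype.ext (f2 _ s.2 _ s'.2 fun t => q t (mem_univ t))
      · exact (q 0 (mem_univ 0)).mono fun t a b => absurd b a
  obtain ⟨t, ⟨t1, t2⟩, t3, t4⟩ := (e1.and (e2.and e3)).exists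
  obtain ⟨Z, z1, z2⟩ := roots A t2
  have m := count (fun s : F => s.1 t) j Z t3 (fun s a => z2 _ (hA a (j s) t _
    ((f1 s.1 s.2).1.2 t (mem_univ t)) t1 (t3 s) ((f1 s.1 s.2).2 t))) t4
  rw [Fintype.card_coe] at m
  exact m.trans (Nat.mul_le_mul_left _ (Nat.pow_le_pow_left z1 _))

end CurX

theorem secFin (h : LatStmt) : SecFinStmt := by
  intro n D B hB
  obtain ⟨K, hK⟩ := CurX.bound h D hB
  obtain ⟨T, t1, t2, t3⟩ := ExpX.reps (InC D B)
    (fun s s' => ∀ t, Pp (s t) (s' t)) (fun s t => .refl _) (fun s s' q t => (q t).symm) K hK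
  exact ⟨T, t1, t2, t3⟩

open FinX in
theorem cur0 (h2 : E1.LiftStmt) (h3 : LatStmt) : Cur0Stmt := by
  rintro n D P ⟨hP, hI⟩ ⟨T, hT, hT1, hT2⟩
  obtain ⟨R, R0, hR⟩ := (h3 D.L).1
  obtain ⟨a, b, j, big⟩ := D.big
  have := hT.fintype
  choose g hg hg' using fun s : T => h2 n s.1 0 (3 * R) (4 * R) (by linarith)
    ((hP _ (hT1 s.1 s.2)).1.mono (subset_univ _))
  have sub : closedBall (0 : ℂ) (2 * R) ⊆ ball 0 (3 * R) := closedBall_subset_ball (by linarith)
  have sub' := ball_subset_closedBall.trans sub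
  obtain ⟨m, hm⟩ := (eventually_all.2 fun s : T => ratio_bd (isCompact_closedBall 0 (2 * R))
    ((hg s).1.continuousOn.mono sub) fun z hz => (hg s).2 z (sub hz)).exists
  have ev : ∀ (y : V n) (Q : PR 3), eval y (rename ![a, b, j] Q) = eval ![y a, y b, y j] Q :=
    fun y Q => by
      have e : y ∘ ![a, b, j] = ![y a, y b, y j] := by
        funext i
        fin_cases i <;> rfl
      rw [eval_rename, e]
  obtain ⟨e, Q, Q1, Q0, Q2⟩ := siegel (fun (s : T) t => ![g s t a, g s t b, g s t j]) (fun s => by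
    have := analyticAt_pi_iff.1 (Crv.an (hg s) isOpen_ball (mem_ball_self (by linarith)))
    refine analyticAt_pi_iff.2 fun i => ?_
    fin_cases i
    exacts [this a, this b, this j]) m
  have hB : (rename ![a, b, j] Q : PR n).IsHomogeneous (2 * e) := Q1.rename_isHomogeneous
  refine ⟨rename ![a, b, j] Q, ⟨⟨_, hB⟩, ?_⟩, fun s hs t => ?_⟩
  · simpa only [ev] using big Q _ Q1 Q0
  simp only [← ev] at Q2
  generalize (rename ![a, b, j] Q : PR n) = B at hB Q2 ⊢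
  obtain ⟨M, M0, hM⟩ := bd_zero hB
  have key : ∀ k : ℕ, ∀ s, P s → ∀ t,
      ‖eval (s t) B‖ ≤ M * (1 / 2) ^ k * ‖s t‖ ^ (2 * e) := fun k => by
    induction k with
    | zero => exact fun s hs t => by simpa using hM _ ((hP s hs).1.ne trivial)
    | succ k ih =>
      intro s hs t
      obtain ⟨l, hl, hl'⟩ := hR t
      obtain ⟨s', hs', pp⟩ := hT2 _ (hI s hs l hl)
      have w2 : t - l ∈ closedBall (0 : ℂ) (2 * R) := mem_closedBall_zero_iff.2 (by linarith)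
      have p1 : Pp (s t) (g ⟨s', hs'⟩ (t - l)) := by
        have := pp (t - l)
        rw [sub_add_cancel] at this
        exact this.trans (hg' ⟨s', hs'⟩ _ (sub w2))
      refine bd_pp hB p1 ?_
      have b1 := schwarz R0 (H18.evd ((hg ⟨s', hs'⟩).1.mono sub') B)
        (M := M * (1 / 2) ^ k * (2 ^ m * ‖g ⟨s', hs'⟩ (t - l)‖ ^ 2) ^ e) (fun z hz => by
          refine (bd_pp hB (hg' ⟨s', hs'⟩ z (sub' hz)).symm (ih s' (hT1 s' hs') z)).trans ?_
          rw [pow_mul]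
          exact mul_le_mul_of_nonneg_left (pow_le_pow_left₀ (by positivity)
            (hm _ z (ball_subset_closedBall hz) _ w2) e) (by positivity)) (Q2 ⟨s', hs'⟩) hl'
      refine b1.trans_eq ?_
      have e2 : (2 : ℝ) ^ (m * e) * (1 / 2) ^ (m * e) = 1 := by
        rw [← mul_pow]
        simp
      rw [mul_pow, ← pow_mul, ← pow_mul, pow_succ, pow_succ]
      linear_combination (M * (1 / 2) ^ k * ‖g ⟨s', hs'⟩ (t - l)‖ ^ (2 * e) * (1 / 2)) * e2
  have lim : Tendsto (fun k : ℕ => M * (1 / 2 : ℝ) ^ k * ‖s t‖ ^ (2 * e)) atTop (𝓝 0) := by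
    have := ((tendsto_pow_atTop_nhds_zero_of_lt_one (r := (1 / 2 : ℝ)) (by norm_num)
      (by norm_num)).const_mul M).mul_const (‖s t‖ ^ (2 * e))
    simpa only [mul_zero, zero_mul] using this
  exact norm_le_zero_iff.1 (ge_of_tendsto' lim fun k => key k s hs t)

theorem cur (h1 : Cur0Stmt) (h2 : FinStmt) (h3 : AdmStmt) : CurStmt := by
  intro n D
  obtain ⟨⟨a1, a2⟩, -⟩ := h3 n D
  obtain ⟨R, r1, r2⟩ := h1 n D _ ⟨fun g hg => a1 g hg.1, fun g hg l hl => ⟨a2 g hg.1 l hl,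
    fun q => hg.2 fun t => by simpa using q (t - l)⟩⟩ (h2 n D)
  obtain ⟨B, b1, b2⟩ := D.bdy
  refine ⟨R * B, D.prime _ _ r1 b1, fun g hg t => ?_⟩
  rw [map_mul]
  by_cases q : InB D g
  · have e : eval (g t) B = 0 := b2 (t, g t) (hg.1.2 t trivial) (q t)
    rw [e, mul_zero]
  · rw [r2 g ⟨hg, q⟩ t, zero_mul]

end Pool.Agent.MP_c69980_ag.E2
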