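import Pool.Agent.MP_c69980_ag.E2.BaseB
import Pool.Agent.MP_c69980_ag.E1.Exp

/-!
Expansivity of admissible sections on half-planes.
-/

set_option autoImplicit false

noncomputable section

namespace Pool.Agent.MP_c69980_ag.E2

open MvPolynomial Metric Filter Topology Set
open scoped ComplexConjugate
open H60 H4 E1

namespace ExpX

variable {n : ℕ} {D : Fib n}

lemma pick {e : ℂ} (he : ‖e‖ = 1) (y : ℝ) {ρ : ℝ} (ρ0 : 0 < ρ)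
    (hρ : ∀ t₀ : ℂ, ∃ t, ‖t - t₀‖ ≤ 4 * ρ ∧ Far D (2 * ρ) t) {P : ℂ → Prop}
    (hP : ∀ t, ∀ᶠ w in 𝓝[≠] t, P w) : ∃ t, y < (t * conj e).re ∧ Far D ρ t ∧ P t := by
  obtain ⟨t, t1, t2⟩ := hρ (((y + 5 * ρ + 1 : ℝ) : ℂ) * e)
  obtain ⟨w, w1, w2⟩ := ((hP t).and (nhdsWithin_le_nhds (ball_mem_nhds t ρ0))).exists
  have a1 := E1.ExpX.re_sub he (((y + 5 * ρ + 1 : ℝ) : ℂ) * e) t
  have a2 := E1.ExpX.re_sub he t w
  have a3 := mem_ball_iff_norm.1 w2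
  rw [E1.ExpX.re_deep he] at a1
  exact ⟨w, by linarith, (t2.near (t' := w)).mono (by linarith), w1⟩

lemma core (h2 : ContStmt) {Q : PR 3} {d : ℕ} (hQ : Q.IsHomogeneous d) {ρ c C : ℝ}
    (c0 : 0 < c) {g g' : ℂ → V n} (hg : Sc D.X univ g) (hg' : Sc D.X univ g') {e : ℂ} {y₀ : ℝ}
    {t : ℂ} (he : ‖e‖ = 1) (ht : y₀ + 9 * ρ + 1 < (t * conj e).re)
    (hZ : Zp D Q t (g t) (g' t))
    (happ : ∀ (c₀ : ℂ) (R η : ℝ), 0 < η → 9 * ρ ≤ R → ‖t - c₀‖ < R - 9 * ρ →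
      (∀ w ∈ ball c₀ R, y₀ < (w * conj e).re) → ∃ y y', (t, y) ∈ D.X ∧ y' ≠ 0 ∧
        d2 y (g t) ≤ η ∧ d2 y' (g' t) ≤ η ∧ (Zp D Q t y y' →
          uu D Q d t y y' + c * ((R - 9 * ρ) ^ 2 - ‖t - c₀‖ ^ 2) ≤ C)) : False := by
  obtain ⟨η, η0, hη⟩ := h2 n D Q d t (g t) (g' t) 1 hQ
    (hg.rx D.cn D.nonreg isOpen_univ (mem_univ t)) (hg'.1.ne (mem_univ t)) hZ one_pos
  set A := C + 1 - uu D Q d t (g t) (g' t) with hA
  set x := |A| / c with hx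
  have x0 : 0 ≤ x := div_nonneg (abs_nonneg _) c0.le
  have hcx : c * x = |A| := mul_div_cancel₀ _ c0.ne'
  have hn : ‖t - (t + x * e)‖ = x := by
    rw [sub_add_cancel_left, norm_neg, norm_mul, he, mul_one, Complex.norm_real,
      Real.norm_of_nonneg x0]
  obtain ⟨y, y', b1, b2, b3, b4, b5⟩ := happ (t + x * e) (x + 9 * ρ + 1) η η0 (by linarith)
    (by rw [hn]; linarith) fun w hw => by
      have a1 := E1.ExpX.re_sub he (t + x * e) w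
      have a2 := mem_ball_iff_norm.1 hw
      rw [add_mul, Complex.add_re, E1.ExpX.re_deep he] at a1
      linarith
  obtain ⟨z1, z2⟩ := hη y y' b1 b2 b3 b4
  have b6 := b5 z1
  rw [hn] at b6
  have := le_abs_self A
  have := abs_nonneg A
  nlinarith

lemma sub_ball (c₀ : ℂ) (R : ℝ) : ball c₀ R ⊆ ball 0 (‖c₀‖ + R) :=
  ball_subset_ball' (by rw [dist_zero_right]; linarith)

lemma mem_of_lt {t c₀ : ℂ} {R ρ : ℝ} (ρ0 : 0 < ρ) (h : ‖t - c₀‖ < R - 9 * ρ) : t ∈ ball c₀ R :=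
  mem_ball_iff_norm.2 (by linarith)

lemma aw_near {η ε : ℝ} {t : ℂ} {y w : V n} (h : Aw D η t y) (y0 : y ≠ 0) (w0 : w ≠ 0)
    (hd : d2 w y ≤ ε) (hε : ε ≤ η / 4) : Aw D (η / 4) t w := fun y' a b => by
  have h1 := h y' a b
  have h2 := H84.d2_tri y0 w0 (D.cn.nz _ a)
  rw [d2_symm y w] at h2
  linarith

end ExpX

open ExpX

theorem expB (h1 : GlueStmt) (h2 : ContStmt) : ExpBStmt := by
  intro n D
  obtain ⟨Q, d, d0, hQ, Q0, hv⟩ := D.van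
  obtain ⟨BQ, hBQ, hz⟩ := D.zero Q d hQ Q0
  obtain ⟨Bb, hBb, hb⟩ := D.bdy
  obtain ⟨ρ, ρ0, hρ, hG⟩ := h1 n D Q d ⟨d0, hQ, hv⟩
  obtain ⟨ρ₁, -, hG⟩ := hG 1 one_pos
  obtain ⟨δG, c, C, δ0, c0, hG⟩ := hG 1 one_pos
  have hB := D.prime BQ Bb hBQ hBb
  refine ⟨δG / 4, BQ * Bb, by positivity, hB, fun x hx hU => by rw [map_mul, hb x hx hU, mul_zero],
    fun δ hδ g γ hg hγ hI ⟨e, y₀, he, hc⟩ => ?_⟩
  obtain ⟨⟨f, hf⟩, -⟩ := hB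
  obtain ⟨⟨fQ, hfQ⟩, -⟩ := hBQ
  rcases hg.1.1.iden_eval isPreconnected_univ hf with q | q
  · exact fun t => q t (mem_univ t)
  exfalso
  obtain ⟨t, t1, t2, t3⟩ := pick he (y₀ + 9 * ρ + 1) ρ0 hρ fun t => q t (mem_univ t)
  rw [map_mul] at t3
  have hU : g t ∈ Cone D.U := by
    by_contra hn
    exact right_ne_zero_of_mul t3 (hb (t, g t) (hg.1.2 t (mem_univ t)) hn)
  refine core h2 hQ (c := c) (C := C) c0 hg.1 hγ he t1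
    ⟨fun h => t2.notMem ρ0 (lat_sub D h), hU, fun h => hI t (cone_pp hU h.symm),
      fun h => left_ne_zero_of_mul t3 (uq_zero hQ hfQ hz
        (hg.1.rx D.cn D.nonreg isOpen_univ (mem_univ t)) hU h)⟩ fun c₀ R η η0 hR ht hin => ?_
  obtain ⟨s, s1, s2⟩ := hg.2 (‖c₀‖ + R) (min (min η ρ) (δG / 4)) (by positivity)
  have m1 : min (min η ρ) (δG / 4) ≤ η := (min_le_left _ _).trans (min_le_left _ _)
  have m2 : min (min η ρ) (δG / 4) ≤ ρ := (min_le_left _ _).trans (min_le_right _ _)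
  have m3 : min (min η ρ) (δG / 4) ≤ δG / 4 := min_le_right _ _
  have tm := sub_ball c₀ R (mem_of_lt ρ0 ht)
  have γ0 : ∀ w, γ w ≠ 0 := fun w => hγ.1.ne (mem_univ w)
  refine ⟨s t, γ t, (s1.2 t tm).1, γ0 t, (s2 t tm (t2.mono m2)).trans m1,
    (d2_self (γ0 t)).trans_le η0.le, hG c₀ R s γ hR (s1.mono (sub_ball c₀ R))
      (hγ.mono (subset_univ _)) (.inr fun w _ => hI w) (fun w hw hf => ?_) t ht t2⟩
  have wm := sub_ball c₀ R hw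
  have a1 := s2 w wm (hf.mono (by linarith))
  have a2 := hc w (hin w hw) (hf.mono (by linarith))
  have a3 := H84.d2_tri (s1.1.ne wm) (hg.1.1.ne (mem_univ w)) (γ0 w)
  linarith

theorem exp0 (h1 : GlueStmt) (h2 : ContStmt) (h3 : BdStmt) (h4 : AdmStmt) : Exp0Stmt := by
  intro n D
  obtain ⟨Q, d, d0, hQ, Q0, hv⟩ := D.van
  obtain ⟨B, hB, hz⟩ := D.zero Q d hQ Q0
  obtain ⟨ρ, ρ0, hρ, hG⟩ := h1 n D Q d ⟨d0, hQ, hv⟩
  obtain ⟨η₀, e0, hη₀⟩ := h3 n D ρ ρ0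
  obtain ⟨ρ₁, ρ1, hG⟩ := hG (η₀ / 4) (by positivity)
  obtain ⟨η₁, e1, hη₁⟩ := h3 n D ρ₁ ρ1
  obtain ⟨δG, c, C, δ0, c0, hG⟩ := hG (η₁ / 4) (by positivity)
  refine ⟨δG / 8, B, by positivity, hB, fun δ hδ g g' hg hg' hI hI' ⟨e, y₀, he, hc⟩ => ?_⟩
  obtain ⟨⟨f, hf⟩, -⟩ := hB
  rcases hg.1.1.iden_pp hg'.1.1 isPreconnected_univ with q | q
  · exact .inl fun t => q t (mem_univ t)
  rcases hg.1.1.iden_eval isPreconnected_univ hf with q' | q'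
  · exact .inr fun t => q' t (mem_univ t)
  exfalso
  obtain ⟨t, t1, t2, t3, t4⟩ := pick he (y₀ + 9 * ρ + 1) ρ0 hρ
    fun t => (q t (mem_univ t)).and (q' t (mem_univ t))
  have hU : g t ∈ Cone D.U := ((h4 n D).2.2.2 g hg).resolve_left hI t (t2.notMem ρ0)
  refine core h2 hQ (c := c) (C := C) c0 hg.1 hg'.1 he t1
    ⟨fun h => t2.notMem ρ0 (lat_sub D h), hU, t3, fun h => t4 (uq_zero hQ hf hz
      (hg.1.rx D.cn D.nonreg isOpen_univ (mem_univ t)) hU h)⟩ fun c₀ R η η0 hR ht hin => ?_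
  obtain ⟨ε, ε0, m1, m2, m3, m4, m5, m6⟩ : ∃ ε : ℝ, 0 < ε ∧ ε ≤ η ∧ ε ≤ ρ ∧ ε ≤ ρ₁ ∧ ε ≤ η₀ / 4 ∧
      ε ≤ η₁ / 4 ∧ ε ≤ δG / 12 :=
    ⟨min η (min ρ (min ρ₁ (min (η₀ / 4) (min (η₁ / 4) (δG / 12))))), by positivity, by simp,
      by simp, by simp, by simp, by simp, by simp⟩
  obtain ⟨s, s1, s2⟩ := hg.2 (‖c₀‖ + R) ε ε0
  obtain ⟨s', s1', s2'⟩ := hg'.2 (‖c₀‖ + R) ε ε0
  have tm := sub_ball c₀ R (mem_of_lt ρ0 ht)
  have g0 : ∀ w, g w ≠ 0 := fun w => hg.1.1.ne (mem_univ w)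
  refine ⟨s t, s' t, (s1.2 t tm).1, s1'.1.ne tm, (s2 t tm (t2.mono m2)).trans m1,
    (s2' t tm (t2.mono m2)).trans m1, hG c₀ R s s' hR (s1.mono (sub_ball c₀ R))
      ((sc_op.1 s1').1.mono (sub_ball c₀ R)) (.inl fun w hw => ?_) (fun w hw hf => ?_) t ht t2⟩
  · have wm := sub_ball c₀ R hw
    exact ⟨(s1'.2 w wm).2,
      fun hf => aw_near (hη₀ g hg hI w hf) (g0 w) (s1.1.ne wm) (s2 w wm (hf.mono m2)) m4,
      fun hf => aw_near (hη₁ g hg hI w hf) (g0 w) (s1.1.ne wm) (s2 w wm (hf.mono m3)) m5⟩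
  · have wm := sub_ball c₀ R hw
    have a1 := s2 w wm (hf.mono (by linarith))
    have a1' := s2' w wm (hf.mono (by linarith))
    have a2 := hc w (hin w hw) (hf.mono (by linarith))
    have a3 := H84.d2_tri (s1.1.ne wm) (g0 w) (s1'.1.ne wm)
    have a4 := H84.d2_tri (g0 w) (hg'.1.1.ne (mem_univ w)) (s1'.1.ne wm)
    rw [d2_symm (g' w)] at a4
    linarith

end Pool.Agent.MP_c69980_ag.E2
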