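import Pool.Agent.MP_c69980_ag.E2.Base
import Pool.Agent.MP_c69980_ag.E2.PD

/-!
Surfaces fibred over an elliptic curve: the relative forms in the charts.
-/

set_option autoImplicit false

noncomputable section

namespace Pool.Agent.MP_c69980_ag.E2

open MvPolynomial Metric Filter Topology Set
open H60 H4 E1

namespace FrmX

variable {n : ℕ} {a j : Fin n} {U : Set (ℂ × ℂ)} {Y : ℂ × ℂ → V n} {p : ℂ × ℂ}

lemma jb_an {f g : ℂ × ℂ → ℂ} (hf : AnalyticAt ℂ f p) (hg : AnalyticAt ℂ g p) :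
    AnalyticAt ℂ (jb f g) p := by
  have e : ∀ {k : ℂ × ℂ → ℂ}, AnalyticAt ℂ k p → ∀ v : ℂ × ℂ,
      AnalyticAt ℂ (fun q => fderiv ℂ k q v) p := fun hk v =>
    ((ContinuousLinearMap.apply ℂ ℂ v).analyticAt _).comp hk.fderiv
  exact ((e hf _).mul (e hg _)).sub ((e hf _).mul (e hg _))

lemma jb_fst {ψ : ℂ → ℂ} (h : DifferentiableAt ℂ ψ p.1) :
    jb (fun q => ψ q.1) Prod.snd p = deriv ψ p.1 := by
  have h1 : HasFDerivAt (fun q : ℂ × ℂ => ψ q.1) _ p :=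
    h.hasDerivAt.comp_hasFDerivAt p (hasFDerivAt_fst (𝕜 := ℂ))
  rw [jb, h1.fderiv, fderiv_snd]
  simp

/-- The transition from a chart of `X` to a chart of `W`. -/
lemma trans {L : PeriodPair} {W : Set (PS n)} {X : Set (Pt n)} (hX : Cov L W X) (hW : WC W)
    (h : Chart X a j U Y) (hp : p ∈ U) : ∃ (a' b' j' : Fin n) (U' : Set (ℂ × ℂ))
      (Y' : ℂ × ℂ → V n) (φ : ℂ × ℂ → ℂ × ℂ), WCh W a' b' j' U' Y' ∧ AnalyticAt ℂ φ p ∧
      (∀ᶠ q in 𝓝 p, φ q ∈ U' ∧ Pp (Y q) (Y' (φ q))) ∧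
      jb (fun q => (φ q).1) (fun q => (φ q).2) p ≠ 0 := by
  obtain ⟨a', b', j', U', Y', hc, q₀, hq, hy⟩ := hW _ ((hX.cone _).2 ⟨_, h.mem hp⟩)
  obtain ⟨e1, e2, e3, -, e5⟩ := hc.2.2 q₀ hq
  have aY := h.an hp
  have aY' := hc.2.1 q₀ hq
  have j0 : Y p j' ≠ 0 := (hy.eq_smul e1).1
  let φ : ℂ × ℂ → ℂ × ℂ := fun q => (Y q a' / Y q j', Y q b' / Y q j')
  have aφ : AnalyticAt ℂ φ p :=
    ((analyticAt_pi_iff.1 aY a').div (analyticAt_pi_iff.1 aY j') j0).prod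
      ((analyticAt_pi_iff.1 aY b').div (analyticAt_pi_iff.1 aY j') j0)
  have φp : φ p = q₀ := Prod.ext (by simp only [φ, hy.div, e1, e2, div_one])
    (by simp only [φ, hy.div, e1, e3, div_one])
  have tφ : Tendsto φ (𝓝 p) (𝓝 q₀) := φp ▸ aφ.continuousAt.tendsto
  have ev : ∀ᶠ q in 𝓝 p, φ q ∈ U' ∧ Pp (Y q) (Y' (φ q)) := by
    obtain ⟨c, c0, hc'⟩ := hy.symm
    have t1 : Tendsto (fun q => c • Y q) (𝓝 p) (𝓝 (Y' q₀)) :=
      hc' ▸ aY.continuousAt.tendsto.const_smul c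
    filter_upwards [t1.eventually e5, h.nhds hp, tφ.eventually (hc.1.mem_nhds hq),
      (analyticAt_pi_iff.1 aY j').continuousAt.eventually_ne j0] with q q1 q2 q3 q4
    have := q1 ((hX.cone _).2 ⟨_, hX.cn.scal _ (h.mem q2) c c0⟩)
    simp only [Pi.smul_apply, smul_eq_mul, mul_div_mul_left _ _ c0, mul_smul] at this
    exact ⟨q3, _, q4, smul_right_injective _ c0 this⟩
  refine ⟨a', b', j', U', Y', φ, hc, aφ, ev, fun q0 => ?_⟩
  obtain ⟨T, aT, -, -, hT⟩ := hX.loc _ (hX.cn.pp (h.mem hp) hy.symm)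
  have jj : Y' q₀ j ≠ 0 := (h.eq hp hy.symm).1
  have d1 : DifferentiableAt ℂ (fun q => T (Y' q)) (φ p) :=
    φp ▸ (AnalyticAt.comp (g := T) (f := Y') aT aY').differentiableAt
  have d2 : DifferentiableAt ℂ (fun q => Y' q a / Y' q j) (φ p) :=
    φp ▸ ((analyticAt_pi_iff.1 aY' a).div (analyticAt_pi_iff.1 aY' j) jj).differentiableAt
  have k := jb_comp d1 d2 aφ.differentiableAt
  have t2 : Tendsto (fun q : ℂ × ℂ => ((q.1, Y' (φ q)) : Pt n)) (𝓝 p) (𝓝 (p.1, Y' q₀)) :=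
    continuous_fst.continuousAt.tendsto.prodMk_nhds (aY'.continuousAt.tendsto.comp tφ)
  have k1 : (fun q => T (Y' (φ q))) =ᶠ[𝓝 p] Prod.fst := by
    filter_upwards [t2.eventually hT, ev, h.nhds hp] with q q1 q2 q3
    exact (q1 (hX.cn.pp (h.mem q3) q2.2.symm)).symm
  have k2 : (fun q => Y' (φ q) a / Y' (φ q) j) =ᶠ[𝓝 p] Prod.snd := by
    filter_upwards [ev, h.nhds hp] with q q2 q3
    exact h.div q3 q2.2.symm
  rw [jb_congr k1 k2, jb_id, q0, mul_zero] at k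
  exact one_ne_zero k

variable {K : Type} [Field K] [Algebra ℂ K]

lemma on (d : Dat K n) (hX : Cov d.L d.W d.X) (h : Chart d.X a j U Y) (hp : p ∈ U) :
    On d.z (Y p) := Cone.on d.gen ((hX.cone _).2 ⟨_, h.mem hp⟩)

lemma kl1 {d : Dat K n} {Φ : Fin 3 → Pt n → V n → ℂ} (H : KL d Φ) (h : Chart d.X a j U Y)
    (hp : p ∈ U) (i : Fin 3) {f g : K} (hf : Reg d.z (Y p) f) (hg : Reg d.z (Y p) g)
    (h0 : Wd d.D f g ≠ 0) (hr : Reg d.z (Y p) (d.h i / Wd d.D f g ^ d.m)) :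
    fc Φ Y i p = vl d.z (d.h i / Wd d.D f g ^ d.m) (Y p) *
      jb (fun q => vl d.z f (Y q)) (fun q => vl d.z g (Y q)) p ^ d.m := by
  simpa [fc] using H a j U Y h p hp 0 (zero_mem _) 1 1 0 i f g one_ne_zero hf hg h0 hr

/-- Good coordinates at a point of a chart. -/
lemma pack (h1 : JacStmt) (d : Dat K n) (hX : Cov d.L d.W d.X) (hW : WC d.W)
    (h : Chart d.X a j U Y) (hp : p ∈ U) : ∃ a' b' j' : Fin n, d.wd a' b' j' ≠ 0 ∧
      Reg d.z (Y p) (d.z a' / d.z j') ∧ Reg d.z (Y p) (d.z b' / d.z j') ∧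
      jb (fun q => vl d.z (d.z a' / d.z j') (Y q)) (fun q => vl d.z (d.z b' / d.z j') (Y q)) p ≠ 0 ∧
      (Y p ∈ Cone d.Uo → ∀ i, Reg d.z (Y p) (d.h i / d.wd a' b' j' ^ d.m)) ∧
      (∀ h0 : Y p ≠ 0, ∀ s ∈ pluri d.z d.D d.m (Projectivization.mk ℂ _ h0),
        Reg d.z (Y p) (s / d.wd a' b' j' ^ d.m)) ∧
      ∀ f g, Reg d.z (Y p) f → Reg d.z (Y p) g →
        jb (fun q => vl d.z f (Y q)) (fun q => vl d.z g (Y q)) p ≠ 0 →
        Un d.z (Y p) (Wd d.D f g / d.wd a' b' j') := by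
  obtain ⟨a', b', j', U', Y', φ, hc, aφ, ev, hj⟩ := trans hX hW h hp
  obtain ⟨hq, hy⟩ := ev.self_of_nhds
  obtain ⟨w0, w1, w2, w3⟩ := h1 K n d a' b' j' U' Y' hc _ hq
  have o : ∀ q ∈ U', On d.z (Y' q) := fun q hq => Cone.on d.gen (hc.2.2 q hq).2.2.2.1
  have co : ∀ q ∈ U', ∀ i, Reg d.z (Y' q) (d.z i / d.z j') ∧
      vl d.z (d.z i / d.z j') (Y' q) = Y' q i := fun q hq => PD.coord (o q hq) (hc.2.2 q hq).1
  have k1 : (fun q => vl d.z (d.z a' / d.z j') (Y q)) =ᶠ[𝓝 p] fun q => (φ q).1 := by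
    filter_upwards [ev] with q ⟨q1, q2⟩
    rw [q2.vl (o _ q1) (co _ q1 _).1, (co _ q1 _).2, (hc.2.2 _ q1).2.1]
  have k2 : (fun q => vl d.z (d.z b' / d.z j') (Y q)) =ᶠ[𝓝 p] fun q => (φ q).2 := by
    filter_upwards [ev] with q ⟨q1, q2⟩
    rw [q2.vl (o _ q1) (co _ q1 _).1, (co _ q1 _).2, (hc.2.2 _ q1).2.2.1]
  refine ⟨a', b', j', w0, hy.reg (co _ hq _).1, hy.reg (co _ hq _).1, by rwa [jb_congr k1 k2],
    fun hU i => hy.reg (w2 (cone_pp hU hy.symm) i), fun h0 s hs => hy.reg (w3 (hy.symm.ne h0) s (by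
      obtain ⟨c, -, hc⟩ := hy.symm
      rwa [(Projectivization.mk_eq_mk_iff' ℂ _ _ _ h0).2 ⟨c, hc.symm⟩])),
    fun f g hf hg hne => ?_⟩
  obtain ⟨r1, r2⟩ := w1 f g (hy.symm.reg hf) (hy.symm.reg hg)
  refine ⟨hy.reg r1, fun q0 => hne ?_⟩
  have oe : ∀ᶠ w in 𝓝 (φ p), On d.z (Y' w) := mem_of_superset (hc.1.mem_nhds hq) o
  have key : ∀ k, Reg d.z (Y p) k → DifferentiableAt ℂ (fun w => vl d.z k (Y' w)) (φ p) ∧
      (fun q => vl d.z k (Y q)) =ᶠ[𝓝 p] fun q => vl d.z k (Y' (φ q)) := fun k hk => by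
    obtain ⟨b1, b2⟩ := vl_an (hc.2.1 _ hq) oe (hy.symm.reg hk)
    refine ⟨b1.differentiableAt, ?_⟩
    filter_upwards [ev, aφ.continuousAt.tendsto.eventually b2] with q ⟨q1, q2⟩ q3
    exact q2.vl (o _ q1) q3
  rw [jb_congr (key f hf).2 (key g hg).2, jb_comp (key f hf).1 (key g hg).1 aφ.differentiableAt,
    ← r2, ← hy.vl (o _ hq) r1, q0, zero_mul]

end FrmX

open FrmX in
theorem frm (h1 : JacStmt) (h2 : WCStmt) (h4 : CovStmt) : FrmStmt := by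
  intro K _ _ n d Φ H
  have hX := h4 K n d
  have hW := h2 n d.W d.sm
  refine ⟨⟨d.m0, fun a j U Y h p hp hU i => ?_, fun a j U Y h p hp hU l hl c α β i c0 => ?_⟩,
    fun a j U Y h p hp hU => ?_⟩
  · obtain ⟨a', b', j', w0, r1, r2, -, r3, -⟩ := pack h1 d hX hW h hp
    have oe : ∀ᶠ w in 𝓝 p, On d.z (Y w) := mem_of_superset (h.nhds hp) fun _ => on d hX h
    obtain ⟨b1, c1⟩ := vl_an (h.an hp) oe r1
    obtain ⟨b2, c2⟩ := vl_an (h.an hp) oe r2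
    obtain ⟨b3, c3⟩ := vl_an (h.an hp) oe (r3 hU i)
    refine (b3.mul ((jb_an b1 b2).pow d.m)).congr ?_
    filter_upwards [c1, c2, c3, h.nhds hp] with q q1 q2 q3 q4
    exact (kl1 H h q4 i q1 q2 w0 q3).symm
  · obtain ⟨a', b', j', w0, r1, r2, -, r3, -⟩ := pack h1 d hX hW h hp
    rw [kl1 H h hp i r1 r2 w0 (r3 hU i)]
    exact H a j U Y h p hp l hl c α β i _ _ c0 r1 r2 w0 (r3 hU i)
  · obtain ⟨a', b', j', w0, r1, r2, j0, r3, -⟩ := pack h1 d hX hW h hp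
    exact ⟨a', b', j', _, pow_ne_zero d.m j0, w0, fun i =>
      ⟨r3 hU i, (kl1 H h hp i r1 r2 w0 (r3 hU i)).trans (mul_comm _ _)⟩⟩

end Pool.Agent.MP_c69980_ag.E2
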