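import Pool.Agent.MP_c69980_ag.E2.Base

/-!
Open surfaces fibred over an elliptic curve: gluing of the local models.
-/

set_option autoImplicit false

noncomputable section

namespace Pool.Agent.MP_c69980_ag.E2

open MvPolynomial Metric Filter Topology MeasureTheory Set Real
open H60 H4 E1

namespace GlueX

variable {L : PeriodPair} {u u' : ℂ → ℝ} {Z Z' : Set ℂ} {c c' t : ℂ} {R R' ε ε' C C' : ℝ}

/-- A holomorphic model with a measurable error term. -/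
def Md (L : PeriodPair) (u : ℂ → ℝ) (Z : Set ℂ) (c : ℂ) (R ε C : ℝ) : Prop :=
  ∃ (G : ℂ → ℂ) (E : ℂ → ℝ), DifferentiableOn ℂ G (ball c R) ∧
    AEStronglyMeasurable E (volume.restrict (ball c R)) ∧ ∀ t ∈ ball c R,
      ‖G t‖ ≤ C ∧ (t ∈ L.lattice → G t = 0) ∧ |E t| ≤ ε ∧
        (t ∈ Z ↔ t ∉ L.lattice ∧ G t ≠ 0) ∧ (t ∈ Z → u t = bt L G t + E t)

lemma Md.mono (h : Md L u Z c R ε C) (H : ball c' R' ⊆ ball c R) (h1 : ε ≤ ε') (h2 : C ≤ C') :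
    Md L u Z c' R' ε' C' := by
  obtain ⟨G, E, a, b, e⟩ := h
  exact ⟨G, E, a.mono H, b.mono_measure (Measure.restrict_mono H le_rfl), fun t ht =>
    ⟨(e t (H ht)).1.trans h2, (e t (H ht)).2.1, (e t (H ht)).2.2.1.trans h1, (e t (H ht)).2.2.2⟩⟩

lemma perturb {b E : ℂ → ℝ} {ρ g e : ℝ} (hρ : 0 < ρ)
    (hE : AEStronglyMeasurable E (volume.restrict (ball t ρ)))
    (hb : ∀ w ∈ ball t ρ, |E w| ≤ e) (hu : ∀ᵐ w, w ∈ ball t ρ → u w = b w + E w)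
    (ht : u t = b t + E t) (hi : IntegrableOn b (ball t ρ))
    (hm : π * ρ ^ 2 * (b t + (g + 2 * e)) ≤ ∫ w in ball t ρ, b w) :
    IntegrableOn u (ball t ρ) ∧ π * ρ ^ 2 * (u t + g) ≤ ∫ w in ball t ρ, u w := by
  have i1 : IntegrableOn E (ball t ρ) :=
    Integrable.mono' (integrableOn_const (C := e) measure_ball_lt_top.ne) hE
      ((ae_restrict_iff' measurableSet_ball).2 (.of_forall hb))
  have e1 : (fun w => b w + E w) =ᵐ[volume.restrict (ball t ρ)] u :=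
    (ae_restrict_iff' measurableSet_ball).2 (hu.mono fun w hw h => (hw h).symm)
  refine ⟨Integrable.congr (hi.add i1) e1, ?_⟩
  have v : volume.real (ball t ρ) = π * ρ ^ 2 := by
    simp [Measure.real, Complex.volume_ball, hρ.le, mul_comm]
  have e2 : ∫ _ in ball t ρ, -e ≤ ∫ w in ball t ρ, E w :=
    setIntegral_mono_on (integrableOn_const measure_ball_lt_top.ne) i1 measurableSet_ball
      fun w hw => (abs_le.1 (hb w hw)).1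
  rw [setIntegral_const, v, smul_eq_mul] at e2
  have e3 := (abs_le.1 (hb t (mem_ball_self hρ))).2
  have p : 0 < π * ρ ^ 2 := by positivity
  rw [← integral_congr_ae e1, integral_add hi i1, ht]
  nlinarith [mul_le_mul_of_nonneg_left e3 p.le]

/-- The conclusion of the row on the potential, for one radius. -/
def Gn (L : PeriodPair) (g ρ C : ℝ) : Prop :=
  ∀ (t₀ : ℂ) (G : ℂ → ℂ) (A : ℝ), DifferentiableOn ℂ G (ball t₀ (2 * ρ)) →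
    (∀ t ∈ ball t₀ (2 * ρ), ‖G t‖ ≤ A ∧ (t ∈ L.lattice → G t = 0)) →
    (∀ t ∈ ball t₀ ρ, t ∉ L.lattice → G t ≠ 0 → bt L G t ≤ 6 * Real.log A + C) ∧
    (t₀ ∉ L.lattice → G t₀ ≠ 0 → (∀ᵐ t, t ∈ ball t₀ ρ → t ∉ L.lattice ∧ G t ≠ 0) ∧
      IntegrableOn (bt L G) (ball t₀ ρ) ∧
      Real.pi * ρ ^ 2 * (bt L G t₀ + g * ρ ^ 2) ≤ ∫ t in ball t₀ ρ, bt L G t)

lemma Md.up {g ρ A : ℝ} (h : Md L u Z t (2 * ρ) ε A) (hG : Gn L g ρ C) (hρ : 0 < ρ)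
    (ht : t ∈ Z) : u t ≤ 6 * log A + C + ε := by
  obtain ⟨G, E, a, -, e⟩ := h
  obtain ⟨-, -, e1, e2, e3⟩ := e t (mem_ball_self (by linarith))
  rw [e3 ht]
  exact add_le_add ((hG t G A a fun w hw => ⟨(e w hw).1, (e w hw).2.1⟩).1 t (mem_ball_self hρ)
    (e2.1 ht).1 (e2.1 ht).2) (abs_le.1 e1).2

lemma Md.sub {g ρ A : ℝ} (h : Md L u Z t (2 * ρ) (g / 4 * ρ ^ 2) A) (hG : Gn L g ρ C)
    (hρ : 0 < ρ) (ht : t ∈ Z) : (∀ᵐ w, w ∈ ball t ρ → w ∈ Z) ∧ IntegrableOn u (ball t ρ) ∧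
      π * ρ ^ 2 * (u t + g / 2 * ρ ^ 2) ≤ ∫ w in ball t ρ, u w := by
  obtain ⟨G, E, a, m, e⟩ := h
  have sb : ball t ρ ⊆ ball t (2 * ρ) := ball_subset_ball (by linarith)
  obtain ⟨-, -, -, e2, e3⟩ := e t (mem_ball_self (by linarith))
  obtain ⟨g1, g2, g3⟩ := (hG t G A a fun w hw => ⟨(e w hw).1, (e w hw).2.1⟩).2
    (e2.1 ht).1 (e2.1 ht).2
  have ae : ∀ᵐ w, w ∈ ball t ρ → w ∈ Z := g1.mono fun w hw q => (e w (sb q)).2.2.2.1.2 (hw q)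
  exact ⟨ae, perturb hρ (m.mono_measure (Measure.restrict_mono sb le_rfl))
    (fun w hw => (e w (sb hw)).2.2.1) (ae.mono fun w hw q => (e w (sb q)).2.2.2.2 (hw q)) (e3 ht)
    g2 (le_of_eq_of_le (by ring) g3)⟩

/-- The modified function. -/
lemma modif (L : PeriodPair) (u : ℂ → ℝ) (Z : Set ℂ) (P : ℂ → ℂ → Prop) (G : ℂ → ℂ → ℂ)
    (hP : ∀ t b b', P t b → P t b' → b = b') : ∃ (u' : ℂ → ℝ) (Z' : Set ℂ),
      (∀ t, (∀ b, ¬P t b) → u' t = u t ∧ (t ∈ Z' ↔ t ∈ Z)) ∧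
      ∀ t b, P t b → u' t = bt L (G b) t ∧ (t ∈ Z' ↔ t ∉ L.lattice ∧ G b t ≠ 0) := by
  classical
  refine ⟨fun t => if h : ∃ b, P t b then bt L (G h.choose) t else u t,
    {t | (∃ b, P t b ∧ t ∉ L.lattice ∧ G b t ≠ 0) ∨ (∀ b, ¬P t b) ∧ t ∈ Z},
    fun t h => ⟨dif_neg (not_exists.2 h), ?_, fun q => Or.inr ⟨h, q⟩⟩,
    fun t b h => ⟨?_, ?_, fun q => Or.inl ⟨b, h, q⟩⟩⟩
  · rintro (⟨b, q, -⟩ | q)
    · exact absurd q (h b)
    · exact q.2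
  · have q : ∃ b, P t b := ⟨b, h⟩
    rw [hP t b _ h q.choose_spec]
    exact dif_pos q
  · rintro (⟨b', q, q'⟩ | q)
    · exact hP t b b' h q ▸ q'
    · exact absurd h (q.1 b)

variable {n : ℕ} {D : Fib n} {Q : PR 3} {d : ℕ} {s s' : ℂ → V n}

/-- The body of `Ap`. -/
def Bd (L : PeriodPair) (u : ℂ → ℝ) (Z : Set ℂ) (c : ℂ) (ρ r ε C : ℝ) (G : ℂ → ℂ) (E : ℂ → ℝ) :
    Prop := DifferentiableOn ℂ G (ball c (3 * ρ)) ∧
  ContinuousOn E (ball c (3 * ρ) \ ball c r) ∧ ∀ t ∈ ball c (3 * ρ),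
    ‖G t‖ ≤ C ∧ (t ∈ L.lattice → G t = 0) ∧ (r ≤ ‖t - c‖ → |E t| ≤ ε ∧
      (t ∈ Z ↔ t ∉ L.lattice ∧ G t ≠ 0) ∧ (t ∈ Z → u t = bt L G t + E t))

lemma Bd.md {ρ r : ℝ} {G : ℂ → ℂ} {E : ℂ → ℝ} (h : Bd L u Z c ρ r ε C G E) (hε : 0 ≤ ε)
    (h1 : ∀ t ∈ ball c (3 * ρ), r ≤ ‖t - c‖ → u' t = u t ∧ (t ∈ Z' ↔ t ∈ Z))
    (h2 : ∀ t, ‖t - c‖ < r → u' t = bt L G t ∧ (t ∈ Z' ↔ t ∉ L.lattice ∧ G t ≠ 0)) :
    Md L u' Z' c (3 * ρ) ε C := by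
  obtain ⟨a, b, e⟩ := h
  refine ⟨G, indicator (ball c r)ᶜ E, a, ?_, fun t ht => ⟨(e t ht).1, (e t ht).2.1, ?_⟩⟩
  · rw [aestronglyMeasurable_indicator_iff measurableSet_ball.compl,
      Measure.restrict_restrict measurableSet_ball.compl, inter_comm]
    exact b.aestronglyMeasurable (measurableSet_ball.diff measurableSet_ball)
  · rcases le_or_gt r ‖t - c‖ with q | q
    · rw [indicator_of_mem (show t ∈ (ball c r)ᶜ from fun k =>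
        absurd (mem_ball_iff_norm.1 k) q.not_gt), (h1 t ht q).1, (h1 t ht q).2]
      exact (e t ht).2.2 q
    · rw [indicator_of_notMem (show t ∉ (ball c r)ᶜ from fun k => k (mem_ball_iff_norm.2 q)),
        abs_zero, add_zero]
      exact ⟨hε, (h2 t q).2, fun _ => (h2 t q).1⟩

lemma far_two {ρ : ℝ} {b : ℂ}
    (hs : ∀ t ∈ D.B, ∀ t' ∈ D.B, t ≠ t' → 8 * ρ ≤ ‖t - t'‖) (hb : b ∈ D.B) {r : ℝ}
    (h1 : r ≤ ‖t - b‖) (h2 : ‖t - b‖ ≤ 4 * ρ) : Far D r t := fun b' hb' => by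
  by_cases e : b = b'
  · exact e ▸ h1
  · have a := hs b hb b' hb' e
    have k := norm_sub_le (t - b') (t - b)
    rw [show t - b' - (t - b) = b - b' by ring] at k
    linarith

end GlueX

open GlueX in
theorem glue (h1 : LocBStmt) (h2 : LocGStmt) (h3 : BarStmt) (h4 : GainStmt) (h5 : LatStmt) :
    GlueStmt := by
  intro n D Q d hQ
  obtain ⟨r0, r00, hr0⟩ := ((h5 D.L).2.2 D.S).2.1
  obtain ⟨rG, g, rG0, g0, hG⟩ := h4 D.L
  obtain ⟨ρ, hρ, ρ1, ρ2⟩ : ∃ ρ : ℝ, 0 < ρ ∧ 8 * ρ ≤ r0 ∧ ρ ≤ rG :=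
    ⟨min (r0 / 8) rG, by positivity, by linarith [min_le_left (r0 / 8) rG], min_le_right _ _⟩
  have hs : ∀ t ∈ D.B, ∀ t' ∈ D.B, t ≠ t' → 8 * ρ ≤ ‖t - t'‖ :=
    fun t a t' b e => ρ1.trans (hr0 t a t' b e)
  have n2 : ∀ b : ℂ, ‖b + 2 * ρ - b‖ = 2 * ρ := fun b => by
    simp [abs_of_pos hρ]
  have f2 : ∀ b ∈ D.B, Far D (2 * ρ) (b + 2 * ρ) := fun b hb =>
    far_two hs hb (n2 b).ge (by rw [n2]; linarith)
  refine ⟨ρ, hρ, fun t₀ => ?_, fun η₀ hη₀ => ?_⟩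
  · by_cases q : Far D (2 * ρ) t₀
    · exact ⟨t₀, by simp [hρ.le], q⟩
    · simp only [Far, not_forall, not_le] at q
      obtain ⟨b, hb, q⟩ := q
      refine ⟨b + 2 * ρ, ?_, f2 b hb⟩
      have k := norm_sub_le (b + 2 * ρ - b) (t₀ - b)
      rw [n2, sub_sub_sub_cancel_right] at k
      linarith
  obtain ⟨δB, r1, CB, δB0, r10, hB⟩ := h1 n D Q d η₀ (g / 16) ρ hQ hη₀ (by positivity) hρ
    fun b hb t ht e => le_trans (by linarith) (hs t ht b hb e)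
  obtain ⟨ρ₁, p0, p1, p2⟩ : ∃ ρ₁ : ℝ, 0 < ρ₁ ∧ 2 * ρ₁ ≤ r1 ∧ 2 * ρ₁ ≤ ρ :=
    ⟨min r1 ρ / 2, by positivity, by linarith [min_le_left r1 ρ], by linarith [min_le_right r1 ρ]⟩
  refine ⟨ρ₁, p0, fun η₁ hη₁ => ?_⟩
  obtain ⟨δG, r2, CG, δG0, r20, hL⟩ := h2 n D Q d η₁ (g / 16) ρ₁ hQ hη₁ (by positivity) p0
  obtain ⟨rm, m0, m1, m2⟩ : ∃ rm : ℝ, 0 < rm ∧ rm ≤ ρ₁ ∧ rm ≤ r2 :=
    ⟨min ρ₁ r2, by positivity, min_le_left _ _, min_le_right _ _⟩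
  obtain ⟨δ, d0, d1, d2', d3⟩ : ∃ δ : ℝ, 0 < δ ∧ δ ≤ δB ∧ δ ≤ δG ∧ δ ≤ ρ₁ :=
    ⟨min δB (min δG ρ₁), by positivity, min_le_left _ _,
      (min_le_right _ _).trans (min_le_left _ _), (min_le_right _ _).trans (min_le_right _ _)⟩
  obtain ⟨Cm, hCm⟩ := hG rm m0 (by linarith)
  refine ⟨δ, g / 2, 6 * log (max CB CG) + Cm + g / 4 * ρ ^ 2, d0, by positivity,
    fun c₀ R s s' hR hS hS' hA hδ => ?_⟩
  obtain ⟨u, hu⟩ : ∃ u : ℂ → ℝ, u = fun t => uu D Q d t (s t) (s' t) := ⟨_, rfl⟩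
  obtain ⟨Z, hZ⟩ : ∃ Z : Set ℂ, Z = {t | Zp D Q t (s t) (s' t)} := ⟨_, rfl⟩
  have sub : ∀ {b : ℂ} {r : ℝ}, ‖b - c₀‖ + r ≤ R → ball b r ⊆ ball c₀ R := fun h =>
    ball_subset_ball' (by rw [dist_eq_norm]; linarith)
  have k1 : ∀ b, ∃ (r : ℝ) (G : ℂ → ℂ) (E : ℂ → ℝ), b ∈ D.B → ‖b - c₀‖ + 4 * ρ ≤ R →
      r ∈ Icc r1 ρ ∧ Bd D.L u Z b r (r / 2) (g / 16 * r ^ 2) CB G E := fun b => by
    by_cases hb : b ∈ D.B ∧ ‖b - c₀‖ + 4 * ρ ≤ R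
    swap
    · exact ⟨0, 0, 0, fun a e => absurd ⟨a, e⟩ hb⟩
    have sb := sub hb.2
    obtain ⟨r, hr, G, E, h⟩ := hB b hb.1 s s' ⟨hS.1.mono sb, fun t ht => hS.2 t (sb ht)⟩
      ⟨hS'.1.mono sb, fun t ht => hS'.2 t (sb ht)⟩ (hA.imp (fun q => ⟨fun t ht => (q t (sb ht)).1,
        (q _ (sb (mem_ball_iff_norm.2 (by rw [n2]; linarith)))).2.1
          ((f2 b hb.1).mono (by linarith))⟩) fun q t ht => q t (sb ht))
      fun t ht q => (hδ t (sb ht) ((far_two hs hb.1 q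
        (mem_ball_iff_norm.1 ht).le).mono d1)).trans d1
    exact ⟨r, G, E, fun _ _ => ⟨hr, by rw [hu, hZ]; exact h⟩⟩
  choose rb G E hb using k1
  have un : ∀ t b b', b ∈ D.B → b' ∈ D.B → ‖t - b‖ < 4 * ρ → ‖t - b'‖ < 4 * ρ → b = b' :=
    fun t b b' a a' q q' => by
      by_contra e
      have k := norm_sub_le (t - b') (t - b)
      rw [show t - b' - (t - b) = b - b' by ring] at k
      linarith [hs b a b' a' e]
  obtain ⟨u', Z', U1, U2⟩ := modif D.L u Z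
    (fun t b => b ∈ D.B ∧ ‖b - c₀‖ + 4 * ρ ≤ R ∧ ‖t - b‖ < rb b / 2) G fun t b b' q q' =>
      un t b b' q.1 q'.1 (by linarith [(hb b q.1 q.2.1).1.2, q.2.2])
        (by linarith [(hb b' q'.1 q'.2.1).1.2, q'.2.2])
  have k2 : ∀ t ∈ ball c₀ (R - 8 * ρ), ∃ r ∈ Icc rm ρ,
      Md D.L u' Z' t (2 * r) (g / 4 * r ^ 2) (max CB CG) := fun t ht => by
    have ht := mem_ball_iff_norm.1 ht
    by_cases q : ∃ b ∈ D.B, ‖b - c₀‖ + 4 * ρ ≤ R ∧ ‖t - b‖ < rb b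
    · obtain ⟨b, b1, b2, b3⟩ := q
      obtain ⟨⟨a1, a2⟩, a3⟩ := hb b b1 b2
      refine ⟨rb b / 2, ⟨by linarith, by linarith⟩, (a3.md (by positivity) (fun w hw e => U1 w ?_)
        fun w e => U2 w b ⟨b1, b2, e⟩).mono (ball_subset_ball' ?_) (le_of_eq (by ring))
          (le_max_left _ _)⟩
      · rintro b' ⟨c1, c2, c3⟩
        have hw := mem_ball_iff_norm.1 hw
        obtain rfl := un w b b' b1 c1 (by linarith) (by linarith [(hb b' c1 c2).1.2])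
        exact absurd c3 e.not_gt
      · rw [dist_eq_norm]
        linarith
    · have q : ∀ b ∈ D.B, ‖b - c₀‖ + 4 * ρ ≤ R → rb b ≤ ‖t - b‖ := fun b a e =>
        le_of_not_gt fun k => q ⟨b, a, e, k⟩
      have fr : Far D (2 * ρ₁) t := fun b a => by
        rcases le_or_gt (‖b - c₀‖ + 4 * ρ) R with e | e
        · linarith [q b a e, (hb b a e).1.1]
        · have k := norm_sub_le (t - c₀) (t - b)
          rw [show t - c₀ - (t - b) = b - c₀ by ring] at k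
          linarith
      have sb : ball t ρ₁ ⊆ ball c₀ R := sub (by linarith)
      obtain ⟨r, ⟨a1, a2⟩, G', E', h⟩ := hL t s s' fr
        ⟨hS.1.mono sb, fun t ht => hS.2 t (sb ht)⟩ ⟨hS'.1.mono sb, fun t ht => hS'.2 t (sb ht)⟩
        (hA.imp (fun k => (k t (sb (mem_ball_self p0))).2.2 (fr.mono (by linarith)))
          fun k w hw => k w (sb hw))
        fun w hw => (hδ w (sb hw) ((fr.near (t' := w)).mono (by
          linarith [mem_ball_iff_norm.1 hw]))).trans d2'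
      have a3 : Bd D.L u Z t r 0 (g / 16 * r ^ 2) CG G' E' := by rw [hu, hZ]; exact h
      refine ⟨r, ⟨by linarith, by linarith⟩, (a3.md (by positivity) (fun w hw _ => U1 w ?_)
        fun w e => absurd e (norm_nonneg _).not_gt).mono (ball_subset_ball (by linarith))
          (by nlinarith [sq_nonneg r]) (le_max_right _ _)⟩
      rintro b ⟨c1, c2, c3⟩
      have hw := mem_ball_iff_norm.1 hw
      have k := norm_sub_le (w - b) (w - t)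
      rw [show w - b - (w - t) = t - b by ring] at k
      linarith [q b c1 c2, (hb b c1 c2).1.1]
  intro t ht fr hz
  have k3 := h3 u' Z' c₀ (R - 8 * ρ) rm ρ (g / 2) (6 * log (max CB CG) + Cm + g / 4 * ρ ^ 2) m0
    (by positivity) (by linarith) (fun w hw hw' => ?_) (fun w hw hw' => ?_)
  · obtain ⟨e1, e2⟩ := U1 t fun b ⟨c1, c2, c3⟩ => by linarith [fr b c1, (hb b c1 c2).1.2]
    have k4 := k3 t (e2.2 (by rw [hZ]; exact hz)) (mem_ball_iff_norm.2 (by linarith))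
    rw [e1, hu, show R - 8 * ρ - ρ = R - 9 * ρ by ring] at k4
    exact k4
  · obtain ⟨r, ⟨a1, a2⟩, h⟩ := k2 w hw'
    exact (h.mono (ball_subset_ball (by linarith)) (mul_le_mul_of_nonneg_left
      (pow_le_pow_left₀ (by linarith) a2 2) (by positivity)) le_rfl).up hCm m0 hw
  · obtain ⟨r, ⟨a1, a2⟩, h⟩ := k2 w (mem_ball_iff_norm.2 (by linarith))
    obtain ⟨C', hC'⟩ := hG r (by linarith) (by linarith)
    exact ⟨r, ⟨a1, a2⟩, h.sub hC' (by linarith) hw⟩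

end Pool.Agent.MP_c69980_ag.E2
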