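import Pool.Agent.MP_c69980_ag.E2.Base

/-!
The theorem of Hurwitz for the open part, logarithmic derivatives, entire curves on a line.
-/

set_option autoImplicit false

noncomputable section

namespace Pool.Agent.MP_c69980_ag.E2

open MvPolynomial Metric Filter Topology Set
open H60 H4 E1

namespace HurX

lemma loc {n : ℕ} {W U : Set (PS n)} {u : Ultrafilter ℕ} {O : Set ℂ} {F : ℕ → ℂ → V n}
    {G : ℂ → V n} (hE : EqP W U) (hO : IsOpen O)
    (hF : ∀ t ∈ O, ∃ r : ℝ, 0 < r ∧ ∀ᶠ k in u, ∀ w ∈ ball t r, F k w ∈ Cone U) (hC : Cv u O F G)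
    (hG : ∀ t ∈ O, G t ∈ Cone W) {t : ℂ} (ht : t ∈ O) :
    (∀ᶠ w in 𝓝 t, G w ∈ Cone U) ∨ ∀ᶠ w in 𝓝 t, G w ∉ Cone U := by
  obtain ⟨r, g, G', r0, cG, pG, hg, hu⟩ := hC t ht
  obtain ⟨r1, r10, h1⟩ := hF t ht
  have tr := mem_ball_self (x := t) r0
  obtain ⟨β, hβ, hw⟩ := hE.2 (G' t) (cone_pp (hG t ht) (pG t tr).symm)
  have hb : ∀ᶠ w in 𝓝 (G' t), ‖β w‖ ≤ ‖β (G' t)‖ + 1 :=
    hβ.continuousAt.norm.eventually (ge_mem_nhds (by linarith))
  obtain ⟨ε, ε0, hε⟩ := Metric.eventually_nhds_iff_ball.1 ((hβ.eventually_analyticAt.and hw).and hb)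
  have cont : ContinuousAt G' t := cG.1.continuousOn.continuousAt (ball_mem_nhds t r0)
  have e1 : ∀ᶠ w in 𝓝 t, G' w ∈ ball (G' t) (ε / 2) :=
    cont.eventually (ball_mem_nhds _ (by positivity))
  have e2 : ∀ᶠ w in 𝓝 t, w ∈ ball t r := ball_mem_nhds t r0
  have e3 : ∀ᶠ w in 𝓝 t, w ∈ ball t r1 := ball_mem_nhds t r10
  have e4 : ∀ᶠ w in 𝓝 t, w ∈ O := hO.mem_nhds ht
  obtain ⟨ρ, ρ0, hρ⟩ := Metric.eventually_nhds_iff_ball.1 ((e1.and e2).and (e3.and e4))
  have hG' : ∀ w ∈ ball t ρ, G' w ∈ ball (G' t) ε := fun w hw' =>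
    ball_subset_ball (by linarith) (hρ w hw').1.1
  have ev : ∀ᶠ k in u, (DifferentiableOn ℂ (fun w => β (g k w)) (ball t ρ) ∧
      ∀ w ∈ ball t ρ, β (g k w) ≠ 0) ∧ ∀ w ∈ ball t ρ, ‖β (g k w)‖ ≤ ‖β (G' t)‖ + 1 := by
    filter_upwards [hg, h1, Metric.tendstoUniformlyOn_iff.1 hu (ε / 2) (by positivity)]
      with k k1 k2 k3
    have m : ∀ w ∈ ball t ρ, g k w ∈ ball (G' t) ε := fun w hw' => by
      have a := k3 w (hρ w hw').1.2
      have b := mem_ball.1 (hρ w hw').1.1
      have c := dist_triangle_left (g k w) (G' t) (G' w)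
      rw [mem_ball]; linarith
    refine ⟨⟨fun w hw' => ?_, fun w hw' => ?_⟩, fun w hw' => (hε _ (m w hw')).2⟩
    · exact (hε _ (m w hw')).1.1.differentiableAt.comp_differentiableWithinAt w
        ((k1.1.1 w (hρ w hw').1.2).mono fun z hz => (hρ z hz).1.2)
    · have a : g k w ∈ Cone U := cone_pp (k2 w (hρ w hw').2.1) (k1.2 w (hρ w hw').1.2).symm
      exact ((hε _ (m w hw')).1.2 (cone_mono hE.1 a)).1 a
  have hl := H18.locu (l := u) (Φ := fun k w => β (g k w)) (H := fun w => β (G' w)) isOpen_ball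
    (ev.mono fun k hk => ⟨hk.1.1, hk.2⟩) fun z hz =>
      (hε _ (hG' z hz)).1.1.continuousAt.tendsto.comp (hu.tendsto_at (hρ z hz).1.2)
  have iff : ∀ w ∈ ball t ρ, (G w ∈ Cone U ↔ β (G' w) ≠ 0) := fun w hw' => by
    have p := pG w (hρ w hw').1.2
    rw [← (hε _ (hG' w hw')).1.2 (cone_pp (hG w (hρ w hw').2.2) p.symm)]
    exact ⟨fun a => cone_pp a p.symm, fun a => cone_pp a p⟩
  rcases H18.hurwitz isOpen_ball (ev.mono fun k hk => hk.1) hl (mem_ball_self ρ0) with a | a
  · left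
    filter_upwards [(hβ.continuousAt.comp cont).eventually_ne a, ball_mem_nhds t ρ0] with w b c
    exact (iff w c).2 b
  · right
    filter_upwards [a, ball_mem_nhds t ρ0] with w b c
    exact fun d => (iff w c).1 d b

lemma form {y γ : Fin 3 → ℂ} (h : ∀ κ : ℂ, ∃ l, y l ≠ κ * γ l) :
    ∃ P : PR 3, P.IsHomogeneous 1 ∧ eval γ P = 0 ∧ eval y P ≠ 0 := by
  by_cases h0 : ∀ j, γ j = 0
  · obtain ⟨l, hl⟩ := h 0
    exact ⟨X l, isHomogeneous_X ℂ l, by simp [h0], by simpa using hl⟩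
  · push Not at h0
    obtain ⟨j, hj⟩ := h0
    obtain ⟨l, hl⟩ := h (y j / γ j)
    refine ⟨C (γ j) * X l - C (γ l) * X j,
      (isHomogeneous_C_mul_X _ _).sub (isHomogeneous_C_mul_X _ _), by simp [mul_comm], ?_⟩
    simp only [map_sub, map_mul, eval_C, eval_X]
    intro e
    apply hl
    field_simp
    linear_combination e

lemma evd {c : ℂ → Fin 3 → ℂ} (hc : Differentiable ℂ c) (P : PR 3) :
    Differentiable ℂ fun w => eval (c w) P :=
  differentiableOn_univ.1 (H18.evd hc.differentiableOn P)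

lemma const {f : ℂ → ℂ} (hf : Differentiable ℂ f) {A : ℝ} (h : ∀ w, ‖f w‖ ≤ A) (z w : ℂ) :
    f z = f w :=
  hf.apply_eq_apply_of_bounded (isBounded_iff_forall_norm_le.2 ⟨A, by
    rintro _ ⟨x, rfl⟩
    exact h x⟩) z w

end HurX

theorem hur : HurStmt := by
  intro n W U u O F G hE hO hc hF hC hG
  have h := hc.subset_or_subset (u := {t | ∀ᶠ w in 𝓝 t, G w ∈ Cone U})
    (v := {t | ∀ᶠ w in 𝓝 t, G w ∉ Cone U}) isOpen_setOfPred_eventually_nhds
    isOpen_setOfPred_eventually_nhds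
    (Set.disjoint_left.2 fun t a b => Eventually.self_of_nhds (p := fun w => G w ∉ Cone U) b
      (Eventually.self_of_nhds (p := fun w => G w ∈ Cone U) a))
    fun t ht => HurX.loc hE hO hF hC hG ht
  exact h.imp (fun a t ht => Eventually.self_of_nhds (p := fun w => G w ∈ Cone U) (a ht))
    fun a t ht => Eventually.self_of_nhds (p := fun w => G w ∉ Cone U) (a ht)

theorem logD : LogDStmt := by
  intro f c r r0 hf h
  have cr := mem_ball_self (x := c) r0
  have hd : DifferentiableOn ℂ (fun w => deriv f w / f w) (ball c r) :=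
    (hf.deriv isOpen_ball).div hf fun w hw => (h w hw).1
  obtain ⟨φ, φ0, hφ⟩ := hd.isExactOn_ball.with_val_at c 0
  have dφ : DifferentiableOn ℂ φ (ball c r) := fun w hw =>
    (hφ w hw).differentiableAt.differentiableWithinAt
  have key : ∀ w ∈ ball c r, f w * Complex.exp (-φ w) = f c := by
    intro w hw
    have := isOpen_ball.is_const_of_deriv_eq_zero (𝕜 := ℂ) (f := fun w => f w * Complex.exp (-φ w))
      (convex_ball c r).isPreconnected (hf.mul dφ.neg.cexp) (fun z hz => by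
        have a := ((hf z hz).differentiableAt (isOpen_ball.mem_nhds hz)).hasDerivAt
        have b := a.fun_mul (hφ z hz).fun_neg.cexp
        rw [b.deriv]
        have := (h z hz).1
        simp only [Pi.zero_apply]
        field_simp
        ring) hw cr
    simpa [φ0] using this
  have n0 : 0 < ‖f c‖ := norm_pos_iff.2 (h c cr).1
  have hre : ∀ w ∈ ball c r, (φ w).re ≤ -Real.log ‖f c‖ := by
    intro w hw
    have a := congrArg norm (key w hw)
    rw [norm_mul, Complex.norm_exp, Complex.neg_re] at a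
    have b : ‖f c‖ ≤ Real.exp (-(φ w).re) := by
      rw [← a]
      exact mul_le_of_le_one_left (Real.exp_pos _).le (h w hw).2
    have := (Real.log_le_iff_le_exp n0).2 b
    linarith
  have m0 : 0 ≤ -Real.log ‖f c‖ := by simpa [φ0] using hre c cr
  have main : ∀ M : ℝ, -Real.log ‖f c‖ < M → ‖deriv f c / f c‖ * r ≤ 2 * M := by
    intro M hM
    have M0 : 0 < M := by linarith
    have ne : ∀ w ∈ ball c r, 2 * (M : ℂ) - φ w ≠ 0 := fun w hw e => by
      have := congrArg Complex.re e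
      have := hre w hw
      simp at *
      linarith
    have s := Complex.norm_deriv_le_div_of_mapsTo_ball (f := fun w => φ w / (2 * M - φ w))
      (R₂ := 1) (dφ.div (dφ.const_sub _) ne) (fun w hw => by
        simp only [φ0, zero_div, mem_closedBall, dist_zero_right, norm_div]
        refine div_le_one_of_le₀ ?_ (norm_nonneg _)
        have := hre w hw
        rw [← sq_le_sq₀ (norm_nonneg _) (norm_nonneg _), Complex.sq_norm, Complex.sq_norm,
          Complex.normSq_apply, Complex.normSq_apply]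
        simp
        nlinarith) r0
    have b := (hφ c cr).fun_div ((hφ c cr).const_sub (2 * (M : ℂ))) (ne c cr)
    have M1 : (M : ℂ) ≠ 0 := by exact_mod_cast M0.ne'
    have e : deriv (fun w => φ w / (2 * M - φ w)) c = deriv f c / f c / (2 * M) := by
      rw [b.deriv, φ0]
      field_simp
      ring
    rw [e, norm_div, div_le_div_iff₀ (by simpa using M0.ne') r0] at s
    simpa [abs_of_pos M0] using s
  have fin : ‖deriv f c / f c‖ * r ≤ 2 * -Real.log ‖f c‖ :=
    le_of_forall_pos_le_add fun ε hε => by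
      have := main (-Real.log ‖f c‖ + ε / 2) (by linarith)
      linarith
  rw [norm_div, div_mul_eq_mul_div, div_le_iff₀ n0] at fin
  linarith

theorem prop : PropStmt := by
  intro c Γ hc hΓ h
  by_contra hn
  push Not at hn
  choose w hw using hn
  choose P P1 P2 P3 using fun γ => HurX.form (hw γ)
  have hom : (∏ γ ∈ hΓ.toFinset, P γ).IsHomogeneous (∑ _γ ∈ hΓ.toFinset, 1) :=
    IsHomogeneous.prod _ _ _ fun γ _ => P1 γ
  have van : ∀ γ ∈ Γ, eval γ (∏ γ ∈ hΓ.toFinset, P γ) = 0 := fun γ hγ => by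
    rw [map_prod]
    exact Finset.prod_eq_zero (hΓ.mem_toFinset.2 hγ) (P2 γ)
  have ne : ∀ γ ∈ hΓ.toFinset, ∀ᶠ z in 𝓝[≠] (0 : ℂ), eval (c z) (P γ) ≠ 0 := fun γ _ => by
    have a := (HurX.evd hc (P γ)).differentiableOn.analyticOnNhd isOpen_univ
    refine (a 0 (mem_univ _)).eventually_eq_zero_or_eventually_ne_zero.resolve_left fun e => ?_
    exact P3 γ (a.eqOn_zero_of_preconnected_of_eventuallyEq_zero isPreconnected_univ (mem_univ 0) e
      (mem_univ (w γ)))
  obtain ⟨z, hz⟩ := ((eventually_all_finset _).2 ne).exists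
  have q0 : eval (c z) (∏ γ ∈ hΓ.toFinset, P γ) ≠ 0 := by
    rw [map_prod]
    exact Finset.prod_ne_zero_iff.2 hz
  obtain ⟨A, hA⟩ := h _ _ hom van
  have cst := HurX.const (HurX.evd hc _) hA
  obtain ⟨l, hl⟩ := hw (c z) 1
  obtain ⟨B, hB⟩ := h _ _ ((isHomogeneous_X ℂ l).mul hom) fun γ hγ => by
    rw [map_mul, van γ hγ, mul_zero]
  have e := HurX.const (HurX.evd hc _) hB (w (c z)) z
  rw [map_mul, map_mul, eval_X, eval_X, cst (w (c z)) z] at e
  exact hl (by rw [one_mul]; exact mul_right_cancel₀ q0 e)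

end Pool.Agent.MP_c69980_ag.E2
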