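import Pool.Agent.MP_c69980_ag.E2.BaseB

/-!
Open surfaces fibred over an elliptic curve: the limit form of the local model.
-/

set_option autoImplicit false

noncomputable section

namespace Pool.Agent.MP_c69980_ag.E2

open MvPolynomial Metric Filter Topology Set
open H60 H4 E1

namespace LimX

variable {n : ℕ} {D : Fib n} {a j : Fin n} {O : Set (ℂ × ℂ)} {Y : ℂ × ℂ → V n} {b : ℂ}
  {R r : ℝ} {g : ℂ → V n}

/-- Local bounds near a graph are uniform over a compact set. -/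
lemma bnd {K : Set ℂ} (hK : IsCompact K) {ζ : ℂ → ℂ} (hζ : ContinuousOn ζ K)
    {P : ℂ × ℂ → Prop} {f : ℂ × ℂ → ℂ}
    (h : ∀ t ∈ K, ∃ A : ℝ, ∀ᶠ q in 𝓝 (t, ζ t), P q → ‖f q‖ ≤ A) :
    ∃ A ε : ℝ, 0 < ε ∧ ∀ t ∈ K, ∀ z, ‖z - ζ t‖ ≤ ε → P (t, z) → ‖f (t, z)‖ ≤ A := by
  have c : IsCompact ((fun t => (t, ζ t)) '' K) :=
    hK.image_of_continuousOn (continuousOn_id.prodMk hζ)
  have k : ∃ A : ℝ, ∀ᶠ q in 𝓝ˢ ((fun t => (t, ζ t)) '' K), P q → ‖f q‖ ≤ A := by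
    refine c.induction_on (p := fun S => ∃ A : ℝ, ∀ᶠ q in 𝓝ˢ S, P q → ‖f q‖ ≤ A) ⟨0, by simp⟩
      (fun S T hs ⟨A, hA⟩ => ⟨A, hA.filter_mono (nhdsSet_mono hs)⟩) ?_ ?_
    · rintro S T ⟨A, hA⟩ ⟨B, hB⟩
      refine ⟨max A B, ?_⟩
      rw [nhdsSet_union, eventually_sup]
      exact ⟨hA.mono fun q h1 h2 => le_max_of_le_left (h1 h2),
        hB.mono fun q h1 h2 => le_max_of_le_right (h1 h2)⟩
    · rintro _ ⟨t, ht, rfl⟩
      obtain ⟨A, hA⟩ := h t ht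
      exact ⟨_, nhdsWithin_le_nhds (interior_mem_nhds.2 hA), A,
        subset_interior_iff_mem_nhdsSet.1 subset_rfl⟩
  obtain ⟨A, hA⟩ := k
  obtain ⟨ε, ε0, hε⟩ := c.exists_cthickening_subset_open isOpen_interior
    (subset_interior_iff_mem_nhdsSet.2 hA)
  refine ⟨A, ε, ε0, fun t ht z hz => interior_subset (hε (mem_cthickening_of_dist_le _ (t, ζ t)
    _ _ ⟨t, ht, rfl⟩ ?_))⟩
  simpa [Prod.dist_eq, ε0.le, dist_eq_norm] using hz

/-- The section lies in the chart over the disc of radius `r`. -/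
structure In (a j : Fin n) (O : Set (ℂ × ℂ)) (Y : ℂ × ℂ → V n) (b : ℂ) (R r : ℝ) (g : ℂ → V n) :
    Prop where
  r0 : 0 < r
  sub : ball b r ⊆ ball b R
  ne : ∀ t ∈ ball b r, g t j ≠ 0
  mem : ∀ t ∈ ball b r, (t, g t a / g t j) ∈ O
  pp : ∀ t ∈ ball b r, Pp (g t) (Y (t, g t a / g t j))
  cont : ContinuousOn (fun t => g t a / g t j) (ball b r)

lemma setup (hR : 0 < R) (hg : Nm D.X (ball b R) g id) :
    ∃ a j O Y r, Chart D.X a j O Y ∧ In a j O Y b R r g := by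
  obtain ⟨a, j, O, Y, c, z, z1, z2⟩ := hg.rx D.cn D.nonreg isOpen_ball (mem_ball_self hR)
  have c1 : ContinuousAt (fun t => ((t, g t) : Pt n)) b :=
    continuousAt_id.prodMk (hg.1.1.continuousOn.continuousAt (ball_mem_nhds b hR))
  obtain ⟨r, r0, hr⟩ := Metric.eventually_nhds_iff_ball.1
    ((c1.eventually (c.ev D.cn z1 z2)).and (ball_mem_nhds b hR))
  have k := fun t ht => (hr t ht).1 (hg.2.2 t (hr t ht).2)
  have c2 : ContinuousOn g (ball b r) := hg.1.1.continuousOn.mono fun t ht => (hr t ht).2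
  exact ⟨a, j, O, Y, r, c, r0, fun t ht => (hr t ht).2, fun t ht => (k t ht).1,
    fun t ht => (k t ht).2.1, fun t ht => ⟨_, (k t ht).1, (k t ht).2.2⟩,
    (continuousOn_pi.1 c2 a).div (continuousOn_pi.1 c2 j) fun t ht => (k t ht).1⟩

/-- The closed annulus. -/
def An (b : ℂ) (ρ₁ ρ₀ : ℝ) : Set ℂ := closedBall b ρ₀ \ ball b ρ₁

lemma An.cpt (b : ℂ) (ρ₁ ρ₀ : ℝ) : IsCompact (An b ρ₁ ρ₀) :=
  (isCompact_closedBall b ρ₀).diff isOpen_ball

lemma An.mem {t : ℂ} {ρ₁ ρ₀ : ℝ} (h1 : ρ₁ ≤ ‖t - b‖) (h0 : ‖t - b‖ ≤ ρ₀) : t ∈ An b ρ₁ ρ₀ :=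
  ⟨mem_closedBall_iff_norm.2 h0, fun q => (mem_ball_iff_norm.1 q).not_ge h1⟩

lemma An.sub (r0 : 0 < r) (ρ₁ : ℝ) : An b ρ₁ (r / 2) ⊆ ball b r :=
  fun _ ht => closedBall_subset_ball (half_lt_self r0) ht.1

lemma An.ne {t : ℂ} {ρ₁ ρ₀ : ℝ} (h1 : 0 < ρ₁) (ht : t ∈ An b ρ₁ ρ₀) : t ≠ b :=
  fun e => ht.2 (e ▸ mem_ball_self h1)

/-- The sections of the sequence enter the chart over the annulus. -/
lemma near (h1 : NearStmt) (c : Chart D.X a j O Y) (I : In a j O Y b R r g) {u : Filter ℕ}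
    {s : ℕ → ℂ → V n} (hs : ∀ k, Nm D.X (ball b R) (s k) id) (hc : Cv u (ball b R \ {b}) s g)
    {ρ₁ ε : ℝ} (ρ0 : 0 < ρ₁) (ε0 : 0 < ε) : ∀ᶠ k in u, ∀ t ∈ An b ρ₁ (r / 2),
      ‖s k t a / s k t j - g t a / g t j‖ ≤ ε ∧ Pp (s k t) (Y (t, s k t a / s k t j)) := by
  have sb := An.sub (b := b) I.r0 ρ₁
  obtain ⟨η, η0, hη⟩ := h1 n D.X a j O ((fun t => (t, g t a / g t j)) '' An b ρ₁ (r / 2)) Y ε
    D.cn c ((An.cpt _ _ _).image_of_continuousOn (continuousOn_id.prodMk (I.cont.mono sb)))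
    (by rintro _ ⟨t, ht, rfl⟩; exact I.mem t (sb ht)) ε0
  filter_upwards [hc.unif (An.cpt b ρ₁ (r / 2)) (fun t ht => ⟨I.sub (sb ht), An.ne ρ0 ht⟩) η0]
    with k hk t ht
  obtain ⟨k1, k2, -, k3⟩ := hη _ ⟨t, ht, rfl⟩ (t, s k t) ((hs k).2.2 t (I.sub (sb ht)))
    (by simpa using η0.le) (((Pp.refl _).d2 (I.pp t (sb ht))).symm.trans_le (hk t ht))
  exact ⟨k2, _, k1, k3⟩

lemma bs (c : Chart D.X a j O Y) (I : In a j O Y b R r g) (hR : 0 < R)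
    (hg : Nm D.X (ball b R) g id) {u : Ultrafilter ℕ} {s : ℕ → ℂ → V n}
    (hs : ∀ k, Nm D.Xo (ball b R) (s k) id) (hc : Cv u (ball b R \ {b}) s g) :
    Bs D.X D.U u b R s g a j O Y :=
  ⟨hR, hs, hg, hc, c, I.mem b (mem_ball_self I.r0), I.pp b (mem_ball_self I.r0)⟩

end LimX

open LimX in
theorem limA (h : CoreStmt) (h1 : NearStmt) : LimAStmt := by
  intro n D Q d κ u b R s s' g hQ κ0 hR hB hs hs' hg hc hc' hU
  obtain ⟨a, j, O, Y, r, c, I⟩ := setup hR hg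
  have B := bs c I hR hg hs hc
  have B' := bs c I hR hg hs' hc'
  refine h n D Q d κ u b R s s' g a j O Y hQ κ0 hB B (fun k => (nm_op.1 (hs' k)).1) hc' ?_ ?_
    ⟨r / 2, half_pos I.r0, fun ρ₁ ρ0 => ?_⟩
  · have m : b + (R / 2 : ℝ) ∈ ball b R \ {b} := ⟨by
      rw [mem_ball_iff_norm, add_sub_cancel_left, Complex.norm_real, Real.norm_of_nonneg
        (half_pos hR).le]
      exact half_lt_self hR, by simpa using hR.ne'⟩
    obtain ⟨ρ₀, ρ0, H⟩ := D.wind Q d u b R s s' g a j O Y hQ.1 hQ.2.1 B B' ⟨_, m.1, hU _ m⟩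
    exact ⟨ρ₀, ρ0, fun ρ₁ q => (H ρ₁ q).mono fun k hk ρ hρ w hw =>
      ⟨(hk ρ hρ w hw).1, fun e => (hk ρ hρ w hw).2 e hQ.2.2⟩⟩
  · obtain ⟨ρ₀, N, ρ0, H⟩ := D.deg u b R s' g a j O Y B'
    exact ⟨ρ₀, N, ρ0, fun ρ₁ q => (H ρ₁ q).mono fun k hk ρ hρ => (hk ρ hρ).1⟩
  · have sb := An.sub (b := b) I.r0 ρ₁
    obtain ⟨A, ε, ε0, H⟩ := bnd (P := fun _ => True) (f := qq D.Φ Q Y) (An.cpt b ρ₁ (r / 2))
      (I.cont.mono sb) fun t ht => ⟨_, ((D.frm.qq_an c (I.mem t (sb ht))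
        (cone_pp (hU t ⟨I.sub (sb ht), An.ne ρ0 ht⟩) (I.pp t (sb ht)).symm)
          Q).continuousAt.norm.eventually (ge_mem_nhds (lt_add_one _))).mono fun _ q _ => q⟩
    refine ⟨(ε + ε) ^ (D.m * d) * A, ?_⟩
    filter_upwards [near h1 c I (fun k => (nm_op.1 (hs k)).1) hc ρ0 ε0,
      near h1 c I (fun k => (nm_op.1 (hs' k)).1) hc' ρ0 ε0] with k k1 k2 t t1 t2
    have m := An.mem t1 t2
    rw [Gf, norm_mul, norm_pow]
    refine mul_le_mul (pow_le_pow_left₀ (norm_nonneg _) ?_ _) (H t m _ (k1 t m).1 trivial)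
      (norm_nonneg _) (by positivity)
    rw [← sub_sub_sub_cancel_right _ _ (g t a / g t j)]
    exact (norm_sub_le _ _).trans (add_le_add (k2 t m).1 (k1 t m).1)

open LimX in
theorem limB (h : CoreStmt) (h1 : NearStmt) (h2 : WindStmt) : LimBStmt := by
  intro n D Q d κ u b R s g hQ κ0 hR hB hs hg hc hU
  obtain ⟨a, j, O, Y, r, c, I⟩ := setup hR hg
  have B := bs c I hR hg hs hc
  refine h n D Q d κ u b R s (fun _ => g) g a j O Y hQ κ0 hB B (fun _ => hg)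
    (cv_const ((crv_lh hg.1 isOpen_ball).mono sdiff_subset)) ?_
    ⟨r / 2, 0, half_pos I.r0, fun ρ₁ ρ0 => .of_forall fun _ ρ hρ w hw => ?_⟩
    ⟨r / 2, half_pos I.r0, fun ρ₁ ρ0 => ?_⟩
  · obtain ⟨ρ₀, ρ0, H⟩ := D.windB Q d u b R s g a j O Y hQ.1 hQ.2.1 B hU
    exact ⟨ρ₀, ρ0, fun ρ₁ q => (H ρ₁ q).mono fun k hk ρ hρ w hw =>
      ⟨(hk ρ hρ w hw).1, fun e => (hk ρ hρ w hw).2 e hQ.2.2⟩⟩
  · obtain ⟨-, w1, w2, -⟩ := h2 b ρ (ρ0.trans_le hρ.1)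
    have sb : closedBall b ρ ⊆ ball b r :=
      closedBall_subset_ball (hρ.2.trans_lt (half_lt_self I.r0))
    exact (w1 _ _ _ hw (w2 _ ((continuousOn_pi.1 hg.1.1.continuousOn j).mono (sb.trans I.sub))
      fun t ht => I.ne t (sb ht))).le
  · have sb := An.sub (b := b) I.r0 ρ₁
    have nU : ∀ t ∈ ball b r, Y (t, g t a / g t j) ∉ Cone D.U := fun t ht q =>
      hU t (I.sub ht) (cone_pp q (I.pp t ht))
    obtain ⟨A, ε, ε0, H⟩ := bnd (P := fun q => Y q ∈ Cone D.U)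
      (f := fun q => (g q.1 a / g q.1 j - q.2) ^ (D.m * d) * qq D.Φ Q Y q) (An.cpt b ρ₁ (r / 2))
      (I.cont.mono sb) fun t ht => by
        obtain ⟨ζ, φ, -, -, z3, z4⟩ := D.pole a j O Y c _ (I.mem t (sb ht))
          (fun q => An.ne ρ0 ht (hB t (I.sub (sb ht)) q)) (nU t (sb ht))
        have an := AnalyticAt.aeval_mvPolynomial z3 Q
        simp only [aeval_eq_eval] at an
        have c1 : ContinuousAt (fun w => (w, g w a / g w j)) t :=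
          continuousAt_id.prodMk (I.cont.continuousAt (isOpen_ball.mem_nhds (sb ht)))
        have e : ∀ᶠ w in 𝓝 t, g w a / g w j = ζ w := by
          filter_upwards [c1.eventually z4, isOpen_ball.mem_nhds (sb ht)] with w w1 w2
          by_contra q
          exact nU w w2 (w1.1.2 q)
        refine ⟨‖eval (fun i => φ i (t, g t a / g t j)) Q‖ + 1, ?_⟩
        filter_upwards [z4, continuousAt_fst.eventually e,
          an.continuousAt.norm.eventually (ge_mem_nhds (lt_add_one _))] with q q1 q2 q3 q4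
        have e2 : (fun i => φ i q) = (q.2 - ζ q.1) ^ D.m • fun i => fc D.Φ Y i q :=
          funext (q1.2 (q1.1.1 q4))
        rw [e2, eval_smul_hom hQ.2.1, norm_mul, norm_pow, norm_pow, ← pow_mul] at q3
        rw [q2, norm_mul, norm_pow, norm_sub_rev]
        exact q3
    refine ⟨A, ?_⟩
    filter_upwards [near h1 c I (fun k => (nm_op.1 (hs k)).1) hc ρ0 ε0] with k k1 t t1 t2
    have m := An.mem t1 t2
    exact H t m _ (k1 t m).1 (cone_pp ((nm_op.1 (hs k)).2 t (I.sub (sb m))) (k1 t m).2.symm)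

end Pool.Agent.MP_c69980_ag.E2
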