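import Pool.Agent.MP_c69980_ag.E2.LocBA

/-!
Open surfaces fibred over an elliptic curve: the model at a bad value.
-/

set_option autoImplicit false

noncomputable section

namespace Pool.Agent.MP_c69980_ag.E2

open MvPolynomial Metric Filter Topology Set Real
open H60 H4 E1

namespace LocBX

variable {n : ℕ} {D : Fib n} {Q : PR 3} {d : ℕ} {η κ ρ₀ δ : ℝ} {b l : ℂ} {s s' : ℂ → V n}

/-- The hypotheses on a pair of sections. -/
def Hy (D : Fib n) (η ρ₀ δ : ℝ) (b : ℂ) (s s' : ℂ → V n) : Prop :=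
  Sc D.Xo (ball b (4 * ρ₀)) s ∧ Sc D.X (ball b (4 * ρ₀)) s' ∧
    (((∀ t ∈ ball b (4 * ρ₀), s' t ∈ Cone D.U) ∧ Aw D η (b + 2 * ρ₀) (s (b + 2 * ρ₀))) ∨
      ∀ t ∈ ball b (4 * ρ₀), s' t ∉ Cone D.U) ∧
    ∀ t ∈ ball b (4 * ρ₀), δ ≤ ‖t - b‖ → d2 (s t) (s' t) ≤ δ

lemma Hy.shift (h : Hy D η ρ₀ δ (b + l) s s') (hl : l ∈ D.L.lattice) :
    Hy D η ρ₀ δ b (fun t => s (t + l)) fun t => s' (t + l) := by
  obtain ⟨a1, a2, a3, a4⟩ := h
  have m : ∀ t ∈ ball b (4 * ρ₀), t + l ∈ ball (b + l) (4 * ρ₀) := fun t ht => by simpa using ht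
  refine ⟨D.shift a1 hl m, a2.shift D.cov hl m, a3.imp (fun q => ⟨fun t ht => q.1 _ (m t ht), ?_⟩)
    fun q t ht => q _ (m t ht), fun t ht q => a4 _ (m t ht) (by simpa using q)⟩
  have := q.2
  rw [add_right_comm] at this
  exact (aw_shift hl).1 this

lemma small {x : ℝ} (hx : 0 < x) : ∀ᶠ k : ℕ in uf, 1 / ((k : ℝ) + 1) ≤ x :=
  uf_le (tendsto_one_div_add_atTop_nhds_zero_nat.eventually (ge_mem_nhds hx))

lemma seq (h1 : LimAStmt) (h2 : LimBStmt) (h3 : CptStmt) (h4 : HurStmt) (h5 : E1.LiftStmt)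
    (hQ : QV D Q d) (hη : 0 < η) (hκ : 0 < κ) (hρ : 0 < ρ₀)
    (hb : ∀ t ∈ D.B, t ≠ b → 4 * ρ₀ ≤ ‖t - b‖) {S S' : ℕ → ℂ → V n}
    (H : ∀ᶠ k : ℕ in uf, Hy D η ρ₀ (1 / ((k : ℝ) + 1)) b (S k) (S' k)) :
    ∃ ρ C : ℝ, 0 < ρ ∧ ρ ≤ ρ₀ ∧ ∀ᶠ k in uf, Ap D Q d (S k) (S' k) b ρ (ρ / 2) (κ * ρ ^ 2) C := by
  have nb : ∀ t ∈ ball b (4 * ρ₀), t ∈ D.B → t = b := fun t ht q => by_contra fun e =>
    (hb t q e).not_gt (mem_ball_iff_norm.1 ht)
  have lt : 3 * ρ₀ < 4 * ρ₀ := by linarith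
  have sub : ball b (3 * ρ₀) ⊆ ball b (4 * ρ₀) := ball_subset_ball lt.le
  have loc : ∀ t ∈ ball b (4 * ρ₀), ∃ r : ℝ, 0 < r ∧ ball t r ⊆ ball b (4 * ρ₀) :=
    Metric.isOpen_iff.1 isOpen_ball
  obtain ⟨g, hg, cv0⟩ := h3 n D uf _ S isOpen_ball fun t ht =>
    (loc t ht).imp fun r q => ⟨q.1, H.mono fun k hk => hk.1.mono q.2⟩
  have cv : Cv uf (ball b (4 * ρ₀) \ {b}) S g := cv0.mono fun t ht =>
    ⟨ht.1, fun q => ht.2 (nb t ht.1 q)⟩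
  have oP : ∀ R, IsOpen (ball b R \ {b}) := fun R => isOpen_ball.sdiff isClosed_singleton
  have cv' : Cv uf (ball b (4 * ρ₀) \ {b}) S' g := cv_of_close cv (oP _) fun t ht => by
    obtain ⟨r, r0, hr⟩ := loc t ht.1
    have p : 0 < ‖t - b‖ / 2 := half_pos (norm_pos_iff.2 (sub_ne_zero.2 ht.2))
    have s1 : ball t (min r (‖t - b‖ / 2)) ⊆ ball b (4 * ρ₀) :=
      (ball_subset_ball (min_le_left _ _)).trans hr
    refine ⟨_, lt_min r0 p, H.mono fun k hk => hk.2.1.1.mono s1, fun ε ε0 => ?_⟩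
    filter_upwards [H, small p, small ε0] with k k1 k2 k3 w hw
    refine (k1.2.2.2 w (s1 hw) (k2.trans ?_)).trans k3
    have a1 := (mem_ball_iff_norm.1 hw).trans_le (min_le_right _ _)
    have a2 := norm_sub_le (w - b) (w - t)
    rw [show w - b - (w - t) = t - b by ring] at a2
    linarith
  have t1 : b + 2 * ρ₀ ∈ ball b (4 * ρ₀) \ {b} := by
    refine ⟨?_, by simpa using hρ.ne'⟩
    rw [mem_ball_iff_norm, add_sub_cancel_left, norm_mul, Complex.norm_real, Real.norm_eq_abs,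
      abs_of_pos hρ, Complex.norm_two]
    linarith
  obtain ⟨G, g1, g2⟩ := h5 n g b _ _ lt hg.1
  have hG : Nm D.X (ball b (3 * ρ₀)) G id := (hg.mono sub).nm D.cn g1 g2
  have lift : ∀ {T F : ℕ → ℂ → V n}, Cv uf (ball b (4 * ρ₀) \ {b}) T g →
      (∀ᶠ k in uf, ∀ w ∈ ball b (3 * ρ₀), Pp (F k w) (T k w)) →
      Cv uf (ball b (3 * ρ₀) \ {b}) F G := fun c e =>
    cv_congr (c.mono (sdiff_subset_sdiff_left sub)) (oP _) (fun t ht =>
      (Metric.isOpen_iff.1 isOpen_ball t ht.1).imp fun r q =>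
        ⟨q.1, e.mono fun k hk w hw => hk w (q.2 hw)⟩) fun t ht => (g2 t ht.1).symm
  obtain ⟨F, f1, f2⟩ := seq_lift h5 (fun _ _ _ => op_pp D.cn) lt (H.mono fun k hk => hk.1)
  have fin : ∀ {F' : ℕ → ℂ → V n}, (∀ᶠ k in uf, ∀ w ∈ ball b (3 * ρ₀), Pp (S' k w) (F' k w)) →
      (∃ ρ C : ℝ, 0 < ρ ∧ 4 * ρ ≤ 3 * ρ₀ ∧
        ∀ᶠ k in uf, Ap D Q d (F k) (F' k) b ρ (ρ / 2) (κ * ρ ^ 2) C) →
      ∃ ρ C : ℝ, 0 < ρ ∧ ρ ≤ ρ₀ ∧
        ∀ᶠ k in uf, Ap D Q d (S k) (S' k) b ρ (ρ / 2) (κ * ρ ^ 2) C := by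
    rintro F' e ⟨ρ, C, a1, a2, a3⟩
    have s1 : ball b (3 * ρ) ⊆ ball b (3 * ρ₀) := ball_subset_ball (by linarith)
    refine ⟨ρ, C, a1, by linarith, ?_⟩
    filter_upwards [e, a3, f2] with k k1 k2 k3
    exact k2.pp hQ.2.1 (fun t ht => (nm_op.1 (f1 k)).1.rx D.cn D.nonreg isOpen_ball (s1 ht))
      (fun t ht => (k3 t (s1 ht)).symm) fun t ht => k1 t (s1 ht)
  have nb' := fun t ht => nb t (sub ht)
  rcases Ultrafilter.eventually_or.1 (H.mono fun k hk => hk.2.2.1) with hA | hB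
  · obtain ⟨F', f3, f4⟩ := seq_lift h5 (fun _ _ _ => op_pp D.cn) lt
      ((H.and hA).mono fun k hk => sc_op.2 ⟨hk.1.2.1, hk.2.1⟩)
    have hU := (h4 n D.W D.U uf _ S g D.eqp (oP _) (punct_conn b _) (fun t ht =>
      (loc t ht.1).imp fun r q => ⟨q.1, H.mono fun k hk w hw => (hk.1.2 w (q.2 hw)).2⟩) cv
      fun t ht => D.cone (hg.2 t ht.1)).resolve_right fun q => by
        obtain ⟨k, k1, k2⟩ := (hA.and (cv.unif isCompact_singleton (singleton_subset_iff.2 t1)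
          (half_pos hη))).exists
        linarith [k1.2 _ (hg.2 _ t1.1) (q _ t1), k2 _ rfl]
    exact fin (f4.mono fun k hk w hw => (hk w hw).symm) (h1 n D Q d κ uf b _ F F' G hQ hκ
      (by linarith) nb' f1 f3 hG (lift cv f2) (lift cv' f4) fun t ht =>
        cone_pp (hU t ⟨sub ht.1, ht.2⟩) (g2 t ht.1).symm)
  · have e := bd_eq D isOpen_ball (convex_ball b _).isPreconnected hg cv' t1.1 t1
      (fun q => t1.2 (nb _ t1.1 q)) ((H.and hB).mono fun k hk => ⟨hk.1.2.1, hk.2⟩)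
    obtain ⟨k, k1, k2⟩ := (e.and hB).exists
    exact fin (F' := fun _ => G) (e.mono fun k hk w hw => (hk w (sub hw)).trans (g2 w hw))
      (h2 n D Q d κ uf b _ F G hQ hκ (by linarith) nb' f1 hG (lift cv f2) fun t ht q =>
        k2 t (sub ht) (cone_pp q ((k1 t (sub ht)).trans (g2 t ht))))

end LocBX

open LocBX in
theorem locB (h1 : LimAStmt) (h2 : LimBStmt) (h3 : CptStmt) (h4 : HurStmt) (h5 : E1.LiftStmt)
    (h6 : LatStmt) : LocBStmt := by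
  intro n D Q d η κ ρ₀ hQ hη hκ hρ hb
  by_contra hc
  have key : ∀ k : ℕ, ∃ b ∈ D.B, ∃ s s', Hy D η ρ₀ (1 / ((k : ℝ) + 1)) b s s' ∧
      ∀ ρ ∈ Icc (1 / ((k : ℝ) + 1)) ρ₀, ¬Ap D Q d s s' b ρ (ρ / 2) (κ * ρ ^ 2) k := fun k => by
    by_contra! q
    have p : (0 : ℝ) < 1 / ((k : ℝ) + 1) := by positivity
    exact hc ⟨_, _, k, p, p, fun b e s s' a1 a2 a3 a4 => q b e s s' ⟨a1, a2, a3, a4⟩⟩
  choose b hB s s' hy na using key
  obtain ⟨R, -, hR⟩ := (h6 D.L).1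
  choose l hl hl' using hR
  obtain ⟨c, -, hc⟩ := ulim uf (isCompact_closedBall 0 R) (f := fun k => b k - l (b k))
    (.of_forall fun k => mem_closedBall_zero_iff.2 (hl' _))
  have mB : ∀ k, b k - l (b k) ∈ D.B := fun k =>
    (b_shift h6 (hl (b k))).1 (by rw [sub_add_cancel]; exact hB k)
  have e : ∀ᶠ k in uf, b k = c + l (b k) :=
    (hc.eventually (eventually_nhdsWithin_iff.1 (b_ev h6 D c))).mono fun k q =>
      sub_eq_iff_eq_add.1 (by_contra fun z => q z (mB k))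
  have cB : c ∈ D.B := by
    obtain ⟨k, hk⟩ := e.exists
    exact (b_shift h6 (hl (b k))).1 (hk ▸ hB k)
  obtain ⟨ρ, C, a1, a2, a3⟩ := seq h1 h2 h3 h4 h5 hQ hη hκ hρ (hb c cB)
    (S := fun k t => s k (t + l (b k))) (S' := fun k t => s' k (t + l (b k)))
    (e.mono fun k q => Hy.shift (q ▸ hy k) (hl _))
  obtain ⟨k, k1, k2, k3, k4⟩ := (e.and (a3.and ((small a1).and
    (uf_le (tendsto_natCast_atTop_atTop.eventually_ge_atTop C))))).exists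
  refine na k ρ ⟨k3, a2⟩ (Ap.mono ?_ k4)
  have := k2.shift hQ.2.1 (hl _) fun t ht => (sc_op.1 (hy k).1).1.rx D.cn D.nonreg isOpen_ball
    (ball_subset_ball (by linarith) (k1 ▸ ht : t ∈ ball (b k) (3 * ρ)))
  rwa [← k1] at this

end Pool.Agent.MP_c69980_ag.E2
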