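import Pool.Agent.MP_c69980_ag.E2.BaseB

/-!
Open surfaces fibred over an elliptic curve: the holomorphic model at a good value.
-/

set_option autoImplicit false

noncomputable section

namespace Pool.Agent.MP_c69980_ag.E2

open MvPolynomial Metric Filter Topology Set Real
open H60 H4 E1

namespace LocGX

variable {n : ℕ} {X : Set (Pt n)} {a j : Fin n} {O : Set (ℂ × ℂ)} {Y : ℂ × ℂ → V n} {p : ℂ × ℂ}
  {y : V n} {c l : ℂ} {A : Set ℂ} {s s' g : ℂ → V n} {D : Fib n} {Q : PR 3} {d : ℕ}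
  {η κ ρ ρ₁ r ε δ C : ℝ}

/-- Translation of the model by a period. -/
lemma ap_shift (hQ : Q.IsHomogeneous d) (hl : l ∈ D.L.lattice)
    (hx : ∀ t ∈ ball c (3 * ρ), (t, s (t + l)) ∈ Rx D.X)
    (h : Ap D Q d (fun t => s (t + l)) (fun t => s' (t + l)) c ρ r ε C) :
    Ap D Q d s s' (c + l) ρ r ε C := by
  obtain ⟨G, E, g1, g2, g3⟩ := h
  have m : ∀ (R : ℝ) (t : ℂ), t - l ∈ ball c R ↔ t ∈ ball (c + l) R := fun R t => by
    rw [mem_ball_iff_norm, mem_ball_iff_norm, show t - l - c = t - (c + l) by ring]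
  refine ⟨fun t => G (t - l), fun t => E (t - l),
    g1.comp (differentiableOn_id.sub_const l) fun t ht => (m _ t).2 ht,
    g2.comp (continuousOn_id.sub continuousOn_const) fun t ht =>
      ⟨(m _ t).2 ht.1, fun q => ht.2 ((m _ t).1 q)⟩, fun t ht => ?_⟩
  obtain ⟨t, rfl⟩ : ∃ t', t = t' + l := ⟨t - l, by ring⟩
  have ht' : t ∈ ball c (3 * ρ) := by simpa using ht
  obtain ⟨b1, b2, b3⟩ := g3 t ht'
  obtain ⟨z1, z2⟩ := zp_inv (y' := s' (t + l)) hQ hl (hx t ht') (.refl _) (.refl _)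
  have e0 : t + l ∈ D.L.lattice ↔ t ∈ D.L.lattice := add_mem_cancel_right hl
  simp only [add_sub_cancel_right, add_sub_add_right_eq_sub, bt_shift _ _ hl, z1, e0]
  refine ⟨b1, b2, fun q => ⟨(b3 q).1, (b3 q).2.1, fun q' => ?_⟩⟩
  rw [z2 q']
  exact (b3 q).2.2 q'

open LocX in
/-- The model inside one chart. -/
lemma ap_chart (h : Chart D.X a j O Y) (hV : QV D Q d) (hs : LH (ball c (3 * ρ)) s)
    (hs' : LH (ball c (3 * ρ)) s') (H : ∀ t ∈ ball c (3 * ρ), t ∉ D.L.lattice ∧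
      s t ∈ Cone D.U ∧ ((t, s t a / s t j) ∈ O ∧ Pp (s t) (Y (t, s t a / s t j))) ∧
      ((t, s' t a / s' t j) ∈ O ∧ Pp (s' t) (Y (t, s' t a / s' t j))) ∧
      ‖Gf D.Φ Q (D.m * d) a j Y s s' t‖ ≤ C ∧
      |3 * (D.m * d) * EE Y (t, s t a / s t j, s' t a / s' t j)| ≤ ε) :
    Ap D Q d s s' c ρ 0 ε C := by
  have v : ∀ t ∈ ball c (3 * ρ), AnalyticAt ℂ (fun w => s w a / s w j) t ∧
      AnalyticAt ℂ (fun w => s' w a / s' w j) t := fun t ht => by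
    obtain ⟨-, -, b1, b2, -⟩ := H t ht
    exact ⟨(hs.ratio ht a (h.eq b1.1 b1.2).1).1, (hs'.ratio ht a (h.eq b2.1 b2.2).1).1⟩
  refine ⟨Gf D.Φ Q (D.m * d) a j Y s s',
    fun t => 3 * (D.m * d) * EE Y (t, s t a / s t j, s' t a / s' t j), fun t ht => ?_,
    continuousOn_const.mul (((EE_cont h).comp
      (f := fun t => (t, s t a / s t j, s' t a / s' t j))
      (fun t ht => ContinuousAt.continuousWithinAt (continuousAt_id.prodMk
        ((v t ht).1.continuousAt.prodMk (v t ht).2.continuousAt)))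
      fun t ht => ⟨(H t ht).2.2.1.1, (H t ht).2.2.2.1.1⟩).mono sdiff_subset), fun t ht => ?_⟩
  · obtain ⟨-, b0, b1, -⟩ := H t ht
    exact (((((v t ht).2.sub (v t ht).1).pow _).mul ((D.frm.qq_an h b1.1
      (cone_pp b0 b1.2.symm) Q).comp_of_eq (f := fun w => (w, s w a / s w j))
        (analyticAt_id.prod (v t ht).1) rfl)).differentiableAt).differentiableWithinAt
  · obtain ⟨b, b0, b1, b2, b3, b4⟩ := H t ht
    refine ⟨b3, fun q => absurd q b, fun _ => ⟨b4, ?_⟩⟩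
    have := point (t := t) (l := 0) (z := s t a / s t j) (z' := s' t a / s' t j) (y := s t)
      (y' := s' t) (G := Gf D.Φ Q (D.m * d) a j Y s s') h hV.1 hV.2.1 (zero_mem _)
    simp only [sub_zero] at this
    exact this b1.1 b2.1 (cone_pp b0 b1.2.symm) b1.2 b2.2 rfl

/-- The bound near a point of a good fibre. -/
lemma bd_nhds (h : Chart D.X a j O Y) (hQ : Q.IsHomogeneous d) (hp : p ∈ O) (hB : p.1 ∉ D.B) :
    ∃ A : ℝ, ∀ᶠ q : ℂ × ℂ × ℂ in 𝓝 (p.1, p.2, p.2), Y (q.1, q.2.1) ∈ Cone D.U →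
      (Y p ∈ Cone D.U ∨ Y (q.1, q.2.2) ∉ Cone D.U) →
      ‖(q.2.2 - q.2.1) ^ (D.m * d) * qq D.Φ Q Y (q.1, q.2.1)‖ ≤ A := by
  have c1 : Tendsto (fun q : ℂ × ℂ × ℂ => (q.1, q.2.1)) (𝓝 (p.1, p.2, p.2)) (𝓝 p) :=
    Continuous.tendsto' (by fun_prop) _ _ rfl
  have c2 : Tendsto (fun q : ℂ × ℂ × ℂ => (q.1, q.2.2)) (𝓝 (p.1, p.2, p.2)) (𝓝 p) :=
    Continuous.tendsto' (by fun_prop) _ _ rfl
  by_cases hU : Y p ∈ Cone D.U
  · have c3 : Tendsto (fun q : ℂ × ℂ × ℂ => (q.2.2 - q.2.1) ^ (D.m * d)) (𝓝 (p.1, p.2, p.2))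
        (𝓝 ((p.2 - p.2) ^ (D.m * d))) := Continuous.tendsto' (by fun_prop) _ _ rfl
    exact ⟨_, ((c3.mul ((D.frm.qq_an h hp hU Q).continuousAt.tendsto.comp c1)).norm.eventually
      (ge_mem_nhds (lt_add_one _))).mono fun q hq _ _ => hq⟩
  obtain ⟨ζ, φ, -, -, z3, z4⟩ := D.pole a j O Y h p hp hB hU
  have c3 : AnalyticAt ℂ (fun q => eval (fun i => φ i q) Q) p := by
    have := AnalyticAt.aeval_mvPolynomial z3 Q
    simp only [aeval_eq_eval] at this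
    exact this
  refine ⟨‖eval (fun i => φ i p) Q‖ + 1, ?_⟩
  filter_upwards [c1.eventually z4, c2.eventually z4, (c3.continuousAt.tendsto.comp
    c1).norm.eventually (ge_mem_nhds (lt_add_one _))] with q q1 q2 q3 u1 u2
  have e1 : q.2.2 = ζ q.1 := by_contra fun e => u2.resolve_left hU (q2.1.2 e)
  have e2 : (fun i => φ i (q.1, q.2.1)) =
      (q.2.1 - ζ q.1) ^ D.m • fun i => fc D.Φ Y i (q.1, q.2.1) :=
    funext fun i => q1.2 (q1.1.1 u1) i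
  refine le_of_eq_of_le ?_ q3
  rw [Function.comp_apply, e2, eval_smul_hom hQ, ← pow_mul, e1, norm_mul, norm_mul, norm_pow,
    norm_pow, norm_sub_rev]
  rfl

/-- Near a boundary point of a good fibre no point is away from the boundary. -/
lemma not_aw (h : Chart D.X a j O Y) (hp : p ∈ O) (hB : p.1 ∉ D.B) (hU : Y p ∉ Cone D.U)
    (hy : Pp y (Y p)) (hη : 0 < η) : ∀ᶠ x in 𝓝 ((p.1, y) : Pt n), ¬Aw D η x.1 x.2 := by
  obtain ⟨ζ, φ, z1, z2, -, z4⟩ := D.pole a j O Y h p hp hB hU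
  have c0 : Tendsto (fun x : Pt n => x.1) (𝓝 (p.1, y)) (𝓝 p.1) := continuousAt_fst
  have c1 : Tendsto (fun x : Pt n => (x.1, ζ x.1)) (𝓝 (p.1, y)) (𝓝 p) :=
    c0.prodMk_nhds (z2 ▸ z1.continuousAt.tendsto.comp c0)
  have c2 := d2_lim (continuousAt_snd : Tendsto (fun x : Pt n => x.2) (𝓝 (p.1, y)) (𝓝 y))
    ((h.an hp).continuousAt.tendsto.comp c1) (hy.ne (h.ne hp)) (h.ne hp)
  rw [(d2_eq_zero (hy.ne (h.ne hp)) (h.ne hp)).2 hy] at c2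
  filter_upwards [c1.eventually z4, c1.eventually (h.nhds hp), c2.eventually (gt_mem_nhds hη)]
    with x x1 x2 x3 hx
  exact (hx _ (h.mem x2) fun q => x1.1.1 q rfl).not_gt x3

/-- A tube around a section lies in the chart. -/
lemma tube (hN : NearStmt) (hX : Cn X) (h : Chart X a j O Y) (hr : 0 < r)
    (hO : closedBall p r ⊆ O) (o : IsOpen A) (hc : p.1 ∈ A) (hg : Sc X A g)
    (hy : Pp (g p.1) (Y p)) : ∃ ρ₀ : ℝ, 0 < ρ₀ ∧ closedBall p.1 ρ₀ ⊆ A ∧ ∀ ε : ℝ, 0 < ε →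
      ∃ η : ℝ, 0 < η ∧ ∀ t ∈ closedBall p.1 ρ₀, ∀ y, (t, y) ∈ X → d2 y (g t) ≤ η →
        (t, y a / y j) ∈ closedBall p r ∧ Pp y (Y (t, y a / y j)) ∧
          ‖y a / y j - g t a / g t j‖ ≤ ε := by
  obtain ⟨b1, b2⟩ := h.ev_pc (τ := id) hX (hO (mem_closedBall_self hr.le)) hc
    continuousWithinAt_id hg.1.pc (eventually_nhdsWithin_of_forall hg.2) rfl hy
  rw [o.nhdsWithin_eq hc] at b1 b2
  obtain ⟨ρ₀, ρ0, hρ⟩ := Metric.nhds_basis_closedBall.eventually_iff.1 ((o.eventually_mem hc).and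
    (b2.and (b1.eventually (closedBall_mem_nhds p (half_pos hr)))))
  refine ⟨ρ₀, ρ0, fun t ht => (hρ ht).1, fun ε ε0 => ?_⟩
  obtain ⟨η, η0, hη⟩ := hN n X a j O (closedBall p (r / 2)) Y (min ε (r / 2)) hX h
    (isCompact_closedBall _ _) ((closedBall_subset_closedBall (half_le_self hr.le)).trans hO)
    (lt_min ε0 (half_pos hr))
  refine ⟨η, η0, fun t ht y hy hd => ?_⟩
  obtain ⟨-, ⟨-, k1⟩, k2⟩ := hρ ht
  obtain ⟨n1, n2, -, n4⟩ := hη _ k2 (t, y) hy (by simpa using η0.le)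
    (((Pp.refl y).d2 k1).symm.trans_le hd)
  refine ⟨?_, ⟨_, n1, n4⟩, n2.trans (min_le_left _ _)⟩
  have k3 : dist (t, y a / y j) (t, g t a / g t j) ≤ r / 2 := by
    rw [dist_prod_same_left, dist_eq_norm]
    exact n2.trans (min_le_right _ _)
  exact (dist_triangle _ _ _).trans ((add_le_add k3 k2).trans_eq (add_halves r))

/-- The hypotheses on a pair of sections. -/
def Hy (D : Fib n) (η ρ₁ δ : ℝ) (c : ℂ) (s s' : ℂ → V n) : Prop :=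
  Far D (2 * ρ₁) c ∧ Sc D.Xo (ball c ρ₁) s ∧ Sc D.X (ball c ρ₁) s' ∧
    (Aw D η c (s c) ∨ ∀ t ∈ ball c ρ₁, s' t ∉ Cone D.U) ∧ ∀ t ∈ ball c ρ₁, d2 (s t) (s' t) ≤ δ

lemma Hy.shift (hL : LatStmt) (hl : l ∈ D.L.lattice) (h : Hy D η ρ₁ δ (c + l) s s') :
    Hy D η ρ₁ δ c (fun t => s (t + l)) fun t => s' (t + l) := by
  obtain ⟨a1, a2, a3, a4, a5⟩ := h
  have m : ∀ t ∈ ball c ρ₁, t + l ∈ ball (c + l) ρ₁ := fun t ht => by simpa using ht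
  exact ⟨(far_shift hL hl).1 a1, D.shift a2 hl m, a3.shift D.cov hl m,
    a4.imp (aw_shift hl).1 fun q t ht => q _ (m t ht), fun t ht => a5 _ (m t ht)⟩

open LocX in
/-- The limit form. -/
lemma lim (h1 : CptStmt) (h2 : NearStmt) (hV : QV D Q d) (hη : 0 < η) (hκ : 0 < κ) (hρ : 0 < ρ₁)
    {u : Ultrafilter ℕ} {cs : ℕ → ℂ} {δs : ℕ → ℝ} {S S' : ℕ → ℂ → V n}
    (hc : Tendsto cs u (𝓝 c)) (hδ : Tendsto δs u (𝓝 0))
    (H : ∀ k, Hy D η ρ₁ (δs k) (cs k) (S k) (S' k)) : ∃ ρ A : ℝ, 0 < ρ ∧ ρ ≤ ρ₁ / 3 ∧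
      ∀ᶠ k in u, ∀ C, A ≤ C → Ap D Q d (S k) (S' k) (cs k) ρ 0 (κ * ρ ^ 2) C := by
  have nB : ∀ {c : ℂ}, Far D (2 * ρ₁) c → ∀ t ∈ ball c ρ₁, t ∉ D.B := fun q t ht =>
    (q.near (t' := t)).notMem (by linarith [mem_ball_iff_norm.1 ht])
  have fc := nB ((far_closed D _).mem_of_tendsto hc (.of_forall fun k => (H k).1))
  have hb : ∀ᶠ k in u, ball c (ρ₁ / 2) ⊆ ball (cs k) ρ₁ :=
    (hc.eventually (closedBall_mem_nhds c (half_pos hρ))).mono fun k q =>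
      ball_subset_ball' (by linarith [mem_closedBall'.1 q])
  obtain ⟨g, hg, cv⟩ := h1 n D u (ball c (ρ₁ / 2)) S isOpen_ball fun t ht => by
    obtain ⟨r, r0, hr⟩ := Metric.isOpen_iff.1 isOpen_ball t ht
    exact ⟨r, r0, hb.mono fun k q => (H k).2.1.mono (hr.trans q)⟩
  replace cv : Cv u (ball c (ρ₁ / 2)) S g :=
    cv.mono fun t ht => ⟨ht, fc t (ball_subset_ball (half_le_self hρ.le) ht)⟩
  have c0 : c ∈ ball c (ρ₁ / 2) := mem_ball_self (half_pos hρ)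
  have cB := fc c (mem_ball_self hρ)
  obtain ⟨a, j, O, Y, h, z, hp, hy⟩ := hg.rx D.cn D.nonreg isOpen_ball c0
  obtain ⟨A, hA⟩ := bd_nhds (p := (c, z)) h hV.2.1 hp cB
  have c1 : Tendsto (fun q : ℂ × ℂ × ℂ => (q.1, q.2.1)) (𝓝 (c, z, z)) (𝓝 (c, z)) :=
    Continuous.tendsto' (by fun_prop) _ _ rfl
  obtain ⟨r, r0, hr⟩ := Metric.nhds_basis_closedBall.eventually_iff.1
    (hA.and (c1.eventually (h.nhds hp)))
  have mb : ∀ {t w w' : ℂ}, (t, w) ∈ closedBall (c, z) r → (t, w') ∈ closedBall (c, z) r →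
      (t, w, w') ∈ closedBall (c, z, z) r := fun q q' => by
    simp only [← closedBall_prod_same, mem_prod] at q q' ⊢
    exact ⟨q.1, q.2, q'.2⟩
  have hO : closedBall (c, z) r ⊆ O := fun q hq => (hr (mb (t := q.1) (w := q.2) hq hq)).2
  obtain ⟨ρ₀, ρ0, sub, tb⟩ := tube (p := (c, z)) h2 D.cn h r0 hO isOpen_ball c0 hg hy
  obtain ⟨ρ, p0, p1, p2⟩ : ∃ ρ : ℝ, 0 < ρ ∧ ρ ≤ ρ₀ / 4 ∧ ρ ≤ ρ₁ / 3 :=
    ⟨min (ρ₀ / 4) (ρ₁ / 3), by positivity, min_le_left _ _, min_le_right _ _⟩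
  have M0 : (0 : ℝ) < 3 * (D.m * d) := by
    have := D.frm.m0
    have := hV.1
    positivity
  obtain ⟨ε, hε, ε0⟩ := ((EE_small h (isCompact_closedBall _ _) hO
    (by positivity : 0 < κ * ρ ^ 2 / (3 * (D.m * d)))).and self_mem_nhdsWithin).exists
  obtain ⟨θ, θ0, tb⟩ := tb (ε / 2) (half_pos ε0)
  have aw : ∀ᶠ k in u, Y (c, z) ∈ Cone D.U ∨ ¬Aw D η (cs k) (S k (cs k)) := by
    by_cases hU : Y (c, z) ∈ Cone D.U
    · exact .of_forall fun _ => .inl hU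
    obtain ⟨w, w1, w2⟩ := cv.pt c0 hc
    filter_upwards [(hc.prodMk_nhds w1).eventually (not_aw (p := (c, z)) h hp cB hU hy hη), w2]
      with k k1 k2 using .inr fun q => k1 (q.pp k2.symm)
  refine ⟨ρ, A, p0, p2, ?_⟩
  filter_upwards [aw, hc.eventually (closedBall_mem_nhds c p0),
    cv.unif (isCompact_closedBall c ρ₀) sub (by positivity : 0 < θ / 4),
    hδ.eventually (ge_mem_nhds (by positivity : 0 < θ / 4))] with k k1 k2 k3 k4 C hC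
  obtain ⟨a1, a2, a3, a4, a5⟩ := H k
  have s1 : ball (cs k) (3 * ρ) ⊆ ball (cs k) ρ₁ := ball_subset_ball (by linarith)
  have s2 : ball (cs k) (3 * ρ) ⊆ closedBall c ρ₀ :=
    (ball_subset_ball' (by linarith [mem_closedBall.1 k2])).trans ball_subset_closedBall
  refine ap_chart h hV (a2.1.mono s1) (a3.1.mono s1) fun t ht => ?_
  have m1 := s1 ht
  have m2 := s2 ht
  have u1 := (a2.2 t m1).2
  obtain ⟨b1, b2, b3⟩ := tb t m2 _ (a2.2 t m1).1 ((k3 t m2).trans (by linarith))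
  obtain ⟨b1', b2', b3'⟩ := tb t m2 _ (a3.2 t m1) (by
    have := H84.d2_tri (a3.1.ne m1) (a2.1.ne m1) (hg.1.ne (sub m2))
    rw [d2_symm (S' k t) (S k t)] at this
    linarith [a5 t m1, k3 t m2])
  refine ⟨fun q => nB a1 t m1 (lat_sub D q), u1, ⟨hO b1, b2⟩, ⟨hO b1', b2'⟩,
    ((hr (mb b1 b1')).1 (cone_pp u1 b2.symm) (k1.imp_right fun q e =>
      a4.resolve_left q t m1 (cone_pp e b2'))).trans hC, ?_⟩
  rw [abs_mul, abs_of_pos M0, mul_comm, ← le_div_iff₀ M0]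
  refine hε _ _ _ b1 b1' ((norm_sub_le_norm_sub_add_norm_sub _ (g t a / g t j) _).trans ?_)
  rw [norm_sub_rev (g t a / g t j)]
  linarith

end LocGX

open LocGX in
theorem locG (h1 : CptStmt) (h2 : NearStmt) (h3 : LatStmt) : LocGStmt := by
  intro n D Q d η κ ρ₁ hV hη hκ hρ
  obtain ⟨R, -, hR⟩ := (h3 D.L).1
  suffices H : ∃ δ ρ₂ C : ℝ, 0 < δ ∧ 0 < ρ₂ ∧ ∀ c s s', c ∈ closedBall (0 : ℂ) R →
      Hy D η ρ₁ δ c s s' → ∃ ρ ∈ Icc ρ₂ (ρ₁ / 3), Ap D Q d s s' c ρ 0 (κ * ρ ^ 2) C by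
    obtain ⟨δ, ρ₂, C, δ0, ρ2, H⟩ := H
    refine ⟨δ, ρ₂, C, δ0, ρ2, fun c s s' a1 a2 a3 a4 a5 => ?_⟩
    obtain ⟨l, hl, hc⟩ := hR c
    obtain ⟨c, rfl⟩ : ∃ c', c = c' + l := ⟨c - l, by ring⟩
    have hy := Hy.shift h3 hl ⟨a1, a2, a3, a4, a5⟩
    obtain ⟨ρ, b1, b2⟩ := H c _ _ (by simpa using hc) hy
    exact ⟨ρ, b1, ap_shift hV.2.1 hl (fun t ht => (sc_op.1 hy.2.1).1.rx D.cn D.nonreg isOpen_ball
      (ball_subset_ball (by linarith [b1.2]) ht)) b2⟩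
  by_contra q
  have : ∀ k : ℕ, ∃ c s s', c ∈ closedBall (0 : ℂ) R ∧ Hy D η ρ₁ (1 / (k + 1)) c s s' ∧
      ¬∃ ρ ∈ Icc (1 / (k + 1) : ℝ) (ρ₁ / 3), Ap D Q d s s' c ρ 0 (κ * ρ ^ 2) k := fun k => by
    by_contra e
    refine q ⟨1 / (k + 1), 1 / (k + 1), k, by positivity, by positivity, fun c s s' b1 b2 => ?_⟩
    by_contra e'
    exact e ⟨c, s, s', b1, b2, e'⟩
  choose cs S S' b1 b2 b3 using this
  obtain ⟨c, -, hc⟩ := ulim uf (isCompact_closedBall 0 R) (.of_forall b1)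
  have hδ : Tendsto (fun k : ℕ => (1 / (k + 1) : ℝ)) uf (𝓝 0) :=
    tendsto_one_div_add_atTop_nhds_zero_nat.mono_left uf_le
  obtain ⟨ρ, A, ρ0, p1, H⟩ := lim h1 h2 hV hη hκ hρ hc hδ b2
  obtain ⟨k, k1, k2, k3⟩ := (H.and ((hδ.eventually (ge_mem_nhds ρ0)).and
    ((tendsto_natCast_atTop_atTop.mono_left uf_le).eventually (eventually_ge_atTop A)))).exists
  exact b3 k ⟨ρ, ⟨k2, p1⟩, k1 _ k3⟩

end Pool.Agent.MP_c69980_ag.E2
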