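import Pool.Agent.MP_c69980_ag.E2.Main0
import Pool.Agent.MP_c69980_ag.I2.Asm

/-!
Open surfaces fibred over an elliptic curve: the analytic statement.
-/

set_option autoImplicit false

namespace Pool.Agent.MP_c69980_ag.E2

theorem main : MainStmt := main_of (I2.pS E1.lat aCov aG aCrit)

end Pool.Agent.MP_c69980_ag.E2
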