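import Pool.Agent.MP_c69980_ag.E2.Spec
import Pool.Agent.MP_c69980_ag.E1.Wind

/-!
Pairing the zeros and the poles of a quotient.
-/

set_option autoImplicit false

noncomputable section

namespace Pool.Agent.MP_c69980_ag.E2

open Metric Filter Topology Set
open E1

namespace PairX

theorem prod_ev {m : ℕ} (a : Fin m → ℂ) (t : ℂ) : ∀ᶠ w in 𝓝[≠] t, ∏ i, (w - a i) ≠ 0 := by
  have h : ∀ i, ∀ᶠ w in 𝓝[≠] t, w ≠ a i := fun i => by
    by_cases e : t = a i
    · rw [← e]; exact self_mem_nhdsWithin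
    · exact nhdsWithin_le_nhds (eventually_ne_nhds e)
  filter_upwards [eventually_all.2 h] with w hw
  exact Finset.prod_ne_zero_iff.2 fun i _ => sub_ne_zero.2 (hw i)

/-- Division by the zeros in a smaller disc. -/
theorem fac (h1 : WindStmt) (h2 : FacStmt) {b : ℂ} {R ρ : ℝ} {f : ℂ → ℂ} {k : ℤ} (hρ : 0 < ρ)
    (hR : ρ < R) (hf : DifferentiableOn ℂ f (ball b R)) (hk : Wn b ρ f k) :
    ∃ (m : ℕ) (a : Fin m → ℂ) (F : ℂ → ℂ), k = m ∧ (∀ i, a i ∈ ball b ρ) ∧
      DifferentiableOn ℂ F (ball b R) ∧ (∀ t, f t = (∏ i, (t - a i)) * F t) ∧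
      ∀ t ∈ closedBall b ρ, F t ≠ 0 := by
  classical
  have s1 : closedBall b ρ ⊆ ball b R := closedBall_subset_ball hR
  obtain ⟨m, hz⟩ := h2 ℂ b ρ f hρ (hf.continuousOn.mono s1) (fun t ht => hk.ne hρ ht)
    fun t ht => ⟨fun _ => 1, f, hf.analyticAt (isOpen_ball.mem_nhds
      (s1 (ball_subset_closedBall ht))), Eventually.of_forall fun w =>
        ⟨continuousAt_const, one_ne_zero, (one_smul _ _).symm⟩⟩
  have e := (h1 b ρ hρ).2.1 f _ _ hk (hz.wn h1 hρ)
  obtain ⟨a, U, ha, hU, hf'⟩ := hz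
  let F : ℂ → ℂ := fun t => if t ∈ closedBall b ρ then U t else f t / ∏ i, (t - a i)
  have e1 : ∀ t, f t = (∏ i, (t - a i)) * F t := fun t => by
    by_cases ht : t ∈ closedBall b ρ
    · simp only [F, if_pos ht]
      exact (hf' t ht).2
    · simp only [F, if_neg ht]
      refine (mul_div_cancel₀ _ (Finset.prod_ne_zero_iff.2 fun i _ => sub_ne_zero.2 ?_)).symm
      rintro rfl
      exact ht (ball_subset_closedBall (ha i))
  have dp : Differentiable ℂ fun t : ℂ => ∏ i, (t - a i) := by fun_prop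
  have d1 : ∀ t ∈ ball b R, ∏ i, (t - a i) ≠ 0 → DifferentiableAt ℂ F t := fun t ht h0 => by
    refine (((hf.differentiableAt (isOpen_ball.mem_nhds ht)).div (dp t) h0)).congr_of_eventuallyEq ?_
    filter_upwards [(dp t).continuousAt.eventually_ne h0] with w hw
    exact eq_div_of_mul_eq hw (by rw [mul_comm, ← e1])
  refine ⟨m, a, F, e, ha, fun t ht => ?_, e1, fun t ht => ?_⟩
  · by_cases h0 : ∏ i, (t - a i) = 0
    · obtain ⟨i, -, hi⟩ := Finset.prod_eq_zero_iff.1 h0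
      have m1 : closedBall b ρ ∈ 𝓝 t := by
        rw [sub_eq_zero.1 hi]
        exact mem_of_superset (isOpen_ball.mem_nhds (ha i)) ball_subset_closedBall
      refine (Complex.analyticAt_of_differentiable_on_punctured_nhds_of_continuousAt ?_
        ((hU.continuousAt m1).congr ?_)).differentiableAt.differentiableWithinAt
      · filter_upwards [prod_ev a t, nhdsWithin_le_nhds (isOpen_ball.mem_nhds ht)] with w w1 w2
        exact d1 w w2 w1
      · filter_upwards [m1] with w hw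
        simp only [F, if_pos hw]
    · exact (d1 t ht h0).differentiableWithinAt
  · simp only [F, if_pos ht]
    exact (hf' t ht).1

theorem far {b t y : ℂ} {r r' : ℝ} (hy : ‖y - b‖ ≤ r') (ht : r ≤ ‖t - b‖) (h : 2 * r' ≤ r) :
    r / 2 ≤ ‖t - y‖ := by
  have := norm_sub_le_norm_sub_add_norm_sub t y b
  linarith

theorem logq {b t x y : ℂ} {r r' : ℝ} (hr : 0 < r) (hx : ‖x - b‖ ≤ r') (hy : ‖y - b‖ ≤ r')
    (ht : r ≤ ‖t - b‖) (h : 2 * r' ≤ r) :
    Real.log ‖t - x‖ - Real.log ‖t - y‖ ≤ 4 * r' / r := by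
  have h1 := far hx ht h
  have h2 := far hy ht h
  have h3 : 0 < ‖t - x‖ := by linarith
  have h4 : 0 < ‖t - y‖ := by linarith
  have h5 : ‖t - x‖ ≤ ‖t - y‖ + 2 * r' := by
    have a1 := norm_sub_le_norm_sub_add_norm_sub t y x
    have a2 := norm_sub_le_norm_sub_add_norm_sub y b x
    rw [norm_sub_rev b x] at a2
    linarith
  have h6 : 0 ≤ r' := (norm_nonneg _).trans hx
  rw [← Real.log_div h3.ne' h4.ne']
  refine (Real.log_le_sub_one_of_pos (div_pos h3 h4)).trans ?_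
  rw [div_sub_one h4.ne', div_le_div_iff₀ h4 hr]
  nlinarith

end PairX

theorem pair (h1 : WindStmt) (h2 : FacStmt) : PairStmt := by
  intro N ε r hε hr
  obtain ⟨M, hM⟩ : ∃ M : ℝ, M = (max N 0 + 1 : ℤ) := ⟨_, rfl⟩
  have M0 : 0 < M := by
    rw [hM]
    exact_mod_cast Int.lt_add_one_of_le (le_max_right N 0)
  obtain ⟨r', r0, r1, r2⟩ : ∃ r' : ℝ, 0 < r' ∧ 2 * r' ≤ r ∧ M * (4 * r' / r) ≤ ε := by
    refine ⟨min (r / 2) (ε * r / (4 * M)), by positivity, ?_, ?_⟩
    · linarith [min_le_left (r / 2) (ε * r / (4 * M))]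
    · have a1 := min_le_right (r / 2) (ε * r / (4 * M))
      rw [le_div_iff₀ (by positivity)] at a1
      rw [← mul_div_assoc, div_le_iff₀ hr]
      linarith
  refine ⟨r', r0, by linarith, ?_⟩
  intro b R ρ f h p w e hρ hρ' hR hf hh h0 hp hN hw e1 e2
  have hfw : Wn b ρ f (w + p) := (hw.mul hρ hp).congr fun t ht =>
    (div_mul_cancel₀ _ (hp.ne hρ ht)).symm
  obtain ⟨p', β, H, rfl, hβ, dH, eH, H0⟩ := PairX.fac h1 h2 hρ hR hh hp
  obtain ⟨q, α, F, hq, hα, dF, eF, -⟩ := PairX.fac h1 h2 hρ hR hf hfw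
  obtain ⟨s, rfl⟩ : ∃ s, q = p' + e + s := ⟨q - (p' + e), by omega⟩
  have H1 : ∀ t ∈ ball b R, H t ≠ 0 := fun t ht => by
    by_cases c : t ∈ closedBall b ρ
    · exact H0 t c
    · rw [mem_closedBall_iff_norm, not_le] at c
      have a1 := h0 t ht c.le
      rw [eH] at a1
      exact right_ne_zero_of_mul a1
  let γ : Fin (p' + e) → ℂ := Fin.append β fun _ => b
  have g1 : ∀ i, ‖γ i - b‖ ≤ r' := fun i => by
    refine Fin.addCases (fun i => ?_) (fun i => ?_) i
    · simp only [γ, Fin.append_left]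
      exact (mem_ball_iff_norm.1 (hβ i)).le.trans hρ'
    · simp only [γ, Fin.append_right, sub_self, norm_zero]
      exact r0.le
  have g2 : ∀ t, ∏ i, (t - γ i) = (∏ i, (t - β i)) * (t - b) ^ e := fun t => by
    simp only [γ, Fin.prod_univ_add, Fin.append_left, Fin.append_right, Fin.prod_const]
  have g3 : ∀ i, ‖α i - b‖ ≤ r' := fun i => (mem_ball_iff_norm.1 (hα i)).le.trans hρ'
  have g4 : ∀ t y : ℂ, r ≤ ‖t - b‖ → ‖y - b‖ ≤ r' → t - y ≠ 0 := fun t y ht hy =>
    norm_pos_iff.1 ((half_pos hr).trans_le (PairX.far hy ht r1))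
  refine ⟨fun t => (t - b) ^ e * ((∏ j, (t - α (Fin.natAdd _ j))) * F t) / H t,
    fun t => ∏ i, (t - γ i) / (t - α (Fin.castAdd s i)), ?_, ?_, ?_, fun t ht ht' => ⟨?_, ?_, ?_⟩⟩
  · refine DifferentiableOn.div (DifferentiableOn.mul (by fun_prop)
      (DifferentiableOn.mul (Differentiable.differentiableOn (by fun_prop)) dF)) dH H1
  · rintro rfl
    simp
  · refine continuousOn_finsetProd _ fun i _ => ContinuousOn.div (by fun_prop) (by fun_prop)
      fun t ht => g4 t _ ?_ (g3 _)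
    rwa [mem_compl_iff, mem_ball_iff_norm, not_lt] at ht
  · exact Finset.prod_ne_zero_iff.2 fun i _ => div_ne_zero (g4 t _ ht' (g1 i)) (g4 t _ ht' (g3 _))
  · rw [norm_prod, Real.log_prod fun i _ => norm_ne_zero_iff.2
      (div_ne_zero (g4 t _ ht' (g1 i)) (g4 t _ ht' (g3 _)))]
    refine (Finset.abs_sum_le_sum_abs _ _).trans
      ((Finset.sum_le_card_nsmul _ _ (4 * r' / r) fun i _ => ?_).trans ?_)
    · rw [norm_div, Real.log_div (norm_ne_zero_iff.2 (g4 t _ ht' (g1 i)))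
        (norm_ne_zero_iff.2 (g4 t _ ht' (g3 _))), abs_sub_le_iff]
      exact ⟨PairX.logq hr (g1 i) (g3 _) ht' r1, PairX.logq hr (g3 _) (g1 i) ht' r1⟩
    · rw [Finset.card_univ, Fintype.card_fin, nsmul_eq_mul]
      refine (mul_le_mul_of_nonneg_right ?_ (by positivity)).trans r2
      rw [hM]
      have a1 := le_max_left N 0
      have a2 : ((p' + e : ℕ) : ℤ) ≤ max N 0 + 1 := by omega
      exact_mod_cast a2
  · have a1 : ∏ i, (t - α (Fin.castAdd s i)) ≠ 0 :=
      Finset.prod_ne_zero_iff.2 fun i _ => g4 t _ ht' (g3 _)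
    have a2 : ∏ i, (t - β i) ≠ 0 := Finset.prod_ne_zero_iff.2 fun i _ =>
      g4 t _ ht' ((mem_ball_iff_norm.1 (hβ i)).le.trans hρ')
    have a3 := H1 t ht
    change _ = (∏ i, (t - γ i) / (t - α (Fin.castAdd s i))) * (f t / h t)
    rw [Finset.prod_div_distrib, g2, eF t, eH t, Fin.prod_univ_add (a := p' + e)]
    field_simp

end Pool.Agent.MP_c69980_ag.E2
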