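import Pool.Agent.MP_c69980_ag.E2.Spec
import Pool.Agent.MP_c69980_ag.E1.BarA

/-!
The barrier argument on discs.
-/

set_option autoImplicit false

noncomputable section

namespace Pool.Agent.MP_c69980_ag.E2

open Metric Filter Topology MeasureTheory Set
open scoped ComplexConjugate

namespace PairX

theorem int_sq (c : ℂ) (ρ : ℝ) : IntegrableOn (fun z : ℂ => ‖z - c‖ ^ 2) (ball c ρ) := by
  have hc : Continuous fun z : ℂ => ‖z - c‖ ^ 2 := by fun_prop
  exact (hc.continuousOn.integrableOn_compact (isCompact_closedBall c ρ)).mono_set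
    ball_subset_closedBall

/-- The second moment of a disc, from above. -/
theorem mom (c : ℂ) {ρ : ℝ} (hρ : 0 < ρ) :
    ∫ z in ball c ρ, ‖z - c‖ ^ 2 ≤ Real.pi * ρ ^ 2 * (13 / 16 * ρ ^ 2) := by
  have i2 : ∀ a : ℝ, IntegrableOn (fun _ : ℂ => a) (ball c ρ) := fun a =>
    integrableOn_const measure_ball_lt_top.ne
  have i3 : IntegrableOn ((ball c (ρ / 2)).indicator fun _ : ℂ => 3 / 4 * ρ ^ 2) (ball c ρ) :=
    (i2 _).indicator measurableSet_ball
  have h1 : ∫ z in ball c ρ, ‖z - c‖ ^ 2 ≤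
      ∫ z in ball c ρ, (ρ ^ 2 - (ball c (ρ / 2)).indicator (fun _ : ℂ => 3 / 4 * ρ ^ 2) z) := by
    refine setIntegral_mono_on (int_sq c ρ) ((i2 _).sub i3) measurableSet_ball fun z hz => ?_
    have h0 := norm_nonneg (z - c)
    by_cases hz' : z ∈ ball c (ρ / 2)
    · simp only [indicator_of_mem hz']
      rw [mem_ball_iff_norm] at hz'
      nlinarith
    · simp only [indicator_of_notMem hz', sub_zero]
      rw [mem_ball_iff_norm] at hz
      nlinarith
  rw [integral_sub (i2 _) i3, setIntegral_indicator measurableSet_ball,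
    inter_eq_right.2 (ball_subset_ball (by linarith)), setIntegral_const, setIntegral_const,
    E1.Bar.vol_ball c hρ, E1.Bar.vol_ball c (half_pos hρ), smul_eq_mul, smul_eq_mul] at h1
  linarith

theorem sq_add (a b : ℂ) : ‖a + b‖ ^ 2 = ‖a‖ ^ 2 + 2 * (a * conj b).re + ‖b‖ ^ 2 := by
  rw [← Complex.normSq_eq_norm_sq, ← Complex.normSq_eq_norm_sq, ← Complex.normSq_eq_norm_sq,
    Complex.normSq_add]
  ring

end PairX

theorem bar : BarStmt := by
  intro u Z c₀ R ρ₁ ρ₂ c C h1 hc hR hC hm t₀ ht₀ hb₀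
  let T : Set ℝ := (fun w => u w - c * ‖w - c₀‖ ^ 2) '' (Z ∩ ball c₀ R)
  have hT : BddAbove T := ⟨C, by
    rintro _ ⟨w, hw, rfl⟩
    have h2 := hC w hw.1 hw.2
    have h3 : 0 ≤ c * ‖w - c₀‖ ^ 2 := by positivity
    change u w - c * ‖w - c₀‖ ^ 2 ≤ C
    linarith⟩
  have hS : ∀ w ∈ Z, w ∈ ball c₀ R → u w - c * ‖w - c₀‖ ^ 2 ≤ sSup T := fun w hw hw' =>
    le_csSup hT ⟨w, ⟨hw, hw'⟩, rfl⟩
  have key : sSup T ≤ C - c * (R - ρ₂) ^ 2 := by
    by_contra hlt
    rw [not_le] at hlt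
    have h2 : max (sSup T - 3 / 16 * c * ρ₁ ^ 2) (C - c * (R - ρ₂) ^ 2) < sSup T :=
      max_lt (by have : 0 < 3 / 16 * c * ρ₁ ^ 2 := by positivity
                 linarith) hlt
    obtain ⟨_, ⟨t, ht, rfl⟩, h3⟩ :=
      exists_lt_of_lt_csSup (s := T) ⟨_, t₀, ⟨ht₀, hb₀⟩, rfl⟩ h2
    obtain ⟨h4, h5⟩ := max_lt_iff.1 h3
    change _ < u t - c * ‖t - c₀‖ ^ 2 at h4 h5
    have h6 : ‖t - c₀‖ ≤ R - ρ₂ := by
      have h7 := hC t ht.1 ht.2
      have h8 : ‖t - c₀‖ ^ 2 < (R - ρ₂) ^ 2 := lt_of_mul_lt_mul_left (by linarith) hc.le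
      exact (lt_of_pow_lt_pow_left₀ 2 (by linarith) h8).le
    obtain ⟨ρ, ⟨r1, r2⟩, a1, a2, a3⟩ := hm t ht.1 h6
    have hρ : 0 < ρ := h1.trans_le r1
    have i1 := (PairX.int_sq t ρ).const_mul c
    have h9 : u t + 3 / 16 * c * ρ ^ 2 ≤ sSup T + c * ‖t - c₀‖ ^ 2 := by
      refine E1.Bar.mean (u := fun w => u w - c * ‖w - t‖ ^ 2) (t := t) (e := t - c₀)
        (β := 2 * c) hρ (a2.sub i1) ?_ ?_
      · filter_upwards [a1] with w hw hw'
        have b1 : w ∈ ball c₀ R := by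
          rw [mem_ball_iff_norm] at hw' ⊢
          have := norm_sub_le_norm_sub_add_norm_sub w t c₀
          linarith
        have b2 := hS w (hw hw') b1
        have b3 := PairX.sq_add (w - t) (t - c₀)
        rw [sub_add_sub_cancel] at b3
        rw [b3] at b2
        linarith
      · rw [integral_sub a2 i1, integral_const_mul]
        have b4 := mul_le_mul_of_nonneg_left (PairX.mom t hρ) hc.le
        linarith
    have h10 : c * ρ₁ ^ 2 ≤ c * ρ ^ 2 :=
      mul_le_mul_of_nonneg_left (pow_le_pow_left₀ h1.le r1 2) hc.le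
    linarith
  have h11 := hS t₀ ht₀ hb₀
  linarith

end Pool.Agent.MP_c69980_ag.E2
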