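import Pool.Agent.MP_c69980_ag.E2.BaseB
import Pool.Agent.MP_c69980_ag.E1.Frm

/-!
Open surfaces fibred over an elliptic curve: local parameters at the boundary.
-/

set_option autoImplicit false

noncomputable section

namespace Pool.Agent.MP_c69980_ag.E2

open MvPolynomial Metric Filter Topology Set
open H60 H4 E1

namespace ParX

variable {n : ℕ} {K : Type} [Field K] [Algebra ℂ K]

lemma vl_prod {z : Fin n → K} {y : V n} (hy : On z y) {t : Fin 2 → K} (ht : ∀ i, Reg z y (t i))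
    (r : Finset (Fin 2)) :
    Reg z y (∏ i ∈ r, t i) ∧ vl z (∏ i ∈ r, t i) y = ∏ i ∈ r, vl z (t i) y := by
  classical
  induction r using Finset.induction_on with
  | empty => simpa using vl_one hy
  | insert i s hi ih =>
    rw [Finset.prod_insert hi, Finset.prod_insert hi, ← ih.2]
    exact vl_mul hy (ht i) ih.1

/-- Local parameters at a point. -/
lemma loc (d : Dat K n) {y : V n} (hy : y ∈ Cone d.W) : ∃ (t : Fin 2 → K) (r : Finset (Fin 2))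
    (g : PR n), eval y g ≠ 0 ∧ (∀ i, t i ≠ 0) ∧ (∀ i, vl d.z (t i) y = 0) ∧
    (∀ f, Reg d.z y f → ∃ c c', Reg d.z y c ∧ Reg d.z y c' ∧
      f = algebraMap ℂ K (vl d.z f y) + c * t 0 + c' * t 1) ∧
    (∀ w ∈ Cone d.W, eval w g ≠ 0 → (∀ i, Reg d.z w (t i)) ∧
      (w ∈ Cone d.Uo ↔ vl d.z (∏ i ∈ r, t i) w ≠ 0)) ∧
    ∀ i, (∏ j ∈ r, t j) ^ d.m * d.h i ∈ pluri d.z d.D d.m (Projectivization.mk ℂ y hy.1) := by
  obtain ⟨hr, -, -, t, r, g, e, hm, h0, hg, g0, h1, h2⟩ := d.ld.2.2.2.2.2.2.2 _ hy.2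
  have o := Cone.on d.gen hy
  have hle : locRing d.z (Projectivization.mk ℂ y hy.1) ≤ rg o :=
    fun f hf => (PD.loc_iff d.gen hy f).1 hf
  let χ := (chi o).comp (Subalgebra.inclusion hle)
  have hχ : ∀ a, χ a = vl d.z (a : K) y := fun _ => rfl
  have hs : Function.Surjective χ.toRingHom := fun c => ⟨algebraMap ℂ _ c, χ.commutes c⟩
  have hk : Ideal.span (Set.range t) = RingHom.ker χ.toRingHom :=
    (IsLocalRing.eq_maximalIdeal hm).trans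
      (IsLocalRing.eq_maximalIdeal (RingHom.ker_isMaximal_of_surjective _ hs)).symm
  have t0 : ∀ i, (t i : K) ≠ 0 := fun i q => h0 i (Subtype.ext q)
  refine ⟨fun i => t i, r, g, (eval_mk hg hy.1).not.1 g0, t0, fun i => ?_, fun f hf => ?_,
    fun w hw w0 => ?_, h2⟩
  · exact (hk.le (Ideal.subset_span ⟨i, rfl⟩) : χ (t i) = 0)
  · have h3 : (⟨f, (PD.loc_iff d.gen hy f).2 hf⟩ - algebraMap ℂ _ (vl d.z f y) :
        locRing d.z (Projectivization.mk ℂ y hy.1)) ∈ Ideal.span (Set.range t) := by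
      rw [hk]
      change χ _ = 0
      rw [map_sub, χ.commutes, hχ]
      exact sub_self _
    obtain ⟨c, hc⟩ := Ideal.mem_span_range_iff_exists_fun.1 h3
    refine ⟨c 0, c 1, hle (c 0).2, hle (c 1).2, ?_⟩
    have h4 := congrArg Subtype.val hc
    simp only [Fin.sum_univ_two, AddMemClass.coe_add, MulMemClass.coe_mul,
      AddSubgroupClass.coe_sub, Subalgebra.coe_algebraMap] at h4
    linear_combination -h4
  · obtain ⟨k1, k2⟩ := h1 _ hw.2 ((eval_mk hg hw.1).not.2 w0)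
    have ow := Cone.on d.gen hw
    have k3 : ∀ i, Reg d.z w (t i) := fun i => (PD.loc_iff d.gen hw _).1 (k1 i)
    have k4 := (vl_prod ow k3 r).1
    refine ⟨k3, Iff.trans ⟨fun h => h.2, fun h => ⟨hw.1, h⟩⟩
      (k2.trans ((PD.loc_iff d.gen hw _).trans ⟨fun h q => ?_, fun h => (vl_inv ow ⟨k4, h⟩).1⟩))⟩
    have k5 := (vl_mul ow k4 h).2
    rw [mul_inv_cancel₀ (Finset.prod_ne_zero_iff.2 fun i _ => t0 i), (vl_one ow).2, q,
      zero_mul] at k5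
    exact one_ne_zero k5

/-- A local equation of the boundary. -/
lemma loc2 (d : Dat K n) {y : V n} (hy : y ∈ Cone d.W) : ∃ g : PR n, eval y g ≠ 0 ∧
    ∃ (F : PR n) (e : ℕ), F.IsHomogeneous e ∧ aeval d.z F ≠ 0 ∧
      ∀ w ∈ Cone d.W, eval w g ≠ 0 → (w ∈ Cone d.Uo ↔ eval w F ≠ 0) := by
  obtain ⟨t, r, g, g0, t0, -, -, h, -⟩ := loc d hy
  obtain ⟨F, G, e, hF, hG, G0, he⟩ := (vl_prod (Cone.on d.gen hy) (h y hy g0).1 r).1
  refine ⟨g * G, by rw [map_mul]; exact mul_ne_zero g0 G0, F, e, hF, fun q => ?_,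
    fun w hw w0 => ?_⟩
  · rw [q, zero_div] at he
    exact Finset.prod_ne_zero_iff.2 (fun i _ => t0 i) he
  · rw [map_mul, mul_ne_zero_iff] at w0
    rw [(h w hw w0.1).2, he, vl_eq (Cone.on d.gen hw) hF hG w0.2, div_ne_zero_iff,
      and_iff_left w0.2]

lemma an_eval (P : PR n) (y : V n) : AnalyticAt ℂ (fun w : V n => eval w P) y := by
  simpa [aeval_eq_eval] using
    AnalyticAt.aeval_mvPolynomial (analyticAt_pi_iff.1 (analyticAt_id (z := y))) P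

lemma fd_lin {F a b s t : ℂ × ℂ → ℂ} {k : ℂ} {p : ℂ × ℂ} (ha : AnalyticAt ℂ a p)
    (hb : AnalyticAt ℂ b p) (hs : AnalyticAt ℂ s p) (ht : AnalyticAt ℂ t p) (s0 : s p = 0)
    (t0 : t p = 0) (h : F =ᶠ[𝓝 p] fun q => k + a q * s q + b q * t q) (v : ℂ × ℂ) :
    fderiv ℂ F p v = a p * fderiv ℂ s p v + b p * fderiv ℂ t p v := by
  have h1 := ((ha.differentiableAt.hasFDerivAt.fun_mul hs.differentiableAt.hasFDerivAt).const_add
    k).fun_add (hb.differentiableAt.hasFDerivAt.fun_mul ht.differentiableAt.hasFDerivAt)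
  rw [h.fderiv_eq, h1.fderiv]
  simp [s0, t0]

variable {a j : Fin n} {U : Set (ℂ × ℂ)} {Y : ℂ × ℂ → V n} {p : ℂ × ℂ}

/-- Good coordinates at a point of a chart. -/
lemma pack (h1 : JacStmt) (d : Dat K n) (hX : Cov d.L d.W d.X) (hW : WC d.W)
    (h : Chart d.X a j U Y) (hp : p ∈ U) : ∃ a' b' j' : Fin n, d.wd a' b' j' ≠ 0 ∧
      Reg d.z (Y p) (d.z a' / d.z j') ∧ Reg d.z (Y p) (d.z b' / d.z j') ∧
      jb (fun q => vl d.z (d.z a' / d.z j') (Y q)) (fun q => vl d.z (d.z b' / d.z j') (Y q)) p ≠ 0 ∧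
      (∀ h0 : Y p ≠ 0, ∀ s ∈ pluri d.z d.D d.m (Projectivization.mk ℂ _ h0),
        Reg d.z (Y p) (s / d.wd a' b' j' ^ d.m)) ∧
      ∀ᶠ q in 𝓝 p, Y q ∈ Cone d.Uo → ∀ i, Reg d.z (Y q) (d.h i / d.wd a' b' j' ^ d.m) := by
  obtain ⟨a', b', j', U', Y', φ, hc, -, ev, hj⟩ := FrmX.trans hX hW h hp
  obtain ⟨hq, hy⟩ := ev.self_of_nhds
  obtain ⟨w0, -, -, w3⟩ := h1 K n d a' b' j' U' Y' hc _ hq
  have o : ∀ q ∈ U', On d.z (Y' q) := fun q hq => Cone.on d.gen (hc.2.2 q hq).2.2.2.1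
  have co : ∀ q ∈ U', ∀ i, Reg d.z (Y' q) (d.z i / d.z j') ∧
      vl d.z (d.z i / d.z j') (Y' q) = Y' q i := fun q hq => PD.coord (o q hq) (hc.2.2 q hq).1
  have k1 : (fun q => vl d.z (d.z a' / d.z j') (Y q)) =ᶠ[𝓝 p] fun q => (φ q).1 := by
    filter_upwards [ev] with q ⟨q1, q2⟩
    rw [q2.vl (o _ q1) (co _ q1 _).1, (co _ q1 _).2, (hc.2.2 _ q1).2.1]
  have k2 : (fun q => vl d.z (d.z b' / d.z j') (Y q)) =ᶠ[𝓝 p] fun q => (φ q).2 := by
    filter_upwards [ev] with q ⟨q1, q2⟩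
    rw [q2.vl (o _ q1) (co _ q1 _).1, (co _ q1 _).2, (hc.2.2 _ q1).2.2.1]
  refine ⟨a', b', j', w0, hy.reg (co _ hq _).1, hy.reg (co _ hq _).1, by rwa [jb_congr k1 k2],
    fun h0 s hs => hy.reg (w3 (hy.symm.ne h0) s ?_), ?_⟩
  · obtain ⟨c, -, hc'⟩ := id hy
    rwa [(Projectivization.mk_eq_mk_iff' ℂ _ _ h0 (hy.symm.ne h0)).2 ⟨c, hc'.symm⟩] at hs
  · filter_upwards [ev] with q ⟨q1, q2⟩ q3 i
    exact q2.reg ((h1 K n d a' b' j' U' Y' hc _ q1).2.2.1 (cone_pp q3 q2.symm) i)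

end ParX

open ParX in
theorem par (h1 : JacStmt) (h2 : WCStmt) (h3 : CovStmt) : ParStmt := by
  intro K _ _ n d Φ H a j U Y h p hp
  have hX := h3 K n d
  have cn : ∀ q ∈ U, Y q ∈ Cone d.W := fun q hq => (hX.cone _).2 ⟨_, h.mem hq⟩
  have o : ∀ q ∈ U, On d.z (Y q) := fun q hq => Cone.on d.gen (cn q hq)
  have oe : ∀ᶠ w in 𝓝 p, On d.z (Y w) := mem_of_superset (h.nhds hp) o
  obtain ⟨a', b', j', w0, r1, r2, j0, r3, r4⟩ := pack h1 d hX (h2 n d.W d.sm) h hp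
  obtain ⟨t, r, g, g0, -, t1, hl, hU, hs⟩ := loc d (cn p hp)
  have an := fun i => vl_an (h.an hp) oe ((hU _ (cn p hp) g0).1 i)
  obtain ⟨b1, c1⟩ := vl_an (h.an hp) oe r1
  obtain ⟨b2, c2⟩ := vl_an (h.an hp) oe r2
  have lin : ∀ f, Reg d.z (Y p) f → ∃ α β : ℂ, ∀ v, fderiv ℂ (fun q => vl d.z f (Y q)) p v =
      α * fderiv ℂ (fun q => vl d.z (t 0) (Y q)) p v +
        β * fderiv ℂ (fun q => vl d.z (t 1) (Y q)) p v := fun f hf => by
    obtain ⟨c, c', k1, k2, k3⟩ := hl f hf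
    obtain ⟨m1, m2⟩ := vl_an (h.an hp) oe k1
    obtain ⟨m3, m4⟩ := vl_an (h.an hp) oe k2
    refine ⟨_, _, fd_lin (k := vl d.z f (Y p)) m1 m3 (an 0).1 (an 1).1 (t1 0) (t1 1) ?_⟩
    generalize vl d.z f (Y p) = k at k3
    filter_upwards [oe, m2, m4, (an 0).2, (an 1).2] with q q0 q1 q2 q3 q4
    have e1 := vl_mul q0 q1 q3
    have e2 := vl_mul q0 q2 q4
    have e3 := vl_add q0 (vl_const q0 k).1 e1.1
    rw [k3, (vl_add q0 e3.1 e2.1).2, e3.2, e1.2, e2.2, (vl_const q0 k).2]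
  refine ⟨fun i q => vl d.z (t i) (Y q), r, fun i q =>
    vl d.z ((∏ l ∈ r, t l) ^ d.m * d.h i / d.wd a' b' j' ^ d.m) (Y q) *
      jb (fun q => vl d.z (d.z a' / d.z j') (Y q))
        (fun q => vl d.z (d.z b' / d.z j') (Y q)) q ^ d.m,
    fun i => ⟨(an i).1, t1 i⟩, fun q => j0 ?_, fun i =>
      (vl_an (h.an hp) oe (r3 _ _ (hs i))).1.mul ((FrmX.jb_an b1 b2).pow d.m), ?_⟩
  · obtain ⟨α, β, e1⟩ := lin _ r1
    obtain ⟨α', β', e2⟩ := lin _ r2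
    simp only [jb] at q
    rw [jb, e1, e1, e2, e2]
    linear_combination (α * β' - β * α') * q
  · have ge : ∀ᶠ q in 𝓝 p, eval (Y q) g ≠ 0 :=
      ((an_eval g (Y p)).continuousAt.comp (h.an hp).continuousAt).eventually_ne g0
    filter_upwards [ge, h.nhds hp, r4, c1, c2] with q q1 q2 q3 q4 q5
    obtain ⟨k1, k2⟩ := hU _ (cn q q2) q1
    obtain ⟨k3, k4⟩ := vl_prod (o q q2) k1 r
    refine ⟨k4 ▸ k2, fun q6 i => ?_⟩
    have e : fc Φ Y i q = vl d.z (d.h i / d.wd a' b' j' ^ d.m) (Y q) *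
        jb (fun q => vl d.z (d.z a' / d.z j') (Y q))
          (fun q => vl d.z (d.z b' / d.z j') (Y q)) q ^ d.m := by
      simpa [fc, Dat.wd] using
        H a j U Y h q q2 0 (zero_mem _) 1 1 0 i _ _ one_ne_zero q4 q5 w0 (q3 q6 i)
    rw [e, mul_div_assoc, (vl_mul (o q q2) (H4.vl_pow (o q q2) k3 _).1 (q3 q6 i)).2,
      (H4.vl_pow (o q q2) k3 _).2, k4, mul_assoc]

open ParX in
theorem eqp (h : CovStmt) : EqpStmt := by
  intro K _ _ n d
  have hX := h K n d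
  refine ⟨⟨d.sub, fun y hy => ?_⟩, ?_⟩
  · obtain ⟨g, g0, F, e, -, -, h1⟩ := loc2 d hy
    refine ⟨fun w => eval w F, an_eval F y, ?_⟩
    filter_upwards [(an_eval g y).continuousAt.eventually_ne g0] with w w0 hw using h1 w hw w0
  · obtain ⟨s, s1, s2⟩ := (Submodule.fg_span_iff_fg_span_finset_subset {g : PR n |
      ∃ (F : PR n) (e : ℕ), F.IsHomogeneous e ∧ aeval d.z F ≠ 0 ∧
        ∀ w ∈ Cone d.W, eval w g ≠ 0 → (w ∈ Cone d.Uo ↔ eval w F ≠ 0)}).1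
      (IsNoetherian.noetherian (Ideal.span _))
    have s3 : ∀ g ∈ s, ∃ (F : PR n) (e : ℕ), F.IsHomogeneous e ∧ aeval d.z F ≠ 0 ∧
        ∀ w ∈ Cone d.W, eval w g ≠ 0 → (w ∈ Cone d.Uo ↔ eval w F ≠ 0) := fun g hg => s1 hg
    choose! F e hF F0 hU using s3
    have hB : (∏ g ∈ s, F g).IsHomogeneous (∑ g ∈ s, e g) :=
      IsHomogeneous.prod s F e hF
    refine ⟨∏ g ∈ s, F g, ⟨⟨_, hB⟩, ?_⟩, fun x hx x0 => ?_⟩
    · by_contra hn
      have h0 : aeval d.z (∏ g ∈ s, F g) ≠ 0 := by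
        rw [map_prod]
        exact Finset.prod_ne_zero_iff.2 F0
      refine h0 ((d.gen.1 _ _ hB).2 fun P hP => ?_)
      obtain ⟨t, ht⟩ := (hX.cone P.rep).1 ⟨P.rep_nonzero, by rwa [Projectivization.mk_rep]⟩
      by_contra h1
      exact hn ⟨(t, P.rep), ht, h1⟩
    · have hw : x.2 ∈ Cone d.W := (hX.cone _).2 ⟨x.1, hx⟩
      obtain ⟨g, g0, hg⟩ := loc2 d hw
      by_contra h1
      refine g0 ((?_ : Submodule.span (PR n) _ ≤ RingHom.ker (eval x.2))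
        (s2.le (Submodule.subset_span hg)))
      rw [Submodule.span_le]
      intro g' hg'
      by_contra h2
      rw [map_prod] at h1
      exact x0 ((hU g' hg' _ hw h2).2 (Finset.prod_ne_zero_iff.1 h1 g' hg'))

end Pool.Agent.MP_c69980_ag.E2
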