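import Pool.Agent.MP_c69980_ag.E2.Spec

/-!
Open surfaces fibred over an elliptic curve: from the function field to the analytic package.
-/

set_option autoImplicit false

noncomputable section

namespace Pool.Agent.MP_c69980_ag.E2

open MvPolynomial Metric Filter Topology Set
open H60 H4 E1

variable {n : ℕ}

/-- The hypotheses of the theorem: a smooth projective model `W` of the open surface `Uo`. -/
structure Dat (K : Type) [Field K] [Algebra ℂ K] (n : ℕ) where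
  W : Set (PS n)
  Uo : Set (PS n)
  z : Fin n → K
  D : Fin 2 → Derivation ℂ K K
  m : ℕ
  h : Fin 3 → K
  L : PeriodPair
  u : W → PS 3
  sm : Smo W
  sub : Uo ⊆ W
  ld : LDat Uo z W z id m D h
  mor : IsMor u
  ell : ∀ x, u x ∈ Ell L
  nc : ∃ x y, u x ≠ u y

section

variable {K : Type} [Field K] [Algebra ℂ K]

lemma Dat.cl (d : Dat K n) : IsZClosed d.W := d.ld.1
lemma Dat.gen (d : Dat K n) : GenPt d.W d.z := d.ld.2.1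
lemma Dat.tr (d : Dat K n) : Algebra.trdeg ℂ K = 2 := by simpa using d.ld.2.2.1
lemma Dat.li (d : Dat K n) : LinearIndependent K d.D := d.ld.2.2.2.1
lemma Dat.m0 (d : Dat K n) : 0 < d.m := d.ld.2.2.2.2.1

lemma Dat.ind (d : Dat K n) : AlgebraicIndependent ℂ ![d.h 1 / d.h 0, d.h 2 / d.h 0] := by
  have : (fun i : Fin 2 => d.h i.succ / d.h 0) = ![d.h 1 / d.h 0, d.h 2 / d.h 0] := by
    funext i
    fin_cases i <;> rfl
  exact this ▸ d.ld.2.2.2.2.2.2.1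

/-- The pull-back of the cone to the universal cover of the elliptic curve. -/
def Dat.X (d : Dat K n) : Set (Pt n) :=
  {x | ∃ (h : x.2 ≠ 0) (hw : Projectivization.mk ℂ x.2 h ∈ d.W),
    Pp (d.u ⟨_, hw⟩).rep (th d.L x.1)}

/-- The two-form of a pair of coordinates. -/
def Dat.wd (d : Dat K n) (a b j : Fin n) : K := Wd d.D (d.z a / d.z j) (d.z b / d.z j)

end

/-! ### Row PD: derivatives of regular functions -/

def PDStmt : Prop := ∀ (K : Type) [Field K] [Algebra ℂ K] (n : ℕ) (d : Dat K n) (a b j : Fin n)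
  (U : Set (ℂ × ℂ)) (Y : ℂ × ℂ → V n), WCh d.W a b j U Y → ∀ q ∈ U, d.wd a b j ≠ 0 ∧
  ∀ f, Reg d.z (Y q) f → ∀ i, Reg d.z (Y q) (pd d.D ![d.z a / d.z j, d.z b / d.z j] i f) ∧
    vl d.z (pd d.D ![d.z a / d.z j, d.z b / d.z j] i f) (Y q) =
      fderiv ℂ (fun p => vl d.z f (Y p)) q (![(1, 0), (0, 1)] i)

def JacStmt : Prop := ∀ (K : Type) [Field K] [Algebra ℂ K] (n : ℕ) (d : Dat K n) (a b j : Fin n)
  (U : Set (ℂ × ℂ)) (Y : ℂ × ℂ → V n), WCh d.W a b j U Y → ∀ q ∈ U, d.wd a b j ≠ 0 ∧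
  (∀ f g, Reg d.z (Y q) f → Reg d.z (Y q) g → Reg d.z (Y q) (Wd d.D f g / d.wd a b j) ∧
    vl d.z (Wd d.D f g / d.wd a b j) (Y q) =
      jb (fun p => vl d.z f (Y p)) (fun p => vl d.z g (Y p)) q) ∧
  (Y q ∈ Cone d.Uo → ∀ i, Reg d.z (Y q) (d.h i / d.wd a b j ^ d.m)) ∧
  ∀ h0 : Y q ≠ 0, ∀ s ∈ pluri d.z d.D d.m (Projectivization.mk ℂ _ h0),
    Reg d.z (Y q) (s / d.wd a b j ^ d.m)

/-! ### Row Cov: the cover and the functions that come from the base -/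

def CovStmt : Prop := ∀ (K : Type) [Field K] [Algebra ℂ K] (n : ℕ) (d : Dat K n), Cov d.L d.W d.X

section

variable {K : Type} [Field K] [Algebra ℂ K]

/-- `G` is the function `℘ (t)`, and `A` vanishes over the lattice. -/
def GP (d : Dat K n) (G A : K) : Prop :=
  (∀ s : ℂ, G ≠ algebraMap ℂ K s) ∧ A ≠ 0 ∧ ∀ x ∈ d.X,
    (x.1 ∉ d.L.lattice → Reg d.z x.2 G ∧ vl d.z G x.2 = d.L.weierstrassP x.1) ∧
    (x.1 ∈ d.L.lattice → Reg d.z x.2 A ∧ vl d.z A x.2 = 0)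

/-- The forms `Φ` are the forms `h i`. -/
def KL (d : Dat K n) (Φ : Fin 3 → Pt n → V n → ℂ) : Prop :=
  ∀ a j U Y, Chart d.X a j U Y → ∀ p ∈ U, ∀ l ∈ d.L.lattice, ∀ (c α β : ℂ) (i : Fin 3) (f g : K),
    c ≠ 0 → Reg d.z (Y p) f → Reg d.z (Y p) g → Wd d.D f g ≠ 0 →
    Reg d.z (Y p) (d.h i / Wd d.D f g ^ d.m) →
    Φ i (p.1 + l, c • Y p) (α • dz Y p + β • Y p) = (α / c) ^ d.m *
      (vl d.z (d.h i / Wd d.D f g ^ d.m) (Y p) *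
        jb (fun q => vl d.z f (Y q)) (fun q => vl d.z g (Y q)) p ^ d.m)

/-- The coefficients are values of finitely many elements of the function field. -/
def Lk0 (d : Dat K n) (Φ : Fin 3 → Pt n → V n → ℂ) : Prop :=
  ∀ a j U Y, Chart d.X a j U Y → ∀ p ∈ U, Y p ∈ Cone d.Uo → ∃ (a' b' j' : Fin n) (κ : ℂ), κ ≠ 0 ∧
    d.wd a' b' j' ≠ 0 ∧ ∀ i, Reg d.z (Y p) (d.h i / d.wd a' b' j' ^ d.m) ∧
      fc Φ Y i p = κ * vl d.z (d.h i / d.wd a' b' j' ^ d.m) (Y p)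

end

def GStmt : Prop := ∀ (K : Type) [Field K] [Algebra ℂ K] (n : ℕ) (d : Dat K n),
  (∃ G A, GP d G A) ∧ ∀ t₀, ∃ (G₀ : K) (ψ : ℂ → ℂ), AnalyticAt ℂ ψ t₀ ∧ ψ t₀ = 0 ∧
    deriv ψ t₀ ≠ 0 ∧ ∀ y, (t₀, y) ∈ d.X → Reg d.z y G₀ ∧
      ∀ᶠ x in 𝓝 ((t₀, y) : Pt n), x ∈ d.X → vl d.z G₀ x.2 = ψ x.1

/-! ### Rows Phi, Frm: the relative forms -/

def PhiStmt : Prop := ∀ (K : Type) [Field K] [Algebra ℂ K] (n : ℕ) (d : Dat K n), ∃ Φ, KL d Φ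

def FrmStmt : Prop := ∀ (K : Type) [Field K] [Algebra ℂ K] (n : ℕ) (d : Dat K n)
  (Φ : Fin 3 → Pt n → V n → ℂ), KL d Φ → Frm d.L d.X d.Uo d.m Φ ∧ Lk0 d Φ

/-! ### Rows AlgA, AlgB, Vert, Crit: algebra in the function field -/

def AlgAStmt : Prop := ∀ (K : Type) [Field K] [Algebra ℂ K] (n : ℕ) (d : Dat K n),
  (∀ (B : PR n) (e : ℕ), B.IsHomogeneous e → (NZ d.X B ↔ aeval d.z B ≠ 0)) ∧
    PrimeP d.X ∧ DropP d.L d.X ∧ BigP d.X ∧ ∀ S, BadfP d.L d.X S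

def AlgBStmt : Prop := ∀ (K : Type) [Field K] [Algebra ℂ K] (n : ℕ) (d : Dat K n)
  (Φ : Fin 3 → Pt n → V n → ℂ), Lk0 d Φ →
  ZeroP d.X d.Uo Φ ∧ AlgP d.X d.Uo Φ ∧ VanP d.L d.X d.Uo Φ

def VertStmt : Prop := ∀ (n : ℕ) (L : PeriodPair) (X : Set (Pt n)) (U : Set (PS n))
  (Φ : Fin 3 → Pt n → V n → ℂ), DropP L X → ZeroP X U Φ → AlgP X U Φ → ∃ S, VertP L X U Φ S

def CritStmt : Prop := ∀ (K : Type) [Field K] [Algebra ℂ K] (n : ℕ) (d : Dat K n),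
  ∃ S, BadP d.L d.X S

/-! ### Rows Eqp, Pole: the boundary -/

def EqpStmt : Prop := ∀ (K : Type) [Field K] [Algebra ℂ K] (n : ℕ) (d : Dat K n),
  EqP d.W d.Uo ∧ BdyP d.X d.Uo

/-- Local parameters at a boundary point, in a chart. -/
def Par (d : ℕ) (U : Set (PS n)) (Φ : Fin 3 → Pt n → V n → ℂ) (Y : ℂ × ℂ → V n) (p : ℂ × ℂ) :
    Prop :=
  ∃ (τ : Fin 2 → ℂ × ℂ → ℂ) (r : Finset (Fin 2)) (φ : Fin 3 → ℂ × ℂ → ℂ),
    (∀ i, AnalyticAt ℂ (τ i) p ∧ τ i p = 0) ∧ jb (τ 0) (τ 1) p ≠ 0 ∧ (∀ i, AnalyticAt ℂ (φ i) p) ∧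
    ∀ᶠ q in 𝓝 p, (Y q ∈ Cone U ↔ ∏ i ∈ r, τ i q ≠ 0) ∧
      (Y q ∈ Cone U → ∀ i, φ i q = (∏ i ∈ r, τ i q) ^ d * fc Φ Y i q)

def ParStmt : Prop := ∀ (K : Type) [Field K] [Algebra ℂ K] (n : ℕ) (d : Dat K n)
  (Φ : Fin 3 → Pt n → V n → ℂ), KL d Φ →
  ∀ a j O Y, Chart d.X a j O Y → ∀ p ∈ O, Par d.m d.Uo Φ Y p

def PoleStmt : Prop := ∀ (n m : ℕ) (L : PeriodPair) (X : Set (Pt n)) (U : Set (PS n))
  (Φ : Fin 3 → Pt n → V n → ℂ), DropP L X → BdyP X U →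
  (∀ a j O Y, Chart X a j O Y → ∀ p ∈ O, Par m U Φ Y p) → ∃ S, PoleP L X U m Φ S

/-! ### Block P: intersection numbers on one fibre -/

def PStmt : Prop := ∀ (K : Type) [Field K] [Algebra ℂ K] (n : ℕ) (d : Dat K n)
  (Φ : Fin 3 → Pt n → V n → ℂ), KL d Φ → ClsP d.X ∧ WindP d.L d.X d.Uo d.m Φ ∧
    WindBP d.L d.X d.Uo d.m Φ ∧ DegP d.X d.Uo

/-- The result of the analytic part. -/
def MainStmt : Prop := ∀ (K : Type) [Field K] [Algebra ℂ K] (n : ℕ) (d : Dat K n),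
  ∃ (T : PR n) (e : ℕ), T.IsHomogeneous e ∧ aeval d.z T ≠ 0 ∧ G2.NoChg d.Uo T

end Pool.Agent.MP_c69980_ag.E2
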