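import Pool.Agent.MP_c69980_ag.E2.Base
import Pool.Agent.MP_c69980_ag.E2.SpecB

/-!
The relative forms: their values do not depend on the chart.
-/

set_option autoImplicit false

noncomputable section

namespace Pool.Agent.MP_c69980_ag.E2

open MvPolynomial Metric Filter Topology Set
open H60 H4 E1

namespace PhiX

variable {n : ℕ} {K : Type} [Field K] [Algebra ℂ K]

/-- The coordinates of a chart of the surface along `Y`. -/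
def co (Y : ℂ × ℂ → V n) (a b j : Fin n) (r : ℂ × ℂ) : ℂ × ℂ := (Y r a / Y r j, Y r b / Y r j)

/-- The Jacobian determinant of these coordinates. -/
def jc (Y : ℂ × ℂ → V n) (a b j : Fin n) (p : ℂ × ℂ) : ℂ :=
  jb (fun r => (co Y a b j r).1) (fun r => (co Y a b j r).2) p

lemma co_an {Y : ℂ × ℂ → V n} {p : ℂ × ℂ} (hY : AnalyticAt ℂ Y p) (a b : Fin n) {j : Fin n}
    (hj : Y p j ≠ 0) : AnalyticAt ℂ (co Y a b j) p :=
  ((analyticAt_pi_iff.1 hY a).div (analyticAt_pi_iff.1 hY j) hj).prod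
    ((analyticAt_pi_iff.1 hY b).div (analyticAt_pi_iff.1 hY j) hj)

lemma cone_pp {L : PeriodPair} {W : Set (PS n)} {X : Set (Pt n)} (hX : Cov L W X) {y w : V n}
    (hy : y ∈ Cone W) (h : Pp w y) : w ∈ Cone W := by
  obtain ⟨t, ht⟩ := (hX.cone y).1 hy
  exact (hX.cone w).2 ⟨t, hX.cn.pp ht h⟩

/-- An analytic map to the cone factors through a chart of the surface. -/
lemma lift {L : PeriodPair} {W : Set (PS n)} {X : Set (Pt n)} (hX : Cov L W X) {a b j : Fin n}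
    {U : Set (ℂ × ℂ)} {Y Y' : ℂ × ℂ → V n} {p q : ℂ × ℂ} (hc : WCh W a b j U Y') (hq : q ∈ U)
    (hY : AnalyticAt ℂ Y p) (hm : ∀ᶠ r in 𝓝 p, Y r ∈ Cone W) (h : Pp (Y p) (Y' q)) :
    Y p j ≠ 0 ∧ co Y a b j p = q ∧ ∀ᶠ r in 𝓝 p, Pp (Y r) (Y' (co Y a b j r)) := by
  obtain ⟨h1, h2, h3, -, h5⟩ := hc.2.2 q hq
  have hj := (h.eq_smul h1).1
  refine ⟨hj, ?_, ?_⟩
  · rw [co, h.div, h.div, h1, h2, h3, div_one, div_one]
  · obtain ⟨c, c0, hc'⟩ := h.symm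
    have t1 : Tendsto (fun r => c • Y r) (𝓝 p) (𝓝 (Y' q)) :=
      hc' ▸ hY.continuousAt.tendsto.const_smul c
    filter_upwards [t1.eventually h5, hm,
      (analyticAt_pi_iff.1 hY j).continuousAt.eventually_ne hj] with r r1 r2 r3
    have := r1 (cone_pp hX r2 (.smul c0 _))
    simp only [Pi.smul_apply, smul_eq_mul, mul_div_mul_left _ _ c0, mul_smul] at this
    exact ⟨_, r3, smul_right_injective _ c0 this⟩

/-- The value of a form does not depend on the pair of functions. -/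
lemma val_eq (h1 : JacStmt) (d : Dat K n) (hX : Cov d.L d.W d.X) {a b j : Fin n}
    {U : Set (ℂ × ℂ)} {Y Y' : ℂ × ℂ → V n} {p q : ℂ × ℂ} (hc : WCh d.W a b j U Y') (hq : q ∈ U)
    (hY : AnalyticAt ℂ Y p) (hm : ∀ᶠ r in 𝓝 p, Y r ∈ Cone d.W) (h : Pp (Y p) (Y' q))
    (i : Fin 3) {f g : K} (hf : Reg d.z (Y p) f) (hg : Reg d.z (Y p) g) (h0 : Wd d.D f g ≠ 0)
    (hr : Reg d.z (Y p) (d.h i / Wd d.D f g ^ d.m)) :
    vl d.z (d.h i / Wd d.D f g ^ d.m) (Y p) *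
        jb (fun r => vl d.z f (Y r)) (fun r => vl d.z g (Y r)) p ^ d.m =
      vl d.z (d.h i / d.wd a b j ^ d.m) (Y' q) * jc Y a b j p ^ d.m := by
  obtain ⟨hj, rfl, hp⟩ := lift hX hc hq hY hm h
  have an := co_an hY a b hj
  have on' : ∀ᶠ r in 𝓝 (co Y a b j p), On d.z (Y' r) :=
    mem_of_superset (hc.1.mem_nhds hq) fun r hr => Cone.on d.gen (hc.2.2 r hr).2.2.2.1
  have key : ∀ {u : K}, Reg d.z (Y p) u →
      AnalyticAt ℂ (fun r => vl d.z u (Y' r)) (co Y a b j p) ∧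
      (fun r => vl d.z u (Y r)) =ᶠ[𝓝 p] fun r => vl d.z u (Y' (co Y a b j r)) := fun hu => by
    obtain ⟨k1, k2⟩ := vl_an (hc.2.1 _ hq) on' (h.symm.reg hu)
    refine ⟨k1, ?_⟩
    filter_upwards [hp, an.continuousAt.eventually on', an.continuousAt.eventually k2]
      with r r1 r2 r3 using r1.vl r2 r3
  obtain ⟨w0, j1, -⟩ := h1 K n d a b j U Y' hc _ hq
  obtain ⟨j2, j3⟩ := j1 f g (h.symm.reg hf) (h.symm.reg hg)
  have o := on'.self_of_nhds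
  have e : d.h i / d.wd a b j ^ d.m =
      d.h i / Wd d.D f g ^ d.m * (Wd d.D f g / d.wd a b j) ^ d.m := by
    rw [div_pow, div_mul_div_cancel₀ (pow_ne_zero _ h0)]
  rw [jb_congr (key hf).2 (key hg).2, jb_comp (key hf).1.differentiableAt
    (key hg).1.differentiableAt an.differentiableAt, ← j3, e,
    (vl_mul o (h.symm.reg hr) (H4.vl_pow o j2 _).1).2, (H4.vl_pow o j2 _).2,
    h.vl o (h.symm.reg hr), mul_pow, mul_assoc, jc]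

/-- Change of the chart of the fibration. -/
lemma chg {L : PeriodPair} {W : Set (PS n)} {X : Set (Pt n)} (hX : Cov L W X)
    {a₁ j₁ a₂ j₂ : Fin n} {U₁ U₂ : Set (ℂ × ℂ)} {Y₁ Y₂ : ℂ × ℂ → V n} {p₁ p₂ : ℂ × ℂ}
    (h₁ : Chart X a₁ j₁ U₁ Y₁) (h₂ : Chart X a₂ j₂ U₂ Y₂) (m₁ : p₁ ∈ U₁) (m₂ : p₂ ∈ U₂) {l : ℂ}
    (hl : l ∈ L.lattice) (ht : p₁.1 + l = p₂.1) {c₁ c₂ α₁ α₂ β₁ β₂ : ℂ} (c1 : c₁ ≠ 0)
    (c2 : c₂ ≠ 0) (hy : c₁ • Y₁ p₁ = c₂ • Y₂ p₂)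
    (hv : α₁ • dz Y₁ p₁ + β₁ • Y₁ p₁ = α₂ • dz Y₂ p₂ + β₂ • Y₂ p₂) (a b : Fin n) {j : Fin n}
    (hj : Y₂ p₂ j ≠ 0) : α₁ / c₁ * jc Y₁ a b j p₁ = α₂ / c₂ * jc Y₂ a b j p₂ := by
  have pp : Pp (Y₁ p₁) (Y₂ p₂) :=
    (Pp.smul c1 _).symm.trans ((Pp.of_eq hy).trans (Pp.smul c2 _))
  have a1 := h₁.an m₁
  obtain ⟨n0, e0⟩ := h₂.eq m₂ pp
  set ψ : ℂ × ℂ → ℂ × ℂ := fun r => (r.1 + l, Y₁ r a₂ / Y₁ r j₂) with hψ
  have aψ : AnalyticAt ℂ ψ p₁ := (analyticAt_fst.add analyticAt_const).prod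
    ((analyticAt_pi_iff.1 a1 a₂).div (analyticAt_pi_iff.1 a1 j₂) n0)
  have pψ : ψ p₁ = p₂ := Prod.ext ht (h₂.div m₂ pp)
  have t1 : Tendsto (fun r : ℂ × ℂ => ((r.1 + l, Y₁ r) : Pt n)) (𝓝 p₁) (𝓝 (p₂.1, Y₁ p₁)) :=
    ht ▸ ((continuous_fst.tendsto p₁).add_const l).prodMk_nhds a1.continuousAt
  have ev : ∀ᶠ r in 𝓝 p₁, Y₁ r j₂ ≠ 0 ∧ Y₁ r = Y₁ r j₂ • Y₂ (ψ r) := by
    filter_upwards [t1.eventually (h₂.ev hX.cn m₂ pp), h₁.nhds m₁] with r r1 r2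
    have := r1 (hX.per _ (h₁.mem r2) l hl)
    exact ⟨this.1, this.2.2⟩
  have f1 : ∀ v, (fderiv ℂ ψ p₁ v).1 = v.1 := fun v => by
    have := fderiv.fst (𝕜 := ℂ) aψ.differentiableAt
    rw [show (fun r => (ψ r).1) = fun r : ℂ × ℂ => r.1 + l from rfl, fderiv_add_const,
      fderiv_fst] at this
    exact (congrArg (fun A : ℂ × ℂ →L[ℂ] ℂ => A v) this).symm
  set κ : ℂ := (fderiv ℂ ψ p₁ (0, 1)).2 with hκ
  have e1 : jc Y₁ a b j p₁ = jc Y₂ a b j p₂ * κ := by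
    have a2 := co_an (h₂.an m₂) a b hj
    have e : co Y₁ a b j =ᶠ[𝓝 p₁] fun r => co Y₂ a b j (ψ r) := ev.mono fun r q => by
      have q' : Pp (Y₁ r) (Y₂ (ψ r)) := ⟨_, q.1, q.2⟩
      simp only [co, q'.div]
    have d1 : DifferentiableAt ℂ (fun r => (co Y₂ a b j r).1) (ψ p₁) :=
      pψ ▸ a2.differentiableAt.fst
    have d2 : DifferentiableAt ℂ (fun r => (co Y₂ a b j r).2) (ψ p₁) :=
      pψ ▸ a2.differentiableAt.snd
    rw [jc, jb_congr (e.mono fun r q => congrArg Prod.fst q)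
      (e.mono fun r q => congrArg Prod.snd q),
      jb_comp d1 d2 aψ.differentiableAt, pψ, jc]
    congr 1
    rw [jb, fderiv.fst aψ.differentiableAt, fderiv.snd aψ.differentiableAt]
    simp only [ContinuousLinearMap.comp_apply, ContinuousLinearMap.coe_fst',
      ContinuousLinearMap.coe_snd', f1, one_mul, zero_mul, sub_zero, hκ]
  have e2 : ∃ γ : ℂ, dz Y₁ p₁ = (Y₁ p₁ j₂ * κ) • dz Y₂ p₂ + γ • Y₂ p₂ := by
    have e : Y₁ =ᶠ[𝓝 p₁] fun r => Y₁ r j₂ • Y₂ (ψ r) := ev.mono fun r q => q.2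
    have d2 : HasFDerivAt Y₂ (fderiv ℂ Y₂ p₂) (ψ p₁) :=
      pψ ▸ (h₂.an m₂).differentiableAt.hasFDerivAt
    have d := (analyticAt_pi_iff.1 a1 j₂).differentiableAt.hasFDerivAt.smul
      (d2.comp p₁ aψ.differentiableAt.hasFDerivAt)
    refine ⟨fderiv ℂ (fun r => Y₁ r j₂) p₁ (0, 1), ?_⟩
    have e3 : fderiv ℂ ψ p₁ (0, 1) = (0, κ) := Prod.ext (f1 _) rfl
    rw [dz, e.fderiv_eq.trans d.fderiv]
    simp only [add_apply, smul_apply,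
      ContinuousLinearMap.comp_apply, ContinuousLinearMap.smulRight_apply, Function.comp_apply,
      pψ, e3]
    rw [fd_apply, zero_smul, zero_add, smul_smul, dz]
  obtain ⟨γ, e2⟩ := e2
  have e4 : c₁ * Y₁ p₁ j₂ = c₂ := by simpa [h₂.yj m₂] using congrFun hy j₂
  have e5 : α₁ * (Y₁ p₁ j₂ * κ) = α₂ := by
    rw [e2, e0, smul_add, smul_smul, smul_smul, smul_smul, add_assoc, ← add_smul] at hv
    have := congrFun (congrArg (wg (Y₂ p₂)) hv) (j₂, a₂)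
    simpa [wg_comb, h₂.wg_dz m₂, h₂.yj m₂] using this
  rw [e1, ← e4, ← e5]
  field_simp

/-- `r` is the value of the form `i` on the vector `v` at `x`. -/
def Val (d : Dat K n) (i : Fin 3) (x : Pt n) (v : V n) (r : ℂ) : Prop :=
  ∃ (a j : Fin n) (U : Set (ℂ × ℂ)) (Y : ℂ × ℂ → V n) (p : ℂ × ℂ) (l c α β : ℂ) (f g : K),
    Chart d.X a j U Y ∧ p ∈ U ∧ l ∈ d.L.lattice ∧ c ≠ 0 ∧ Reg d.z (Y p) f ∧ Reg d.z (Y p) g ∧
    Wd d.D f g ≠ 0 ∧ Reg d.z (Y p) (d.h i / Wd d.D f g ^ d.m) ∧ x = (p.1 + l, c • Y p) ∧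
    v = α • dz Y p + β • Y p ∧ r = (α / c) ^ d.m * (vl d.z (d.h i / Wd d.D f g ^ d.m) (Y p) *
      jb (fun q => vl d.z f (Y q)) (fun q => vl d.z g (Y q)) p ^ d.m)

lemma uniq (h1 : JacStmt) (h2 : WCStmt) (d : Dat K n) (hX : Cov d.L d.W d.X) {i : Fin 3}
    {x : Pt n} {v : V n} {r r' : ℂ} (h : Val d i x v r) (h' : Val d i x v r') : r = r' := by
  obtain ⟨a₁, j₁, U₁, Y₁, p₁, l₁, c₁, α₁, β₁, f₁, g₁, k₁, m₁, hl₁, c1, rf₁, rg₁, w₁, rh₁, rfl,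
    rfl, rfl⟩ := h
  obtain ⟨a₂, j₂, U₂, Y₂, p₂, l₂, c₂, α₂, β₂, f₂, g₂, k₂, m₂, hl₂, c2, rf₂, rg₂, w₂, rh₂, hx, hv,
    rfl⟩ := h'
  obtain ⟨ht, hy⟩ := Prod.ext_iff.1 hx
  have cn : ∀ {a j U Y p}, Chart d.X a j U Y → p ∈ U → ∀ᶠ r in 𝓝 p, Y r ∈ Cone d.W :=
    fun k m => mem_of_superset (k.nhds m) fun r q => (hX.cone _).2 ⟨_, k.mem q⟩
  obtain ⟨a, b, j, U, Y', hc, q, hq, p2⟩ := h2 n d.W d.sm _ (cn k₂ m₂).self_of_nhds
  have p1 : Pp (Y₁ p₁) (Y' q) :=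
    ((Pp.smul c1 _).symm.trans ((Pp.of_eq hy).trans (Pp.smul c2 _))).trans p2
  have e := chg hX k₁ k₂ m₁ m₂ (sub_mem hl₁ hl₂) (by linear_combination ht) c1 c2 hy hv a b
    (lift hX hc hq (k₂.an m₂) (cn k₂ m₂) p2).1
  rw [val_eq h1 d hX hc hq (k₁.an m₁) (cn k₁ m₁) p1 i rf₁ rg₁ w₁ rh₁,
    val_eq h1 d hX hc hq (k₂.an m₂) (cn k₂ m₂) p2 i rf₂ rg₂ w₂ rh₂, mul_left_comm, ← mul_pow, e,
    mul_pow, mul_left_comm]

end PhiX

theorem phi (h1 : JacStmt) (h2 : WCStmt) (h3 : CovStmt) : PhiStmt := by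
  intro K _ _ n d
  refine ⟨fun i x v => Classical.epsilon (PhiX.Val d i x v), ?_⟩
  intro a j U Y hc p hp l hl c α β i f g c0 hf hg h0 hr
  have h : PhiX.Val d i (p.1 + l, c • Y p) (α • dz Y p + β • Y p) _ :=
    ⟨a, j, U, Y, p, l, c, α, β, f, g, hc, hp, hl, c0, hf, hg, h0, hr, rfl, rfl, rfl⟩
  exact PhiX.uniq h1 h2 d (h3 K n d) (Classical.epsilon_spec ⟨_, h⟩) h

end Pool.Agent.MP_c69980_ag.E2
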