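import Mathlib

/-!
Division by a coordinate for analytic functions of two variables, and the separable part of a
polynomial in two variables.
-/

set_option autoImplicit false

noncomputable section

namespace Pool.Agent.MP_c69980_ag.E2.PoleX

open Filter Topology Set
open scoped NNReal ENNReal

/-- The projection to the first axis. -/
def pj : (ℂ × ℂ) →L[ℂ] (ℂ × ℂ) :=
  (ContinuousLinearMap.inl ℂ ℂ ℂ).comp (ContinuousLinearMap.fst ℂ ℂ ℂ)

lemma pj_apply (y : ℂ × ℂ) : pj y = (y.1, 0) := rfl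

lemma norm_pj : ‖pj‖ ≤ 1 := ContinuousLinearMap.opNorm_le_bound _ zero_le_one fun y => by
  rw [pj_apply, one_mul, Prod.norm_def]
  exact max_le (norm_fst_le y) (by simp)

/-- The series of the quotient. -/
def qs (p : FormalMultilinearSeries ℂ (ℂ × ℂ) ℂ) : FormalMultilinearSeries ℂ (ℂ × ℂ) ℂ :=
  fun n => ∑ k : Fin (n + 1), ((p (n + 1)).curryMid k (0, 1)).compContinuousLinearMap
    fun j => if k.succAbove j < k then ContinuousLinearMap.id ℂ _ else pj

lemma qs_norm (p : FormalMultilinearSeries ℂ (ℂ × ℂ) ℂ) (n : ℕ) :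
    ‖qs p n‖ ≤ (n + 1) * ‖p (n + 1)‖ := by
  refine (norm_sum_le_of_le _ (n := fun _ => ‖p (n + 1)‖) fun k _ => ?_).trans (by simp)
  refine (ContinuousMultilinearMap.norm_compContinuousLinearMap_le _ _).trans ?_
  have h1 : ‖(p (n + 1)).curryMid k (0, 1)‖ ≤ ‖p (n + 1)‖ := by
    refine (ContinuousLinearMap.le_opNorm _ _).trans ?_
    rw [ContinuousMultilinearMap.norm_curryMid]
    simp [Prod.norm_def]
  refine (mul_le_of_le_one_right (norm_nonneg _) ?_).trans h1
  refine Finset.prod_le_one (fun _ _ => norm_nonneg _) fun j _ => ?_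
  split_ifs
  · exact ContinuousLinearMap.norm_id_le
  · exact norm_pj

lemma qs_rad {p : FormalMultilinearSeries ℂ (ℂ × ℂ) ℂ} (hp : 0 < p.radius) :
    0 < (qs p).radius := by
  obtain ⟨C, r, hC, hr, h⟩ := p.le_mul_pow_of_radius_pos hp
  have hρ : (0 : ℝ) < (2 * r)⁻¹ := by positivity
  refine lt_of_lt_of_le (ENNReal.coe_pos.2 (show (0 : ℝ≥0) < ⟨_, hρ.le⟩ from hρ))
    ((qs p).le_radius_of_bound (C * r) fun n => ?_)
  have h1 : ((n : ℝ) + 1) ≤ 2 ^ n := by exact_mod_cast Nat.lt_two_pow_self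
  calc ‖qs p n‖ * ((2 * r)⁻¹) ^ n ≤ (2 ^ n * (C * r ^ (n + 1))) * ((2 * r)⁻¹) ^ n :=
        mul_le_mul_of_nonneg_right ((qs_norm p n).trans
          (mul_le_mul h1 (h _) (norm_nonneg _) (by positivity))) (by positivity)
    _ = C * r := by
        rw [inv_pow, mul_pow, pow_succ]
        field_simp

lemma qs_apply (p : FormalMultilinearSeries ℂ (ℂ × ℂ) ℂ) (n : ℕ) (y : ℂ × ℂ) :
    p (n + 1) (fun _ => y) - p (n + 1) (fun _ => pj y) = y.2 * qs p n fun _ => y := by
  have h := (p (n + 1)).toMultilinearMap.map_sub_map_piecewise (fun _ => y) (fun _ => pj y)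
    Finset.univ
  rw [Finset.piecewise_univ] at h
  refine h.trans ?_
  rw [qs, sum_apply, Finset.mul_sum]
  refine Finset.sum_congr rfl fun k _ => ?_
  rw [ContinuousMultilinearMap.compContinuousLinearMap_apply, ← smul_eq_mul, ← smul_apply,
    ← map_smul, ContinuousMultilinearMap.curryMid_apply]
  refine congrArg (p (n + 1)) (funext fun j => ?_)
  refine Fin.succAboveCases k ?_ (fun i => ?_) j
  · rw [Fin.insertNth_apply_same, if_neg (by simp), if_pos rfl, pj_apply]
    ext <;> simp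
  · rw [Fin.insertNth_apply_succAbove]
    by_cases hi : k.succAbove i < k
    · rw [if_pos fun _ => hi, if_pos hi]
      rfl
    · rw [if_neg fun h => hi (h (Finset.mem_univ _)), if_neg (Fin.succAbove_ne k i).symm, if_neg hi]

/-- Division by the second coordinate. -/
theorem hdiv {F : ℂ × ℂ → ℂ} {t : ℂ} (hF : AnalyticAt ℂ F (t, 0)) : ∃ ψ : ℂ × ℂ → ℂ,
    AnalyticAt ℂ ψ (t, 0) ∧ ∀ᶠ x in 𝓝 ((t, 0) : ℂ × ℂ), F x - F (x.1, 0) = x.2 * ψ x := by
  obtain ⟨p, hp⟩ := hF
  have hq := ((qs p).hasFPowerSeriesOnBall (qs_rad hp.radius_pos)).hasFPowerSeriesAt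
  refine ⟨fun x => (qs p).sum (x - (t, 0)), ?_, ?_⟩
  · exact AnalyticAt.comp_of_eq hq.analyticAt (analyticAt_id.sub analyticAt_const) (sub_self _)
  have e0 : Tendsto (fun x : ℂ × ℂ => x - (t, 0)) (𝓝 (t, 0)) (𝓝 0) :=
    Continuous.tendsto' (by fun_prop) _ _ (sub_self _)
  have e1 : Tendsto pj (𝓝 0) (𝓝 0) := pj.continuous.tendsto' _ _ (map_zero _)
  filter_upwards [e0.eventually hp.eventually_hasSum, e0.eventually hq.eventually_hasSum,
    (e1.comp e0).eventually hp.eventually_hasSum] with x h1 h2 h3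
  have h4 := (hasSum_nat_add_iff' 1).2 (h1.sub h3)
  simp only [Function.comp_apply, qs_apply] at h4
  have h5 := h4.unique (h2.mul_left _)
  have h6 : (fun _ : Fin 0 => x - (t, 0)) = fun _ => pj (x - (t, 0)) := Subsingleton.elim _ _
  simpa [h6, pj_apply] using h5

open Polynomial

lemma clr {R K : Type} [CommRing R] [IsDomain R] [Field K] [Algebra R K] [IsFractionRing R K]
    (f : K[X]) : ∃ (b : R) (g : R[X]), b ≠ 0 ∧
      g.map (algebraMap R K) = C (algebraMap R K b) * f := by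
  obtain ⟨b, hb, h⟩ := IsLocalization.integerNormalization_spec (nonZeroDivisors R) f
  exact ⟨b, _, nonZeroDivisors.ne_zero hb, by rw [h, ← smul_eq_C_mul, algebraMap_smul]⟩

/-- Off finitely many values of the first variable the zeros of `P` are simple zeros of `Q`. -/
theorem sep {P : ℂ[X][X]} (hP : P ≠ 0) : ∃ (Q : ℂ[X][X]) (R : ℂ[X]), R ≠ 0 ∧ ∀ x z,
    R.eval x ≠ 0 → P.evalEval x z = 0 → Q.evalEval x z = 0 ∧ Q.derivative.evalEval x z ≠ 0 := by
  have hi : Function.Injective (algebraMap ℂ[X] (FractionRing ℂ[X])) := IsFractionRing.injective _ _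
  have hm := map_injective _ hi
  obtain ⟨y, k, hy, -, w, hw⟩ :=
    exists_squarefree_dvd_pow_of_ne_zero ((Polynomial.map_ne_zero_iff hi).2 hP)
  obtain ⟨a, b, hab⟩ := PerfectField.separable_iff_squarefree.2 hy
  obtain ⟨β, Q, hβ, hQ⟩ := clr (R := ℂ[X]) y
  obtain ⟨α, A, hα, hA⟩ := clr (R := ℂ[X]) a
  obtain ⟨γ, B, hγ, hB⟩ := clr (R := ℂ[X]) b
  obtain ⟨δ, W, hδ, hW⟩ := clr (R := ℂ[X]) w
  have e1 : C δ * Q ^ k = C β ^ k * P * W := hm (by
    simp only [Polynomial.map_mul, Polynomial.map_pow, map_C, hQ, hW, mul_pow, hw]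
    ring)
  have e2 : C γ * A * Q + C α * B * derivative Q = C α * C β * C γ := hm (by
    simp only [Polynomial.map_mul, Polynomial.map_add, map_C, ← derivative_map, hQ, hA, hB,
      derivative_C_mul]
    linear_combination (C (algebraMap _ (FractionRing ℂ[X]) α) * C (algebraMap _ _ β) *
      C (algebraMap _ _ γ)) * hab)
  refine ⟨Q, α * β * γ * δ, by simp [*], fun x z hx hz => ?_⟩
  have f1 := congrArg (evalEval x z) e1
  have f2 := congrArg (evalEval x z) e2
  simp only [evalEval_mul, evalEval_add, evalEval_pow, evalEval_C, hz, mul_zero, zero_mul] at f1 f2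
  simp only [eval_mul, ne_eq, mul_eq_zero, not_or] at hx
  have h0 : Q.evalEval x z = 0 := eq_zero_of_pow_eq_zero ((mul_eq_zero.1 f1).resolve_left hx.2)
  refine ⟨h0, fun h1 => ?_⟩
  rw [h0, h1, mul_zero, mul_zero, add_zero] at f2
  exact mul_ne_zero (mul_ne_zero hx.1.1.1 hx.1.1.2) hx.1.2 f2.symm

lemma an_ev {f : ℂ → ℂ} {p : ℂ × ℂ} (hf : AnalyticAt ℂ f p.1) (Q : ℂ[X][X]) :
    AnalyticAt ℂ (fun q : ℂ × ℂ => Q.evalEval (f q.1) q.2) p := by
  induction Q using Polynomial.induction_on' with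
  | add A B hA hB => simpa only [evalEval_add] using hA.fun_add hB
  | monomial k a =>
    simp only [← C_mul_X_pow_eq_monomial, evalEval_mul, evalEval_pow, evalEval_C, evalEval_X]
    exact ((hf.comp analyticAt_fst).aeval_polynomial a).mul (analyticAt_snd.pow k)

lemma d2_at {G : ℂ × ℂ → ℂ} {p : ℂ × ℂ} (hG : AnalyticAt ℂ G p) :
    HasDerivAt (fun z => G (p.1, z)) (fderiv ℂ G p (0, 1)) p.2 :=
  hG.differentiableAt.hasFDerivAt.comp_hasDerivAt p.2
    ((hasDerivAt_const p.2 p.1).prodMk (hasDerivAt_id p.2))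

lemma d2_ev {f : ℂ → ℂ} {p : ℂ × ℂ} (hf : AnalyticAt ℂ f p.1) (Q : ℂ[X][X]) :
    fderiv ℂ (fun q : ℂ × ℂ => Q.evalEval (f q.1) q.2) p (0, 1) =
      Q.derivative.evalEval (f p.1) p.2 := by
  have h := (Q.map (evalRingHom (f p.1))).hasDerivAt p.2
  simp only [derivative_map, map_evalRingHom_eval] at h
  exact (d2_at (an_ev hf Q)).unique h

end Pool.Agent.MP_c69980_ag.E2.PoleX
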