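import Pool.Agent.MP_c69980_ag.E2.Base
import Pool.Agent.MP_c69980_ag.I2.Stc

/-!
The adjunction identity for two sections in the open surface.
-/

set_option autoImplicit false

noncomputable section

namespace Pool.Agent.MP_c69980_ag.E2

open MvPolynomial Metric Filter Topology Set
open H60 H4 E1

open StarAX in
theorem star : StarStmt := by
  intro n D a j O Y c ρ r s s' σ v v' i k k' I J hρ hr hP hC hs hs' hσ hT hq c1 c2 hv hv'
    z1 z2 z3 z4
  obtain ⟨hs, -⟩ := nm_op.1 hs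
  obtain ⟨hs', -⟩ := nm_op.1 hs'
  obtain ⟨t1, -, -, t4⟩ := tb hr hC hs hs' hT
  obtain ⟨p1, p2⟩ := I2.StcX.kap_ok D.cn hr hs hC hv sphere_subset_closedBall
    fun t ht => ⟨(t1 t ht).1, (hT.1 t ht).1⟩
  obtain ⟨p3, p4⟩ := I2.StcX.kap_ok D.cn hr hs' hC hv' sphere_subset_closedBall
    fun t ht => ⟨(t1 t ht).2, (hT.1 t ht).2⟩
  obtain ⟨κ, hκ⟩ := Wind.ex hρ _ p1 p2
  obtain ⟨κ', hκ'⟩ := Wind.ex hρ _ p3 p4
  have e := (I2.stcS n D.X a j O Y c ρ r s s' σ v I J κ D.cn D.nonreg hρ hr hP hC hs hs' hσ hT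
    (fun q h => (hq q h).2.2) c1 hv z3 z4 hκ).2 σ v' I J κ' hσ (fun q h => (hq q h).2.2) c2 hv'
    z3 z4 hκ'
  have a1 := Wind.band (fun q => fc D.Φ Y i (q.2, zb a j s s' q)) (fun q h =>
    ContinuousAt.comp_continuousWithinAt (f := fun q : ℝ × ℂ => (q.2, zb a j s s' q))
      (D.frm.an a j O Y hC _ (hT.2 q h) (hq q h).1 i).continuousAt
      ((continuousOn_snd.prodMk t4) q h)) fun q h => (hq q h).2.1
  simp only [zb0, zb1] at a1
  have a2 := (((hκ.div hρ hκ').pow D.m).mul hρ a1).congr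
    (g := fun t => D.Φ i (t, s t) (v t) / D.Φ i (t, s' t) (v' t)) fun t ht => by
      have u1 := (hq _ (bn0 ht)).1
      have u2 := (hq _ (bn1 ht)).1
      simp only [zb0, zb1] at u1 u2
      have e1 := (D.frm.vt' D.cn hC (t1 t ht).1 u1 (hT.1 t ht).1
        (hv.2 t (sphere_subset_closedBall ht))).2 i
      have e2 := (D.frm.vt' D.cn hC (t1 t ht).2 u2 (hT.1 t ht).2
        (hv'.2 t (sphere_subset_closedBall ht))).2 i
      simp only at e1 e2
      rw [e1, e2, mul_div_mul_comm, ← div_pow]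
      rfl
  have a3 := Wind.uniq hρ _ _ _ ((z1.wn wind hρ).div hρ (z2.wn wind hρ)) a2
  rw [e] at a3
  zify
  linear_combination a3

end Pool.Agent.MP_c69980_ag.E2
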