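import Pool.Agent.MP_c69980_ag.E2.Base
import Pool.Agent.MP_c69980_ag.E1.Sec

/-!
Open surfaces fibred over an elliptic curve: holomorphic vertical fields along sections.
-/

set_option autoImplicit false

noncomputable section

namespace Pool.Agent.MP_c69980_ag.E2

open MvPolynomial Metric Filter Topology Set
open H60 H4 E1

namespace VHX

variable {n : ℕ} {X : Set (Pt n)} {O : Set ℂ} {s : ℂ → V n} {t : ℂ}

/-- A section lies in a chart near every point. -/
lemma chart (hX : Cn X) (hN : NonregP X) (o : IsOpen O) (hs : Nm X O s id) (ht : t ∈ O) :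
    ∃ b j U Y, Chart X b j U Y ∧ AnalyticAt ℂ (fun w => (w, s w b / s w j)) t ∧
      ∀ᶠ w in 𝓝 t, (w, s w b / s w j) ∈ U ∧ Pp (s w) (Y (w, s w b / s w j)) := by
  obtain ⟨b, j, U, Y, k, z, z1, z2⟩ := hs.rx hX hN o ht
  have e1 := (k.ev_pc (τ := id) hX z1 ht continuousWithinAt_id
    (PC.of_cont hs.1.1.continuousOn hs.1.2)
    (mem_of_superset self_mem_nhdsWithin hs.2.2) rfl z2).2
  rw [nhdsWithin_eq_nhds.2 (o.mem_nhds ht)] at e1
  exact ⟨b, j, U, Y, k, analyticAt_id.prod ((crv_lh hs.1 o).ratio ht b (k.eq z1 z2).1).1, e1⟩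

/-- Renumbering of the coordinates of the exterior product. -/
def tr (w : Wg n) : V (n * n) := fun i => w (finProdFinEquiv.symm i)

lemma tr_apply (w : Wg n) (p : Fin n × Fin n) : tr w (finProdFinEquiv p) = w p := by
  rw [tr, Equiv.symm_apply_apply]

lemma lh (hX : Cn X) (hN : NonregP X) (o : IsOpen O) (hs : Nm X O s id) :
    LH O fun t => tr (wg (s t) (tv X (t, s t))) := lh_iff.2 fun t ht => by
  obtain ⟨b, j, U, Y, k, a1, e1⟩ := chart hX hN o hs ht
  have m := e1.self_of_nhds.1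
  have a2 := wg_an (AnalyticAt.comp (f := fun w => (w, s w b / s w j)) (k.an m) a1)
    (AnalyticAt.comp (f := fun w => (w, s w b / s w j)) (dz_an (k.an m)) a1)
  refine ⟨fun w => tr (wg (Y (w, s w b / s w j)) (dz Y (w, s w b / s w j))),
    analyticAt_pi_iff.2 fun i => analyticAt_pi_iff.1 a2 _,
    fun e => k.wg_ne m (funext fun p => (tr_apply _ p).symm.trans (congrFun e _)),
    e1.mono fun w hw => ?_⟩
  obtain ⟨c, c0, hc⟩ := k.vt_pp hX hw.1 hw.2 (Rx.vt hX (k.rx hw.1 hw.2))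
  exact ⟨c, c0, congrArg tr hc⟩

end VHX

open VHX

theorem vhS (h : E1.LiftStmt) : VHStmt := by
  intro n X c ρ r s hX hN hr hs
  obtain ⟨g, g1, g2⟩ := h (n * n) _ c ρ r hr (lh hX hN isOpen_ball hs)
  choose! κ hκ using fun t ht => (g2 t ht).symm
  refine ⟨fun t => κ t • tv X (t, s t), differentiableOn_pi.2 fun p => ?_, fun t ht => ?_⟩
  · refine (differentiableOn_pi.1 g1.1 (finProdFinEquiv p)).congr fun t ht => ?_
    rw [(hκ t ht).2, wg_smul_right, Pi.smul_apply, Pi.smul_apply, tr_apply]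
  · have p := hs.rx hX hN isOpen_ball (ball_subset_ball hr.le ht)
    exact SecX.vt_smul hX p (Rx.vt hX p) (hκ t ht).1

theorem vfS : VFStmt := by
  intro n L X U m Φ O s v hX hN F o hs hv i t ht
  obtain ⟨h1, h2⟩ := nm_op.1 hs
  obtain ⟨b, j, U', Y, k, a1, e1⟩ := chart hX hN o h1 ht
  have m0 := e1.self_of_nhds
  have a2 := AnalyticAt.comp (f := fun w => (w, s w b / s w j))
    (F.an b j U' Y k _ m0.1 (cone_pp (h2 t ht) m0.2.symm) i) a1
  have a3 := (differentiableOn_pi.1 hv.1 (j, b)).differentiableAt (o.mem_nhds ht)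
  have a4 := (differentiableOn_pi.1 h1.1.1 j).differentiableAt (o.mem_nhds ht)
  have a5 := ((a3.div (a4.pow 2) (pow_ne_zero 2 (k.eq m0.1 m0.2).1)).pow m).mul a2.differentiableAt
  refine (a5.congr_of_eventuallyEq ?_).differentiableWithinAt
  filter_upwards [e1, o.mem_nhds ht] with w w1 w2
  exact (F.vt' hX k w1.1 (cone_pp (h2 w w2) w1.2.symm) w1.2 (hv.2 w w2)).2 i

end Pool.Agent.MP_c69980_ag.E2
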