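import Pool.Agent.MP_c69980_ag.E2.AlgA
import Pool.Agent.MP_c69980_ag.E2.AlgB
import Pool.Agent.MP_c69980_ag.E2.Alpha
import Pool.Agent.MP_c69980_ag.E2.Bd
import Pool.Agent.MP_c69980_ag.E2.Core
import Pool.Agent.MP_c69980_ag.E2.Cov
import Pool.Agent.MP_c69980_ag.E2.Cpt
import Pool.Agent.MP_c69980_ag.E2.Crit
import Pool.Agent.MP_c69980_ag.E2.Cur
import Pool.Agent.MP_c69980_ag.E2.Exp
import Pool.Agent.MP_c69980_ag.E2.Fib
import Pool.Agent.MP_c69980_ag.E2.Frm
import Pool.Agent.MP_c69980_ag.E2.Glue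
import Pool.Agent.MP_c69980_ag.E2.Hur
import Pool.Agent.MP_c69980_ag.E2.Hyp
import Pool.Agent.MP_c69980_ag.E2.Lim
import Pool.Agent.MP_c69980_ag.E2.LocB
import Pool.Agent.MP_c69980_ag.E2.LocG
import Pool.Agent.MP_c69980_ag.E2.ND
import Pool.Agent.MP_c69980_ag.E2.NDA
import Pool.Agent.MP_c69980_ag.E2.Pair
import Pool.Agent.MP_c69980_ag.E2.PairA
import Pool.Agent.MP_c69980_ag.E2.Par
import Pool.Agent.MP_c69980_ag.E2.Phi
import Pool.Agent.MP_c69980_ag.E2.Pole
import Pool.Agent.MP_c69980_ag.E2.Rat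
import Pool.Agent.MP_c69980_ag.E2.Sep
import Pool.Agent.MP_c69980_ag.E2.Star
import Pool.Agent.MP_c69980_ag.E2.VH
import Pool.Agent.MP_c69980_ag.E1.AlgBA
import Pool.Agent.MP_c69980_ag.E1.Bar
import Pool.Agent.MP_c69980_ag.E1.Chart
import Pool.Agent.MP_c69980_ag.E1.Ell
import Pool.Agent.MP_c69980_ag.E1.Gain
import Pool.Agent.MP_c69980_ag.E1.Lip
import Pool.Agent.MP_c69980_ag.E1.Mon
import Pool.Agent.MP_c69980_ag.E1.WC
import Pool.Agent.MP_c69980_ag.E1.Wind

/-!
Open surfaces fibred over an elliptic curve: assembly.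
-/

set_option autoImplicit false

namespace Pool.Agent.MP_c69980_ag.E2

open H60 H4 E1

theorem aEll : EllStmt := ell lat

theorem aHyp : HypStmt := hyp (fib logD prop E1.lift) E1.mon hur lat

theorem aExtB : ExtBStmt := extB mer lat

/-- Compactness off the bad values. -/
theorem aCpt : CptStmt :=
  cpt E1.mon aHyp hur (alpha tube near gen star (vhS E1.lift) fac vfS) ratS (extS mer aExtB) aExtB
    E1.lift lat

theorem aAdm : AdmStmt := adm aCpt hur lat

theorem aCore : CoreStmt := core (pair wind fac) (vhS E1.lift) vfS near wind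

theorem aGlue : GlueStmt :=
  glue (locB (limA aCore near) (limB aCore near wind) aCpt hur E1.lift lat) (locG aCpt near lat)
    bar (gain lat aEll) lat

theorem aBd : BdStmt := bd aAdm (expB aGlue cont) (lm lat) (sep lat) (secFin lat) lat

/-- The set of admissible sections is finite. -/
theorem aFin : FinStmt :=
  fin aAdm aBd (exp0 aGlue cont aBd aAdm) (lm lat) (sep lat) (secFin lat) lat

theorem aND : NDStmt :=
  nd (cur (cur0 E1.lift lat) aFin aAdm) (E1.nrm lat) lat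
    (nda (hd (E1.lip lat)) aHyp inv aCpt lat aAdm) (ndb (hd (E1.lip lat)) aHyp)

theorem aCov : CovStmt := cov lat aEll

theorem aG : GStmt := gS aEll aCov

theorem aPD : PDStmt := pdS tan

theorem aJac : JacStmt := jac aPD

theorem aAlgA : AlgAStmt := algA aCov aG wc

theorem aFrm : FrmStmt := frm aJac wc aCov

theorem aCrit : CritStmt := crit sard tan (wt gen) wc aG aCov

theorem aEqp : EqpStmt := eqp aCov

theorem aPar : ParStmt := par aJac wc aCov

theorem aNonreg : NonregStmt := nonreg (wt gen)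

lemma bad_mono {L : PeriodPair} {S S' : Finset ℂ} (h : S ⊆ S') : Bad L S ⊆ Bad L S' :=
  fun _ q => q.imp_right fun a => h a

theorem main_of (hP : PStmt) : MainStmt := by
  classical
  intro K _ _ n d
  have cov := aCov K n d
  obtain ⟨Φ, kl⟩ := phi aJac wc aCov K n d
  obtain ⟨frm, l0⟩ := aFrm K n d Φ kl
  obtain ⟨S₁, b1⟩ := aCrit K n d
  obtain ⟨a0, a1, a2, a3, a4⟩ := aAlgA K n d
  obtain ⟨c1, c2, c3⟩ := algB aCov aG aAlgA K n d Φ l0
  obtain ⟨S₂, b2⟩ := vert n d.L d.X d.Uo Φ a2 c1 c2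
  obtain ⟨e1, e2⟩ := aEqp K n d
  obtain ⟨S₃, b3⟩ := pole n d.m d.L d.X d.Uo Φ a2 e2 (aPar K n d Φ kl)
  obtain ⟨p1, p2, p3, p4⟩ := hP K n d Φ kl
  obtain ⟨T, t1, t2⟩ := aND n ⟨d.L, d.W, d.Uo, d.X, d.m, Φ, S₁ ∪ (S₂ ∪ S₃), cov, e1, frm,
    aNonreg n _ _ _ cov (wc n _ d.sm),
    fun x hx q => b1 x hx fun r => q (bad_mono Finset.subset_union_left r), a1, a2, a3, a4 _, p1,
    c1, c2, c3, fun t q => b2 t fun r => q (bad_mono
      (Finset.subset_union_left.trans Finset.subset_union_right) r), e2,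
    fun a j O Y h p hp q => b3 a j O Y h p hp fun r => q (bad_mono
      (Finset.subset_union_right.trans Finset.subset_union_right) r), p2, p3, p4⟩
  obtain ⟨e, he⟩ := t1.1
  exact ⟨T, e, he, (a0 T e he).1 t1, t2⟩

end Pool.Agent.MP_c69980_ag.E2
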