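import Pool.Agent.MP_c69980_ag.E1.BaseC

/-!
Open surfaces fibred over an elliptic curve: the analytic package and the analytic statements.
-/

set_option autoImplicit false

noncomputable section

namespace Pool.Agent.MP_c69980_ag.E2

open MvPolynomial Metric Filter Topology MeasureTheory Set
open scoped ENNReal ComplexConjugate
open H60 H4 E1

variable {n : ℕ}

/-- The part of `X` over the open set `U`. -/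
def Op (X : Set (Pt n)) (U : Set (PS n)) : Set (Pt n) := {x | x ∈ X ∧ x.2 ∈ Cone U}

/-- The complement of `U` in `W` is locally the zero set of one analytic function. -/
def EqP (W U : Set (PS n)) : Prop := U ⊆ W ∧ ∀ y ∈ Cone W, ∃ β : V n → ℂ, AnalyticAt ℂ β y ∧
  ∀ᶠ w in 𝓝 y, w ∈ Cone W → (w ∈ Cone U ↔ β w ≠ 0)

/-- Relative pluricanonical forms, holomorphic over `U`. -/
structure Frm (L : PeriodPair) (X : Set (Pt n)) (U : Set (PS n)) (m : ℕ)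
    (Φ : Fin 3 → Pt n → V n → ℂ) : Prop where
  m0 : 0 < m
  an : ∀ a j O Y, Chart X a j O Y → ∀ p ∈ O, Y p ∈ Cone U → ∀ i, AnalyticAt ℂ (fc Φ Y i) p
  hom : ∀ a j O Y, Chart X a j O Y → ∀ p ∈ O, Y p ∈ Cone U → ∀ l ∈ L.lattice,
    ∀ (c α β : ℂ) (i : Fin 3), c ≠ 0 →
      Φ i (p.1 + l, c • Y p) (α • dz Y p + β • Y p) = (α / c) ^ m * fc Φ Y i p

/-- The coefficient of the form `Q (Φ)` in a chart. -/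
def qq (Φ : Fin 3 → Pt n → V n → ℂ) (Q : PR 3) (Y : ℂ × ℂ → V n) (p : ℂ × ℂ) : ℂ :=
  eval (fun l => fc Φ Y l p) Q

/-- The function of a pair of sections in a chart. -/
def Gf (Φ : Fin 3 → Pt n → V n → ℂ) (Q : PR 3) (M : ℕ) (a j : Fin n) (Y : ℂ × ℂ → V n)
    (s s' : ℂ → V n) (t : ℂ) : ℂ :=
  (s' t a / s' t j - s t a / s t j) ^ M * qq Φ Q Y (t, s t a / s t j)

/-- Sections over a disc, inside `U`, that converge to the section `g` off the centre `b`, and a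
chart at `g b`. -/
structure Bs (X : Set (Pt n)) (U : Set (PS n)) (u : Ultrafilter ℕ) (b : ℂ) (r : ℝ)
    (s : ℕ → ℂ → V n) (g : ℂ → V n) (a j : Fin n) (O : Set (ℂ × ℂ)) (Y : ℂ × ℂ → V n) : Prop where
  r0 : 0 < r
  hs : ∀ k, Nm (Op X U) (ball b r) (s k) id
  hg : Nm X (ball b r) g id
  cv : Cv u (ball b r \ {b}) s g
  ch : Chart X a j O Y
  mem : (b, g b a / g b j) ∈ O
  pp : Pp (g b) (Y (b, g b a / g b j))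

section props

variable (L : PeriodPair) (X : Set (Pt n)) (U : Set (PS n)) (m : ℕ) (Φ : Fin 3 → Pt n → V n → ℂ)
  (S : Finset ℂ)

def ZeroP : Prop := ∀ (Q : PR 3) (d : ℕ), Q.IsHomogeneous d → Q ≠ 0 → ∃ B, NZ X B ∧
  ∀ a j O Y, Chart X a j O Y → ∀ p ∈ O, Y p ∈ Cone U → qq Φ Q Y p = 0 → eval (Y p) B = 0

def AlgP : Prop := ∀ b k : Fin n, ∃ (d f : ℕ) (Q : ℕ → PR 3), (∀ i, (Q i).IsHomogeneous f) ∧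
  Q d ≠ 0 ∧ ∀ a j O Y, Chart X a j O Y → ∀ p ∈ O, Y p ∈ Cone U → Y p k ≠ 0 →
    ∑ i ∈ Finset.range (d + 1), qq Φ (Q i) Y p * (Y p b / Y p k) ^ i = 0

def VanQ (Q : PR 3) : Prop := ∀ a j O Y, Chart X a j O Y →
  ∀ p ∈ O, Y p ∈ Cone U → p.1 ∈ L.lattice → qq Φ Q Y p = 0

def VanP : Prop := ∃ (Q : PR 3) (d : ℕ), 0 < d ∧ Q.IsHomogeneous d ∧ Q ≠ 0 ∧ VanQ L X U Φ Q

def VertP : Prop := ∀ t ∉ Bad L S, ∀ a j O Y, Chart X a j O Y → ∀ c : Fin 3 → ℂ,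
  {ζ | (t, ζ) ∈ O ∧ Y (t, ζ) ∈ Cone U ∧ ∃ κ : ℂ, ∀ l, fc Φ Y l (t, ζ) = κ * c l}.Finite

/-- The boundary lies in a curve. -/
def BdyP : Prop := ∃ B, NZ X B ∧ ∀ x ∈ X, x.2 ∉ Cone U → eval x.2 B = 0

/-- Over good values the boundary is a union of graphs, and the poles have order at most `m`. -/
def PoleP : Prop := ∀ a j O Y, Chart X a j O Y → ∀ p ∈ O, p.1 ∉ Bad L S → Y p ∉ Cone U →
  ∃ (ζ : ℂ → ℂ) (φ : Fin 3 → ℂ × ℂ → ℂ), AnalyticAt ℂ ζ p.1 ∧ ζ p.1 = p.2 ∧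
    (∀ i, AnalyticAt ℂ (φ i) p) ∧ ∀ᶠ q in 𝓝 p, (Y q ∈ Cone U ↔ q.2 ≠ ζ q.1) ∧
      (q.2 ≠ ζ q.1 → ∀ i, φ i q = (q.2 - ζ q.1) ^ m * fc Φ Y i q)

/-- The winding number of the function of a pair is nonnegative (limit not in the boundary). -/
def WindP : Prop := ∀ (Q : PR 3) (d : ℕ) (u : Ultrafilter ℕ) (b : ℂ) (r : ℝ)
  (s s' : ℕ → ℂ → V n) (g : ℂ → V n) (a j : Fin n) (O : Set (ℂ × ℂ)) (Y : ℂ × ℂ → V n), 0 < d →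
  Q.IsHomogeneous d → Bs X U u b r s g a j O Y → Bs X U u b r s' g a j O Y →
  (∃ t ∈ ball b r, g t ∈ Cone U) → ∃ ρ₀ : ℝ, 0 < ρ₀ ∧ ∀ ρ₁ : ℝ, 0 < ρ₁ → ∀ᶠ k in u,
    ∀ ρ ∈ Icc ρ₁ ρ₀, ∀ w : ℤ, Wn b ρ (Gf Φ Q (m * d) a j Y (s k) (s' k)) w →
      0 ≤ w ∧ (b ∈ L.lattice → VanQ L X U Φ Q → 1 ≤ w)

/-- The same for a limit in the boundary, paired with the limit itself. -/
def WindBP : Prop := ∀ (Q : PR 3) (d : ℕ) (u : Ultrafilter ℕ) (b : ℂ) (r : ℝ)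
  (s : ℕ → ℂ → V n) (g : ℂ → V n) (a j : Fin n) (O : Set (ℂ × ℂ)) (Y : ℂ × ℂ → V n), 0 < d →
  Q.IsHomogeneous d → Bs X U u b r s g a j O Y →
  (∀ t ∈ ball b r, g t ∉ Cone U) → ∃ ρ₀ : ℝ, 0 < ρ₀ ∧ ∀ ρ₁ : ℝ, 0 < ρ₁ → ∀ᶠ k in u,
    ∀ ρ ∈ Icc ρ₁ ρ₀, ∀ w : ℤ, Wn b ρ (Gf Φ Q (m * d) a j Y (s k) g) w →
      0 ≤ w ∧ (b ∈ L.lattice → VanQ L X U Φ Q → 1 ≤ w)

/-- The bubbles have bounded degree. -/
def DegP : Prop := ∀ (u : Ultrafilter ℕ) (b : ℂ) (r : ℝ) (s : ℕ → ℂ → V n) (g : ℂ → V n)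
  (a j : Fin n) (O : Set (ℂ × ℂ)) (Y : ℂ × ℂ → V n), Bs X U u b r s g a j O Y →
  ∃ (ρ₀ : ℝ) (N : ℤ), 0 < ρ₀ ∧ ∀ ρ₁ : ℝ, 0 < ρ₁ → ∀ᶠ k in u, ∀ ρ ∈ Icc ρ₁ ρ₀,
    (∀ w : ℤ, Wn b ρ (fun t => s k t j) w → w ≤ N) ∧ ∀ v, VL X b ρ (s k) v →
      ∀ w : ℤ, Wn b ρ (fun t => wg (s k t) (v t) (j, a)) w → w ≤ N

end props

/-- The analytic package. -/
structure Fib (n : ℕ) where
  L : PeriodPair
  W : Set (PS n)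
  U : Set (PS n)
  X : Set (Pt n)
  m : ℕ
  Φ : Fin 3 → Pt n → V n → ℂ
  S : Finset ℂ
  cov : Cov L W X
  eqp : EqP W U
  frm : Frm L X U m Φ
  nonreg : NonregP X
  bad : BadP L X S
  prime : PrimeP X
  drop : DropP L X
  big : BigP X
  badf : BadfP L X S
  cls : ClsP X
  zero : ZeroP X U Φ
  alg : AlgP X U Φ
  van : VanP L X U Φ
  vert : VertP L X U Φ S
  bdy : BdyP X U
  pole : PoleP L X U m Φ S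
  wind : WindP L X U m Φ
  windB : WindBP L X U m Φ
  deg : DegP X U

/-- The open part. -/
abbrev Fib.Xo (D : Fib n) : Set (Pt n) := Op D.X D.U

/-- The bad values. -/
abbrev Fib.B (D : Fib n) : Set ℂ := Bad D.L D.S

def Far (D : Fib n) (η : ℝ) (t : ℂ) : Prop := ∀ b ∈ D.B, η ≤ ‖t - b‖

/-! ### Row Star: degrees without forms -/

def StarAStmt : Prop := ∀ (n : ℕ) (X : Set (Pt n)) (a j : Fin n) (O : Set (ℂ × ℂ))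
  (Y : ℂ × ℂ → V n) (c : ℂ) (ρ r : ℝ) (s s' σ : ℂ → V n) (ν : ℤ) (I J : ℕ), Cn X → NonregP X →
  0 < ρ → ρ < r → Chart X a j O Y → Nm X (ball c r) s id → Nm X (ball c r) s' id →
  Nm X (ball c r) σ id → Tb a j O Y c ρ s s' →
  (∀ q ∈ Bn c ρ, ¬Pp (σ q.2) (Y (q.2, zb a j s s' q))) → Wn c ρ (fun t => s t j / s' t j) ν →
  Zv c ρ (fun t => wg (σ t) (s t)) I → Zv c ρ (fun t => wg (σ t) (s' t)) J →
  Cy (Xr X c ρ) c ρ (fun t => (t, s t)) (fun t => (t, s' t))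
      (fun q => (q.2, Y (q.2, zb a j s s' q))) ∧ Ds X a j Y c ρ s s' σ (ν + J - I)

def StarBStmt : Prop := ∀ (n : ℕ) (X : Set (Pt n)) (a j : Fin n) (O : Set (ℂ × ℂ))
  (Y : ℂ × ℂ → V n) (c : ℂ) (ρ r : ℝ) (s s' v v' : ℂ → V n) (p p' : ℤ), Cn X → NonregP X →
  0 < ρ → ρ < r → Chart X a j O Y → Nm X (ball c r) s id → Nm X (ball c r) s' id →
  Tb a j O Y c ρ s s' → VL X c ρ s v → VL X c ρ s' v' →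
  Wn c ρ (fun t => wg (s t) (v t) (j, a)) p → Wn c ρ (fun t => wg (s' t) (v' t) (j, a)) p' →
  ∃ d d' : ℤ, Ds X a j Y c ρ s s' s d ∧ Ds X a j Y c ρ s s' s' d' ∧ p - p' = d + d'

def StarCStmt : Prop := ∀ (n : ℕ) (X : Set (Pt n)) (a j : Fin n) (O : Set (ℂ × ℂ))
  (Y : ℂ × ℂ → V n) (c : ℂ) (ρ r : ℝ) (s s' v : ℂ → V n) (p α α' ω : ℤ) (I : ℕ), Cn X →
  NonregP X → 0 < ρ → ρ < r → Chart X a j O Y → Nm X (ball c r) s id → Nm X (ball c r) s' id →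
  Tb a j O Y c ρ s s' → VL X c ρ s v → Wn c ρ (fun t => wg (s t) (v t) (j, a)) p →
  Wn c ρ (fun t => s t j) α → Wn c ρ (fun t => s' t j) α' →
  Wn c ρ (fun t => s' t a / s' t j - s t a / s t j) ω → Zv c ρ (fun t => wg (s t) (s' t)) I →
  Ds X a j Y c ρ s s' s (p - α - α' - ω + I)

/-- A holomorphic vertical vector field along `s`. -/
def VH (X : Set (Pt n)) (O : Set ℂ) (s v : ℂ → V n) : Prop :=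
  DifferentiableOn ℂ (fun t => wg (s t) (v t)) O ∧ ∀ t ∈ O, Vt X (t, s t) (v t)

def VHStmt : Prop := ∀ (n : ℕ) (X : Set (Pt n)) (c : ℂ) (ρ r : ℝ) (s : ℂ → V n), Cn X →
  NonregP X → ρ < r → Nm X (ball c r) s id → ∃ v, VH X (ball c ρ) s v

/-- The values of the forms on such a field are holomorphic. -/
def VFStmt : Prop := ∀ (n : ℕ) (L : PeriodPair) (X : Set (Pt n)) (U : Set (PS n)) (m : ℕ)
  (Φ : Fin 3 → Pt n → V n → ℂ) (O : Set ℂ) (s v : ℂ → V n), Cn X → NonregP X → Frm L X U m Φ →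
  IsOpen O → Nm (Op X U) O s id → VH X O s v →
  ∀ i, DifferentiableOn ℂ (fun t => Φ i (t, s t) (v t)) O

/-- The adjunction identity for two sections in `U` that lie in one class. -/
def StarStmt : Prop := ∀ (n : ℕ) (D : Fib n) (a j : Fin n) (O : Set (ℂ × ℂ)) (Y : ℂ × ℂ → V n)
  (c : ℂ) (ρ r : ℝ) (s s' σ v v' : ℂ → V n) (i : Fin 3) (k k' I J : ℕ), 0 < ρ → ρ < r →
  Pun D.X c ρ → Chart D.X a j O Y → Nm D.Xo (ball c r) s id → Nm D.Xo (ball c r) s' id →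
  Nm D.X (ball c r) σ id → Tb a j O Y c ρ s s' →
  (∀ q ∈ Bn c ρ, Y (q.2, zb a j s s' q) ∈ Cone D.U ∧ fc D.Φ Y i (q.2, zb a j s s' q) ≠ 0 ∧
    ¬Pp (σ q.2) (Y (q.2, zb a j s s' q))) →
  Cl D.X c (σ c) (s c) → Cl D.X c (σ c) (s' c) → VL D.X c ρ s v → VL D.X c ρ s' v' →
  Zv c ρ (fun t => D.Φ i (t, s t) (v t)) k → Zv c ρ (fun t => D.Φ i (t, s' t) (v' t)) k' →
  Zv c ρ (fun t => wg (σ t) (s t)) I → Zv c ρ (fun t => wg (σ t) (s' t)) J →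
  k + D.m * (I + I) = k' + D.m * (J + J)

/-! ### Rows Hur, Fib, Hyp: hyperbolicity away from the bad fibres -/

/-- Hurwitz. -/
def HurStmt : Prop := ∀ (n : ℕ) (W U : Set (PS n)) (u : Ultrafilter ℕ) (O : Set ℂ)
  (F : ℕ → ℂ → V n) (G : ℂ → V n), EqP W U → IsOpen O → IsPreconnected O →
  (∀ t ∈ O, ∃ r : ℝ, 0 < r ∧ ∀ᶠ k in u, ∀ w ∈ ball t r, F k w ∈ Cone U) → Cv u O F G →
  (∀ t ∈ O, G t ∈ Cone W) → (∀ t ∈ O, G t ∈ Cone U) ∨ ∀ t ∈ O, G t ∉ Cone U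

/-- The logarithmic derivative of a small function without zeros. -/
def LogDStmt : Prop := ∀ (f : ℂ → ℂ) (c : ℂ) (r : ℝ), 0 < r → DifferentiableOn ℂ f (ball c r) →
  (∀ w ∈ ball c r, f w ≠ 0 ∧ ‖f w‖ ≤ 1) → ‖deriv f c‖ * r ≤ 2 * ‖f c‖ * -Real.log ‖f c‖

/-- An entire curve on which all forms vanishing on a finite set are bounded lies on a line. -/
def PropStmt : Prop := ∀ (c : ℂ → Fin 3 → ℂ) (Γ : Set (Fin 3 → ℂ)), Differentiable ℂ c → Γ.Finite →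
  (∀ (Q : PR 3) (d : ℕ), Q.IsHomogeneous d → (∀ γ ∈ Γ, eval γ Q = 0) →
    ∃ A : ℝ, ∀ w, ‖eval (c w) Q‖ ≤ A) → ∃ c₀ : Fin 3 → ℂ, ∀ w, ∃ κ : ℂ, ∀ l, c w l = κ * c₀ l

/-- Entire curves in the open parts of good fibres with bounded derivative are constant. -/
def FibStmt : Prop := ∀ (n : ℕ) (D : Fib n) (G : ℂ → V n) (t : ℂ) (A : ℝ), t ∉ D.B →
  LH univ G → (∀ w, (t, G w) ∈ D.Xo) →
  (∀ c r g, Crv (ball c r) g → (∀ w ∈ ball c r, Pp (G w) (g w)) → ∀ w ∈ ball c r, lam g w ≤ A) →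
  ∀ r g, 0 < r → Crv (ball 0 r) g → (∀ w ∈ ball (0 : ℂ) r, Pp (G w) (g w)) → lam g 0 = 0

def HypStmt : Prop := ∀ (n : ℕ) (D : Fib n) (η : ℝ), 0 < η → ∃ A : ℝ, 0 < A ∧
  ∀ (F : ℂ → V n) (h : ℂ → ℂ) (c : ℂ) (r : ℝ), 0 < r → Nm D.Xo (ball c r) F h →
    (∀ z ∈ ball c r, Far D η (h z)) → lam F c * r ^ 2 ≤ A

/-! ### Rows Alpha, Rat, Cpt: limits extend over the bad values -/

/-- A sequence of sections over a disc that converges on the punctured disc. -/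
def Sq (D : Fib n) (u : Ultrafilter ℕ) (c : ℂ) (r : ℝ) (s : ℕ → ℂ → V n) (g : ℂ → V n) : Prop :=
  0 < r ∧ Pun D.X c r ∧ (∀ k, Nm D.Xo (ball c r) (s k) id) ∧ Sc D.Xo (ball c r \ {c}) g ∧
    Cv u (ball c r \ {c}) s g ∧ ∃ y, ∀ᶠ k in u, Cl D.X c y (s k c)

/-- The value of the form `i` at the point `y` over `t`. -/
def ph (D : Fib n) (i : Fin 3) (t : ℂ) (y : V n) : ℂ := D.Φ i (t, y) (tv D.X (t, y))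

/-- The ratios of the forms along `g` are meromorphic at `c`. -/
def Rat (D : Fib n) (c : ℂ) (g : ℂ → V n) : Prop :=
  ∃ (i : Fin 3) (G : Fin 3 → ℂ → ℂ) (M : ℕ), (∀ l, AnalyticAt ℂ (G l) c) ∧
    ∀ᶠ t in 𝓝[≠] c, ∀ l, (t - c) ^ M * ph D l t (g t) = G l t * ph D i t (g t)

/-- The numbers of zeros of one form along the sections are bounded. -/
def Bz (D : Fib n) (u : Ultrafilter ℕ) (c : ℂ) (r : ℝ) (s : ℕ → ℂ → V n) : Prop :=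
  ∃ (ρ A : ℝ) (i : Fin 3) (M : ℕ), 0 < ρ ∧ ρ < r ∧ ∀ᶠ k in u, ∃ v, VH D.X (ball c ρ) (s k) v ∧
    (∀ l, ContinuousOn (fun t => D.Φ l (t, s k t) (v t)) (closedBall c ρ)) ∧
    Zv c ρ (fun t => D.Φ i (t, s k t) (v t)) M ∧
    ∀ l, ∀ t ∈ sphere c ρ, ‖D.Φ l (t, s k t) (v t)‖ ≤ A * ‖D.Φ i (t, s k t) (v t)‖

def AlphaStmt : Prop := ∀ (n : ℕ) (D : Fib n) (u : Ultrafilter ℕ) (c : ℂ) (r : ℝ)
  (s : ℕ → ℂ → V n) (g : ℂ → V n), Sq D u c r s g →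
  (∃ t ∈ ball c r \ {c}, ∃ i, ph D i t (g t) ≠ 0) → Ext c g ∨ Bz D u c r s

def RatStmt : Prop := ∀ (n : ℕ) (D : Fib n) (u : Ultrafilter ℕ) (c : ℂ) (r : ℝ)
  (s : ℕ → ℂ → V n) (g : ℂ → V n), Sq D u c r s g → Bz D u c r s → Rat D c g

/-- Sections inside a curve extend. -/
def ExtBStmt : Prop := ∀ (n : ℕ) (D : Fib n) (c : ℂ) (r : ℝ) (g : ℂ → V n) (B : PR n), 0 < r →
  Sc D.X (ball c r \ {c}) g → NZ D.X B → (∀ t ∈ ball c r \ {c}, eval (g t) B = 0) → Ext c g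

def ExtStmt : Prop := ∀ (n : ℕ) (D : Fib n) (c : ℂ) (r : ℝ) (g : ℂ → V n), 0 < r →
  Sc D.Xo (ball c r \ {c}) g → (∃ t ∈ ball c r \ {c}, ∃ i, ph D i t (g t) ≠ 0) → Rat D c g →
  Ext c g

/-- Compactness for the convergence off the bad values. -/
def CptStmt : Prop := ∀ (n : ℕ) (D : Fib n) (u : Ultrafilter ℕ) (O : Set ℂ) (s : ℕ → ℂ → V n),
  IsOpen O → (∀ t ∈ O, ∃ r : ℝ, 0 < r ∧ ∀ᶠ k in u, Sc D.Xo (ball t r) (s k)) →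
  ∃ g, Sc D.X O g ∧ Cv u (O \ D.B) s g

/-! ### Row Adm: admissible sections -/

/-- Entire sections that are limits of sections in `U`. -/
def Adm (D : Fib n) (g : ℂ → V n) : Prop := Sc D.X univ g ∧ ∀ R ε : ℝ, 0 < ε →
  ∃ s, Sc D.Xo (ball 0 R) s ∧ ∀ t ∈ ball (0 : ℂ) R, Far D ε t → d2 (s t) (g t) ≤ ε

/-- Inside the boundary. -/
def InB (D : Fib n) (g : ℂ → V n) : Prop := ∀ t, g t ∉ Cone D.U

/-- A class of entire sections that is invariant under the periods. -/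
def Inv (D : Fib n) (P : (ℂ → V n) → Prop) : Prop :=
  (∀ g, P g → Sc D.X univ g) ∧ ∀ g, P g → ∀ l ∈ D.L.lattice, P fun t => g (t + l)

/-- A compact class. -/
def Cp (D : Fib n) (P : (ℂ → V n) → Prop) : Prop := ∀ (u : Ultrafilter ℕ) (g : ℕ → ℂ → V n),
  (∀ k, P (g k)) → ∃ G, P G ∧ Cv u D.Bᶜ g G

/-- A class with finitely many members. -/
def Fn (P : (ℂ → V n) → Prop) : Prop := ∃ T : Set (ℂ → V n), T.Finite ∧ (∀ g ∈ T, P g) ∧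
  ∀ g, P g → ∃ g' ∈ T, ∀ t, Pp (g t) (g' t)

def AdmStmt : Prop := ∀ (n : ℕ) (D : Fib n), Inv D (Adm D) ∧ Cp D (Adm D) ∧
  (∀ (u : Ultrafilter ℕ) (s : ℕ → ℂ → V n) (g : ℂ → V n),
    (∀ R : ℝ, ∀ᶠ k in u, Sc D.Xo (ball 0 R) (s k)) → Sc D.X univ g → Cv u D.Bᶜ s g → Adm D g) ∧
  ∀ g, Adm D g → InB D g ∨ ∀ t ∉ D.B, g t ∈ Cone D.U

/-! ### Rows Pair, LocB, LocG, Bar, Glue: the almost subharmonic function -/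

/-- The value of the form `Q (Φ)`. -/
def Uq (D : Fib n) (Q : PR 3) (t : ℂ) (y : V n) : ℂ := eval (fun l => ph D l t y) Q

def uu (D : Fib n) (Q : PR 3) (d : ℕ) (t : ℂ) (y y' : V n) : ℝ :=
  3 * (D.m * d) * (Real.log (d2 y y') - Real.log (lamv y (tv D.X (t, y)))) +
    bt D.L (fun _ => Uq D Q t y) t

def Zp (D : Fib n) (Q : PR 3) (t : ℂ) (y y' : V n) : Prop :=
  t ∉ D.L.lattice ∧ y ∈ Cone D.U ∧ ¬Pp y y' ∧ Uq D Q t y ≠ 0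

/-- The form `Q (Φ)` has positive degree and vanishes over the lattice. -/
def QV (D : Fib n) (Q : PR 3) (d : ℕ) : Prop :=
  0 < d ∧ Q.IsHomogeneous d ∧ VanQ D.L D.X D.U D.Φ Q

/-- The point `y` is away from the boundary of the fibre over `t`. -/
def Aw (D : Fib n) (η : ℝ) (t : ℂ) (y : V n) : Prop :=
  ∀ y', (t, y') ∈ D.X → y' ∉ Cone D.U → η ≤ d2 y y'

/-- A holomorphic model `G` of `uu` outside a small disc. -/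
def Ap (D : Fib n) (Q : PR 3) (d : ℕ) (s s' : ℂ → V n) (c : ℂ) (ρ r ε C : ℝ) : Prop :=
  ∃ (G : ℂ → ℂ) (E : ℂ → ℝ), DifferentiableOn ℂ G (ball c (3 * ρ)) ∧
    ContinuousOn E (ball c (3 * ρ) \ ball c r) ∧ ∀ t ∈ ball c (3 * ρ),
      ‖G t‖ ≤ C ∧ (t ∈ D.L.lattice → G t = 0) ∧ (r ≤ ‖t - c‖ → |E t| ≤ ε ∧
        (Zp D Q t (s t) (s' t) ↔ t ∉ D.L.lattice ∧ G t ≠ 0) ∧
        (Zp D Q t (s t) (s' t) → uu D Q d t (s t) (s' t) = bt D.L G t + E t))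

/-- Poles are cancelled by nearby zeros. -/
def PairStmt : Prop := ∀ (N : ℤ) (ε r : ℝ), 0 < ε → 0 < r → ∃ r' : ℝ, 0 < r' ∧ r' < r ∧
  ∀ (b : ℂ) (R ρ : ℝ) (f h : ℂ → ℂ) (p w : ℤ) (e : ℕ), 0 < ρ → ρ ≤ r' → ρ < R →
    DifferentiableOn ℂ f (ball b R) → DifferentiableOn ℂ h (ball b R) →
    (∀ t ∈ ball b R, ρ ≤ ‖t - b‖ → h t ≠ 0) → Wn b ρ h p → p ≤ N →
    Wn b ρ (fun t => f t / h t) w → e ≤ 1 → (e : ℤ) ≤ w →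
    ∃ G κ : ℂ → ℂ, DifferentiableOn ℂ G (ball b R) ∧ (e = 1 → G b = 0) ∧
      ContinuousOn κ (ball b r)ᶜ ∧ ∀ t ∈ ball b R, r ≤ ‖t - b‖ →
        κ t ≠ 0 ∧ |Real.log ‖κ t‖| ≤ ε ∧ G t = κ t * (f t / h t)

/-- The model from the winding numbers. -/
def CoreStmt : Prop := ∀ (n : ℕ) (D : Fib n) (Q : PR 3) (d : ℕ) (κ : ℝ) (u : Ultrafilter ℕ) (b : ℂ)
  (R : ℝ) (s s' : ℕ → ℂ → V n) (g : ℂ → V n) (a j : Fin n) (O : Set (ℂ × ℂ)) (Y : ℂ × ℂ → V n),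
  QV D Q d → 0 < κ → (∀ t ∈ ball b R, t ∈ D.B → t = b) → Bs D.X D.U u b R s g a j O Y →
  (∀ k, Nm D.X (ball b R) (s' k) id) → Cv u (ball b R \ {b}) s' g →
  (∃ ρ₀ : ℝ, 0 < ρ₀ ∧ ∀ ρ₁ : ℝ, 0 < ρ₁ → ∀ᶠ k in u, ∀ ρ ∈ Icc ρ₁ ρ₀, ∀ w : ℤ,
    Wn b ρ (Gf D.Φ Q (D.m * d) a j Y (s k) (s' k)) w → 0 ≤ w ∧ (b ∈ D.L.lattice → 1 ≤ w)) →
  (∃ (ρ₀ : ℝ) (N : ℤ), 0 < ρ₀ ∧ ∀ ρ₁ : ℝ, 0 < ρ₁ → ∀ᶠ k in u, ∀ ρ ∈ Icc ρ₁ ρ₀, ∀ w : ℤ,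
    Wn b ρ (fun t => s' k t j) w → w ≤ N) →
  (∃ ρ₀ : ℝ, 0 < ρ₀ ∧ ∀ ρ₁ : ℝ, 0 < ρ₁ → ∃ A : ℝ, ∀ᶠ k in u, ∀ t, ρ₁ ≤ ‖t - b‖ → ‖t - b‖ ≤ ρ₀ →
    ‖Gf D.Φ Q (D.m * d) a j Y (s k) (s' k) t‖ ≤ A) →
  ∃ ρ C : ℝ, 0 < ρ ∧ 4 * ρ ≤ R ∧ ∀ᶠ k in u, Ap D Q d (s k) (s' k) b ρ (ρ / 2) (κ * ρ ^ 2) C

/-- The limit form of the model at any centre, limit not in the boundary. -/
def LimAStmt : Prop := ∀ (n : ℕ) (D : Fib n) (Q : PR 3) (d : ℕ) (κ : ℝ) (u : Ultrafilter ℕ) (b : ℂ)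
  (R : ℝ) (s s' : ℕ → ℂ → V n) (g : ℂ → V n), QV D Q d → 0 < κ → 0 < R →
  (∀ t ∈ ball b R, t ∈ D.B → t = b) → (∀ k, Nm D.Xo (ball b R) (s k) id) →
  (∀ k, Nm D.Xo (ball b R) (s' k) id) → Nm D.X (ball b R) g id → Cv u (ball b R \ {b}) s g →
  Cv u (ball b R \ {b}) s' g → (∀ t ∈ ball b R \ {b}, g t ∈ Cone D.U) →
  ∃ ρ C : ℝ, 0 < ρ ∧ 4 * ρ ≤ R ∧ ∀ᶠ k in u, Ap D Q d (s k) (s' k) b ρ (ρ / 2) (κ * ρ ^ 2) C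

/-- The same for a limit in the boundary. -/
def LimBStmt : Prop := ∀ (n : ℕ) (D : Fib n) (Q : PR 3) (d : ℕ) (κ : ℝ) (u : Ultrafilter ℕ) (b : ℂ)
  (R : ℝ) (s : ℕ → ℂ → V n) (g : ℂ → V n), QV D Q d → 0 < κ → 0 < R →
  (∀ t ∈ ball b R, t ∈ D.B → t = b) → (∀ k, Nm D.Xo (ball b R) (s k) id) →
  Nm D.X (ball b R) g id → Cv u (ball b R \ {b}) s g → (∀ t ∈ ball b R, g t ∉ Cone D.U) →
  ∃ ρ C : ℝ, 0 < ρ ∧ 4 * ρ ≤ R ∧ ∀ᶠ k in u, Ap D Q d (s k) g b ρ (ρ / 2) (κ * ρ ^ 2) C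

/-- The model at a bad value. -/
def LocBStmt : Prop := ∀ (n : ℕ) (D : Fib n) (Q : PR 3) (d : ℕ) (η κ ρ₀ : ℝ), QV D Q d →
  0 < η → 0 < κ → 0 < ρ₀ → (∀ b ∈ D.B, ∀ t ∈ D.B, t ≠ b → 4 * ρ₀ ≤ ‖t - b‖) →
  ∃ δ ρ₁ C : ℝ, 0 < δ ∧ 0 < ρ₁ ∧ ∀ b ∈ D.B, ∀ s s', Sc D.Xo (ball b (4 * ρ₀)) s →
    Sc D.X (ball b (4 * ρ₀)) s' →
    (((∀ t ∈ ball b (4 * ρ₀), s' t ∈ Cone D.U) ∧ Aw D η (b + 2 * ρ₀) (s (b + 2 * ρ₀))) ∨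
      ∀ t ∈ ball b (4 * ρ₀), s' t ∉ Cone D.U) →
    (∀ t ∈ ball b (4 * ρ₀), δ ≤ ‖t - b‖ → d2 (s t) (s' t) ≤ δ) →
    ∃ ρ ∈ Icc ρ₁ ρ₀, Ap D Q d s s' b ρ (ρ / 2) (κ * ρ ^ 2) C

/-- The model at a good value. -/
def LocGStmt : Prop := ∀ (n : ℕ) (D : Fib n) (Q : PR 3) (d : ℕ) (η κ ρ₁ : ℝ), QV D Q d →
  0 < η → 0 < κ → 0 < ρ₁ → ∃ δ ρ₂ C : ℝ, 0 < δ ∧ 0 < ρ₂ ∧ ∀ c s s', Far D (2 * ρ₁) c →
    Sc D.Xo (ball c ρ₁) s → Sc D.X (ball c ρ₁) s' →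
    (Aw D η c (s c) ∨ ∀ t ∈ ball c ρ₁, s' t ∉ Cone D.U) →
    (∀ t ∈ ball c ρ₁, d2 (s t) (s' t) ≤ δ) →
    ∃ ρ ∈ Icc ρ₂ (ρ₁ / 3), Ap D Q d s s' c ρ 0 (κ * ρ ^ 2) C

/-- The barrier on a disc, with variable radii. -/
def BarStmt : Prop := ∀ (u : ℂ → ℝ) (Z : Set ℂ) (c₀ : ℂ) (R ρ₁ ρ₂ c C : ℝ), 0 < ρ₁ → 0 < c →
  ρ₂ ≤ R → (∀ t ∈ Z, t ∈ ball c₀ R → u t ≤ C) →
  (∀ t ∈ Z, ‖t - c₀‖ ≤ R - ρ₂ → ∃ ρ ∈ Icc ρ₁ ρ₂, (∀ᵐ w, w ∈ ball t ρ → w ∈ Z) ∧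
    IntegrableOn u (ball t ρ) ∧ Real.pi * ρ ^ 2 * (u t + c * ρ ^ 2) ≤ ∫ w in ball t ρ, u w) →
  ∀ t ∈ Z, t ∈ ball c₀ R → u t + c * ((R - ρ₂) ^ 2 - ‖t - c₀‖ ^ 2) ≤ C

/-- The function `uu` is very negative deep inside a disc where two sections are close. -/
def GlueStmt : Prop := ∀ (n : ℕ) (D : Fib n) (Q : PR 3) (d : ℕ), QV D Q d →
  ∃ ρ : ℝ, 0 < ρ ∧ (∀ t₀ : ℂ, ∃ t, ‖t - t₀‖ ≤ 4 * ρ ∧ Far D (2 * ρ) t) ∧ ∀ η₀ : ℝ, 0 < η₀ →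
  ∃ ρ₁ : ℝ, 0 < ρ₁ ∧ ∀ η₁ : ℝ, 0 < η₁ → ∃ δ c C : ℝ, 0 < δ ∧ 0 < c ∧
    ∀ (c₀ : ℂ) (R : ℝ) (s s' : ℂ → V n), 9 * ρ ≤ R → Sc D.Xo (ball c₀ R) s →
    Sc D.X (ball c₀ R) s' →
    ((∀ t ∈ ball c₀ R, s' t ∈ Cone D.U ∧ (Far D ρ t → Aw D η₀ t (s t)) ∧
      (Far D ρ₁ t → Aw D η₁ t (s t))) ∨ ∀ t ∈ ball c₀ R, s' t ∉ Cone D.U) →
    (∀ t ∈ ball c₀ R, Far D δ t → d2 (s t) (s' t) ≤ δ) →
    ∀ t, ‖t - c₀‖ < R - 9 * ρ → Far D ρ t → Zp D Q t (s t) (s' t) →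
      uu D Q d t (s t) (s' t) + c * ((R - 9 * ρ) ^ 2 - ‖t - c₀‖ ^ 2) ≤ C

/-- Continuity of `uu` in a fibre. -/
def ContStmt : Prop := ∀ (n : ℕ) (D : Fib n) (Q : PR 3) (d : ℕ) (t : ℂ) (y y' : V n) (ε : ℝ),
  Q.IsHomogeneous d → (t, y) ∈ Rx D.X → y' ≠ 0 → Zp D Q t y y' → 0 < ε → ∃ η : ℝ, 0 < η ∧
    ∀ w w', (t, w) ∈ D.X → w' ≠ 0 → d2 w y ≤ η → d2 w' y' ≤ η →
      Zp D Q t w w' ∧ uu D Q d t y y' ≤ uu D Q d t w w' + ε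

/-! ### Rows ExpB, Sep, LM, Bd, Exp, Fin, Cur -/

/-- `g` and `g'` are close on a half-plane, away from the bad values. -/
def Hc (D : Fib n) (g g' : ℂ → V n) (δ : ℝ) : Prop := ∃ (e : ℂ) (y₀ : ℝ), ‖e‖ = 1 ∧
  ∀ t, y₀ < (t * conj e).re → Far D δ t → d2 (g t) (g' t) ≤ δ

/-- Entire sections inside a curve. -/
def InC (D : Fib n) (B : PR n) (g : ℂ → V n) : Prop := Sc D.X univ g ∧ ∀ t, eval (g t) B = 0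

def SecFinStmt : Prop := ∀ (n : ℕ) (D : Fib n) (B : PR n), NZ D.X B → Fn (InC D B)

/-- Finite invariant classes are compact and separated on half-planes. -/
def SepStmt : Prop := ∀ (n : ℕ) (D : Fib n) (P : (ℂ → V n) → Prop), Inv D P → Fn P → Cp D P ∧
  ∃ δ₀ : ℝ, 0 < δ₀ ∧ ∀ δ ≤ δ₀, ∀ g g', P g → P g' → Hc D g g' δ → ∀ t, Pp (g t) (g' t)

/-- Translation to a point of least modulus. -/
def LMStmt : Prop := ∀ (n : ℕ) (D : Fib n) (P P' : (ℂ → V n) → Prop) (δ : ℝ) (u : Ultrafilter ℕ)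
  (g g' : ℕ → ℂ → V n) (G₀ : ℂ → V n), Inv D P → Inv D P' → Cp D P → Cp D P' → 0 < δ →
  (∀ k, P (g k) ∧ P' (g' k)) → Cv u D.Bᶜ g G₀ → Cv u D.Bᶜ g' G₀ →
  (∀ᶠ k in u, ∃ t, Far D δ t ∧ δ ≤ d2 (g k t) (g' k t)) →
  ∃ G G', P G ∧ P' G' ∧ Hc D G G' δ ∧ ∃ t, ¬Pp (G t) (G' t)

def ExpBStmt : Prop := ∀ (n : ℕ) (D : Fib n), ∃ (δ₀ : ℝ) (B : PR n), 0 < δ₀ ∧ NZ D.X B ∧
  (∀ x ∈ D.X, x.2 ∉ Cone D.U → eval x.2 B = 0) ∧ ∀ δ ≤ δ₀, ∀ g γ, Adm D g → Sc D.X univ γ →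
    InB D γ → Hc D g γ δ → ∀ t, eval (g t) B = 0

/-- Admissible sections stay away from the boundary. -/
def BdStmt : Prop := ∀ (n : ℕ) (D : Fib n) (r : ℝ), 0 < r → ∃ η : ℝ, 0 < η ∧
  ∀ g, Adm D g → ¬InB D g → ∀ t, Far D r t → Aw D η t (g t)

def Exp0Stmt : Prop := ∀ (n : ℕ) (D : Fib n), ∃ (δ₀ : ℝ) (B : PR n), 0 < δ₀ ∧ NZ D.X B ∧
  ∀ δ ≤ δ₀, ∀ g g', Adm D g → Adm D g' → ¬InB D g → ¬InB D g' → Hc D g g' δ →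
    (∀ t, Pp (g t) (g' t)) ∨ ∀ t, eval (g t) B = 0

def FinStmt : Prop := ∀ (n : ℕ) (D : Fib n), Fn fun g => Adm D g ∧ ¬InB D g

/-- Finite invariant classes lie in a curve. -/
def Cur0Stmt : Prop := ∀ (n : ℕ) (D : Fib n) (P : (ℂ → V n) → Prop), Inv D P → Fn P →
  ∃ R, NZ D.X R ∧ ∀ g, P g → ∀ t, eval (g t) R = 0

def CurStmt : Prop := ∀ (n : ℕ) (D : Fib n), ∃ R, NZ D.X R ∧
  ∀ g, Adm D g → ∀ t, eval (g t) R = 0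

/-! ### Row ND: charged sequences of discs -/

def NSq (D : Fib n) (η : ℝ) (F : ℕ → ℂ → V n) (h : ℕ → ℂ → ℂ) (R : ℕ → ℝ) (S : ℕ → Set ℂ) : Prop :=
  Tendsto R atTop atTop ∧ ∀ k, Nm D.Xo (ball 0 (R k)) (F k) (h k) ∧ S k ⊆ ball 0 1 ∧ 1 ≤ R k ∧
    ∀ z ∈ S k, Far D η (h k z)

def NDAStmt : Prop := ∀ (n : ℕ) (D : Fib n) (η Λ : ℝ) (F : ℕ → ℂ → V n) (h : ℕ → ℂ → ℂ)
  (R : ℕ → ℝ) (S : ℕ → Set ℂ) (μ : ℕ → ℝ), 0 < η → NSq D η F h R S → Tendsto μ atTop atTop →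
  (∀ᶠ k in atTop, ENNReal.ofReal (μ k) ≤ mu (lam (F k)) (S k) ∧
    mu (lam (F k)) (ball 0 64) ≤ ENNReal.ofReal (Λ * μ k)) →
  ∃ s, Adm D s ∧ ∃ t, s t ∈ closure {y | ∃ k, ∃ z ∈ S k, Pp y (F k z)}

def NDBStmt : Prop := ∀ (n : ℕ) (D : Fib n) (η Λ ε : ℝ) (F : ℕ → ℂ → V n) (h : ℕ → ℂ → ℂ)
  (R : ℕ → ℝ) (S : ℕ → Set ℂ), 0 < η → 0 < ε → NSq D η F h R S →
  (∀ k, MeasurableSet (S k) ∧ ENNReal.ofReal ε ≤ mu (lam (F k)) (S k)) →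
  (∀ j : ℕ, ∃ᶠ k in atTop,
    mu (lam (F k)) (ball 0 (Real.exp (3 * j))) ≤ ENNReal.ofReal (Λ * 2 ^ j)) → False

def NDStmt : Prop := ∀ (n : ℕ) (D : Fib n), ∃ T, NZ D.X T ∧ G2.NoChg D.U T

end Pool.Agent.MP_c69980_ag.E2
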